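import Mathlib

open Filter Topology Metric

namespace Pool.Agent.Lib_helper53.SA

/-- The open unit disc of the complex plane. -/
abbrev Disc : Type := ball (0 : ℂ) 1

/-- The complex vector space H(D) of holomorphic functions on the open unit disc. -/
def HD : Submodule ℂ (Disc → ℂ) where
  carrier := {f | ∃ F : ℂ → ℂ, DifferentiableOn ℂ F (ball 0 1) ∧ ∀ z : Disc, f z = F z}
  add_mem' := by
    rintro f g ⟨F, hF, hf⟩ ⟨G, hG, hg⟩
    exact ⟨F + G, hF.add hG, fun z => by simp [hf, hg]⟩
  zero_mem' := ⟨0, differentiableOn_const 0, fun z => by simp⟩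
  smul_mem' := by
    rintro c f ⟨F, hF, hf⟩
    exact ⟨c • F, hF.const_smul c, fun z => by simp [hf]⟩

lemma HD_continuous (f : HD) : Continuous (f : Disc → ℂ) := by
  obtain ⟨F, hF, hf⟩ := f.2
  have h := continuousOn_iff_continuous_domRestrict.mp hF.continuousOn
  have e : (f : Disc → ℂ) = (ball (0 : ℂ) 1).domRestrict F := by
    ext z
    exact hf z
  rw [e]
  exact h

/-- An element of H(D) as a continuous function on the disc. -/
def toC (f : HD) : C(Disc, ℂ) := ⟨f, HD_continuous f⟩

/-- The topology of uniform convergence on compact subsets of the disc on H(D), that is, the one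
induced by the compact-open topology of the space of continuous functions on the disc. -/
@[instance_reducible]
noncomputable def compactConvergence : TopologicalSpace HD :=
  TopologicalSpace.induced toC ContinuousMap.compactOpen

/-- A function on the disc is strongly annular when the limsup, as `r → 1` from the left, of the
minimum modulus on the circle of radius `r` is `+∞`. -/
def StronglyAnnular (f : Disc → ℂ) : Prop :=
  limsup (fun r : ℝ => ⨅ z : {z : Disc // ‖(z : ℂ)‖ = r}, ‖f z‖ₑ) (𝓝[<] (1 : ℝ)) = ⊤

/-- A set `A` in a complex vector space with topology `τ` is spaceable when `A ∪ {0}` contains a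
`τ`-closed infinite-dimensional vector subspace. -/
def Spaceable {X : Type} [AddCommGroup X] [Module ℂ X] (τ : TopologicalSpace X) (A : Set X) : Prop :=
  ∃ M : Submodule ℂ X, IsClosed[τ] (M : Set X) ∧ ¬ FiniteDimensional ℂ M ∧ (M : Set X) ⊆ A ∪ {0}

end Pool.Agent.Lib_helper53.SA
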