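import Mathlib
import Pool.Agent.Lib_helper53.SADefs

open Filter Topology Metric MeasureTheory
open scoped ENNReal

namespace Pool.Agent.Lib_helper53.SA

/-- Area measure on the open unit disc. -/
noncomputable def area : Measure Disc := Measure.comap ((↑) : Disc → ℂ) volume

/-- `∫_D |f|^p (1 - |z|)^α dA`, with values in `[0, ∞]`. -/
noncomputable def bergmanIntegral (p α : ℝ) (f : Disc → ℂ) : ℝ≥0∞ :=
  ∫⁻ z : Disc, ‖f z‖ₑ ^ p * ENNReal.ofReal ((1 - ‖(z : ℂ)‖) ^ α) ∂area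

/-- `‖f‖_{p,α} = (∫_D |f|^p (1 - |z|)^α dA / π) ^ min(1, 1/p)`, with values in `[0, ∞]`. -/
noncomputable def bergmanNorm (p α : ℝ) (f : Disc → ℂ) : ℝ≥0∞ :=
  (bergmanIntegral p α f / ENNReal.ofReal Real.pi) ^ min 1 (1 / p)

lemma bergmanNorm_lt_top_iff {p α : ℝ} (hp : 0 < p) (f : Disc → ℂ) :
    bergmanNorm p α f < ⊤ ↔ bergmanIntegral p α f < ⊤ := by
  have he : 0 < min 1 (1 / p) := lt_min one_pos (by positivity)
  have hpi : ENNReal.ofReal Real.pi ≠ 0 := by simp [Real.pi_pos]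
  unfold bergmanNorm
  rw [ENNReal.rpow_lt_top_iff_of_pos he]
  constructor
  · intro h
    by_contra hcon
    rw [not_lt, top_le_iff] at hcon
    rw [hcon, ENNReal.top_div_of_ne_top ENNReal.ofReal_ne_top] at h
    exact lt_irrefl _ h
  · intro h
    exact ENNReal.div_lt_top h.ne hpi

lemma add_rpow_le {p : ℝ} (hp : 0 < p) (a b : ℝ≥0∞) :
    (a + b) ^ p ≤ 2 ^ p * (a ^ p + b ^ p) := by
  have h1 : a + b ≤ 2 * max a b := by
    rw [two_mul]
    exact add_le_add (le_max_left _ _) (le_max_right _ _)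
  calc (a + b) ^ p ≤ (2 * max a b) ^ p := ENNReal.rpow_le_rpow h1 hp.le
    _ = 2 ^ p * (max a b) ^ p := ENNReal.mul_rpow_of_nonneg _ _ hp.le
    _ ≤ 2 ^ p * (a ^ p + b ^ p) := by
        gcongr
        rcases le_total a b with h | h
        · rw [max_eq_right h]; exact le_add_self
        · rw [max_eq_left h]; exact le_self_add

lemma bergmanIntegral_add_le {p α : ℝ} (hp : 0 < p) {f g : Disc → ℂ} (hf : f ∈ HD) :
    bergmanIntegral p α (f + g) ≤ 2 ^ p * (bergmanIntegral p α f + bergmanIntegral p α g) := by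
  unfold bergmanIntegral
  have hmeas : Measurable fun z : Disc => ‖f z‖ₑ ^ p * ENNReal.ofReal ((1 - ‖(z : ℂ)‖) ^ α) := by
    have : Measurable f := (HD_continuous ⟨f, hf⟩).measurable
    fun_prop
  rw [← lintegral_add_left hmeas, ← lintegral_const_mul' _ _ (by simp)]
  apply lintegral_mono
  intro z
  simp only [Pi.add_apply]
  calc ‖f z + g z‖ₑ ^ p * ENNReal.ofReal ((1 - ‖(z : ℂ)‖) ^ α)
      ≤ (2 ^ p * (‖f z‖ₑ ^ p + ‖g z‖ₑ ^ p)) * ENNReal.ofReal ((1 - ‖(z : ℂ)‖) ^ α) := by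
        gcongr
        exact (ENNReal.rpow_le_rpow (enorm_add_le _ _) hp.le).trans (add_rpow_le hp _ _)
    _ = _ := by ring

lemma bergmanIntegral_smul {p α : ℝ} (hp : 0 < p) (c : ℂ) (f : Disc → ℂ) :
    bergmanIntegral p α (c • f) = ‖c‖ₑ ^ p * bergmanIntegral p α f := by
  unfold bergmanIntegral
  rw [← lintegral_const_mul' _ _ (by simp [hp.le])]
  congr 1
  ext z
  simp only [Pi.smul_apply, smul_eq_mul, enorm_mul]
  rw [ENNReal.mul_rpow_of_nonneg _ _ hp.le]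
  ring

/-- The weighted Bergman space: the holomorphic functions `f` on the disc with `‖f‖_{p,α} < ∞`. -/
def Bergman (p α : ℝ) (hp : 0 < p) : Submodule ℂ (Disc → ℂ) where
  carrier := {f | f ∈ HD ∧ bergmanNorm p α f < ⊤}
  add_mem' := by
    rintro f g ⟨hf1, hf2⟩ ⟨hg1, hg2⟩
    refine ⟨HD.add_mem hf1 hg1, ?_⟩
    rw [bergmanNorm_lt_top_iff hp] at hf2 hg2 ⊢
    refine lt_of_le_of_lt (bergmanIntegral_add_le hp hf1) ?_
    exact ENNReal.mul_lt_top (ENNReal.rpow_lt_top_of_nonneg hp.le (by simp))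
      (ENNReal.add_lt_top.mpr ⟨hf2, hg2⟩)
  zero_mem' := by
    refine ⟨HD.zero_mem, ?_⟩
    rw [bergmanNorm_lt_top_iff hp]
    have h0 := bergmanIntegral_smul (α := α) hp 0 (0 : Disc → ℂ)
    rw [zero_smul] at h0
    rw [h0, enorm_zero, ENNReal.zero_rpow_of_pos hp, zero_mul]
    exact ENNReal.zero_lt_top
  smul_mem' := by
    rintro c f ⟨hf1, hf2⟩
    refine ⟨HD.smul_mem c hf1, ?_⟩
    rw [bergmanNorm_lt_top_iff hp] at hf2 ⊢
    rw [bergmanIntegral_smul hp]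
    exact ENNReal.mul_lt_top (ENNReal.rpow_lt_top_of_nonneg hp.le enorm_ne_top) hf2

/-- The topology of the metric `d(f, g) = ‖f - g‖_{p,α}` on the weighted Bergman space: a set is
open when it contains, with each point `f`, all `g` with `‖g - f‖_{p,α} < ε` for some `ε > 0`. -/
@[instance_reducible]
def bergmanTopology (p α : ℝ) (hp : 0 < p) : TopologicalSpace (Bergman p α hp) where
  IsOpen U := ∀ f ∈ U, ∃ ε > 0, ∀ g : Bergman p α hp,
    bergmanNorm p α (fun z => (g : Disc → ℂ) z - (f : Disc → ℂ) z) < ε → g ∈ U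
  isOpen_univ := fun _ _ => ⟨1, one_pos, fun _ _ => trivial⟩
  isOpen_inter := by
    rintro U V hU hV f ⟨hfU, hfV⟩
    obtain ⟨ε, hε, h1⟩ := hU f hfU
    obtain ⟨δ, hδ, h2⟩ := hV f hfV
    exact ⟨min ε δ, lt_min hε hδ, fun g hg => ⟨h1 g (lt_of_lt_of_le hg (min_le_left _ _)),
      h2 g (lt_of_lt_of_le hg (min_le_right _ _))⟩⟩
  isOpen_sUnion := by
    rintro S hS f ⟨U, hUS, hfU⟩
    obtain ⟨ε, hε, h1⟩ := hS U hUS f hfU
    exact ⟨ε, hε, fun g hg => ⟨U, hUS, h1 g hg⟩⟩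

end Pool.Agent.Lib_helper53.SA
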