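import Mathlib
import Pool.Agent.Lib_helper53.SADefs

open Filter Topology Metric

namespace Pool.Agent.Lib_helper53.SA

def K (l : ℕ) : ℕ := 16 ^ (l ^ 2)

lemma K_pos (l : ℕ) : 0 < K l := by unfold K; positivity

lemma K_strictMono : StrictMono K := by
  intro a b h
  unfold K
  exact Nat.pow_lt_pow_right (by norm_num) (by nlinarith)

lemma dominated_sum (t : ℕ → ℝ) (l : ℕ) (hs : Summable t) (h0 : 0 ≤ t l)
    (h1 : ∀ i < l, t i ≤ 2 * (1/16 : ℝ) ^ (l - i) * t l)
    (h2 : ∀ d, t (d + (l + 1)) ≤ 2 * (1/16 : ℝ) ^ (d + 1) * t l) :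
    ∑' i, (if i = l then 0 else t i) ≤ (1/2) * t l := by
  have hs' : Summable (fun i => if i = l then 0 else t i) := by
    have := hs.sub ((hasSum_ite_eq l (t l)).summable)
    refine this.congr ?_
    intro i
    by_cases h : i = l
    · simp [h]
    · simp [h]
  rw [← hs'.sum_add_tsum_nat_add (l + 1)]
  have hA : ∑ i ∈ Finset.range (l + 1), (if i = l then 0 else t i) ≤ (2/15) * t l := by
    rw [Finset.sum_range_succ]
    simp only [if_true, add_zero]
    calc ∑ i ∈ Finset.range l, (if i = l then 0 else t i)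
        ≤ ∑ i ∈ Finset.range l, 2 * (1/16 : ℝ) ^ (l - i) * t l := by
          apply Finset.sum_le_sum
          intro i hi
          have hi' := Finset.mem_range.mp hi
          rw [if_neg (by omega)]
          exact h1 i hi'
      _ = ∑ i ∈ Finset.range l, 2 * (1/16 : ℝ) ^ (i + 1) * t l := by
          rw [← Finset.sum_range_reflect]
          apply Finset.sum_congr rfl
          intro i hi
          have hi' := Finset.mem_range.mp hi
          congr 3
          omega
      _ = 2 * t l * (1/16) * ∑ i ∈ Finset.range l, (1/16 : ℝ) ^ i := by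
          rw [Finset.mul_sum]
          apply Finset.sum_congr rfl
          intro i _
          ring
      _ ≤ 2 * t l * (1/16) * (16/15) := by
          apply mul_le_mul_of_nonneg_left _ (by positivity)
          rw [geom_sum_eq (by norm_num)]
          have : (0:ℝ) ≤ (1/16)^l := by positivity
          rw [div_le_iff_of_neg (by norm_num)]
          linarith
      _ = _ := by ring
  have hB : ∑' i, (if i + (l + 1) = l then 0 else t (i + (l + 1))) ≤ (2/15) * t l := by
    have hg : HasSum (fun d : ℕ => 2 * (1/16 : ℝ) ^ (d + 1) * t l) (2/15 * t l) := by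
      have := (hasSum_geometric_of_lt_one (r := (1/16 : ℝ)) (by norm_num) (by norm_num)).mul_left (2 * (1/16) * t l)
      have h15 : 2/15 * t l = 2 * (1/16) * t l * (1 - 1/16)⁻¹ := by norm_num; ring
      have hfun : (fun d : ℕ => 2 * (1/16 : ℝ) ^ (d + 1) * t l) =
          fun d => 2 * (1/16) * t l * (1/16) ^ d := by
        ext d; ring
      rw [h15, hfun]
      exact this
    refine ((hs'.comp_injective (add_left_injective (l+1))).tsum_le_tsum ?_ hg.summable).trans hg.tsum_eq.le
    intro d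
    simp only [Function.comp]
    rw [if_neg (by omega)]
    exact h2 d
  linarith


lemma pow_aux (d : ℕ) : (16 : ℝ) ^ (d + 1) * (1/2) ^ (16 ^ (d + 1)) ≤ (1/16) ^ (d + 1) := by
  have h1 : 8 * (d + 1) ≤ 16 ^ (d + 1) := by
    induction d with
    | zero => norm_num
    | succ n ih => rw [pow_succ]; omega
  have h2 : (1/2 : ℝ) ^ (16 ^ (d + 1)) ≤ (1/2) ^ (8 * (d + 1)) :=
    pow_le_pow_of_le_one (by norm_num) (by norm_num) h1
  calc (16 : ℝ) ^ (d + 1) * (1/2) ^ (16 ^ (d + 1)) ≤ (16 : ℝ) ^ (d + 1) * (1/2) ^ (8 * (d + 1)) := by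
        gcongr
    _ = (16 * (1/2) ^ 8) ^ (d + 1) := by rw [mul_pow, pow_mul]
    _ = (1/16) ^ (d + 1) := by norm_num

/-- If the (weighted) term of index `l` is maximal at radius `r`, then at the slightly smaller radius
`r * ρ`, with `ρ ^ K l = 1 / 2`, that term dominates twice the sum of all others. -/
lemma dominates (b : ℕ → ℂ) (F : ℂ → ℂ)
    (hF : ∀ z : ℂ, ‖z‖ < 1 → HasSum (fun l => b l * z ^ K l) (F z)) (l : ℕ) (r ρ : ℝ)
    (hr : 0 < r) (hr1 : r < 1) (hρ0 : 0 < ρ) (hρ1 : ρ < 1) (hρ : ρ ^ K l = 1/2)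
    (hmax : ∀ i, ‖b i‖ * r ^ K i / 16 ^ i ≤ ‖b l‖ * r ^ K l / 16 ^ l) (z : ℂ) (hz : ‖z‖ = r * ρ) :
    ‖b l‖ * r ^ K l / 4 ≤ ‖F z‖ := by
  set t : ℕ → ℝ := fun i => ‖b i‖ * (r * ρ) ^ K i with ht
  have hrρ : r * ρ < 1 := by nlinarith
  have hsum := hF z (by rw [hz]; exact hrρ)
  have hnorm : ∀ i, ‖b i * z ^ K i‖ = t i := by
    intro i; rw [norm_mul, norm_pow, hz]
  have hts : Summable t := by
    have := hsum.summable.norm
    exact this.congr hnorm
  have h0 : ∀ i, 0 ≤ t i := fun i => by positivity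
  have htl : t l = ‖b l‖ * r ^ K l / 2 := by
    simp only [ht, mul_pow, hρ]; ring
  have key : ∀ i, t i ≤ 2 * t l * (16 ^ i / 16 ^ l) * ρ ^ K i := by
    intro i
    have h := hmax i
    rw [div_le_iff₀ (by positivity)] at h
    calc t i = (‖b i‖ * r ^ K i) * ρ ^ K i := by simp only [ht, mul_pow]; ring
      _ ≤ (‖b l‖ * r ^ K l / 16 ^ l * 16 ^ i) * ρ ^ K i := by gcongr
      _ = _ := by rw [htl]; ring
  have h1 : ∀ i < l, t i ≤ 2 * (1/16 : ℝ) ^ (l - i) * t l := by
    intro i hi
    refine (key i).trans ?_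
    have e : (16 : ℝ) ^ i / 16 ^ l = (1/16) ^ (l - i) := by
      rw [one_div, inv_pow, pow_sub₀ _ (by norm_num) hi.le]
      field_simp
    rw [e]
    have : ρ ^ K i ≤ 1 := pow_le_one₀ hρ0.le hρ1.le
    calc 2 * t l * (1/16) ^ (l - i) * ρ ^ K i ≤ 2 * t l * (1/16) ^ (l - i) * 1 := by
          have := h0 l
          gcongr
      _ = _ := by ring
  have h2 : ∀ d, t (d + (l + 1)) ≤ 2 * (1/16 : ℝ) ^ (d + 1) * t l := by
    intro d
    refine (key _).trans ?_
    have e : (16 : ℝ) ^ (d + (l + 1)) / 16 ^ l = 16 ^ (d + 1) := by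
      rw [show d + (l + 1) = (d + 1) + l by ring, pow_add]
      field_simp
    rw [e]
    have e2 : ρ ^ K (d + (l + 1)) ≤ (1/2) ^ (16 ^ (d + 1)) := by
      have hK : K l * 16 ^ (d + 1) ≤ K (d + (l + 1)) := by
        unfold K
        rw [← pow_add]
        apply Nat.pow_le_pow_right (by norm_num)
        have e3 : (d + (l + 1)) ^ 2 = l ^ 2 + (d + 1) + (d * (d + 1) + 2 * l * (d + 1)) := by ring
        rw [e3]
        exact Nat.le_add_right _ _
      calc ρ ^ K (d + (l + 1)) ≤ ρ ^ (K l * 16 ^ (d + 1)) := pow_le_pow_of_le_one hρ0.le hρ1.le hK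
        _ = _ := by rw [pow_mul, hρ]
    have h3 := pow_aux d
    have := h0 l
    calc 2 * t l * 16 ^ (d + 1) * ρ ^ K (d + (l + 1)) ≤ 2 * t l * 16 ^ (d + 1) * (1/2) ^ (16 ^ (d + 1)) := by
          gcongr
      _ = 2 * t l * (16 ^ (d + 1) * (1/2) ^ (16 ^ (d + 1))) := by ring
      _ ≤ 2 * t l * (1/16) ^ (d + 1) := by gcongr
      _ = _ := by ring
  have hdom := dominated_sum t l hts (h0 l) h1 h2
  have hsub := hsum.sub (hasSum_ite_eq l (b l * z ^ K l))
  have hrest : ‖F z - b l * z ^ K l‖ ≤ (1/2) * t l := by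
    rw [← hsub.tsum_eq]
    refine (norm_tsum_le_tsum_norm ?_).trans ?_
    · have : Summable (fun i => if i = l then 0 else t i) := by
        have := hts.sub ((hasSum_ite_eq l (t l)).summable)
        refine this.congr ?_
        intro i
        by_cases h : i = l
        · simp [h]
        · simp [h]
      refine this.congr ?_
      intro i
      by_cases h : i = l
      · simp [h]
      · simp only [h, if_false, sub_zero]
        exact (hnorm i).symm
    · refine le_trans (le_of_eq ?_) hdom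
      congr 1
      ext i
      by_cases h : i = l
      · simp [h]
      · simp only [h, if_false, sub_zero]
        exact hnorm i
  have h4 : t l ≤ ‖F z‖ + ‖F z - b l * z ^ K l‖ := by
    rw [← hnorm l]
    calc ‖b l * z ^ K l‖ = ‖F z - (F z - b l * z ^ K l)‖ := by congr 1; ring
      _ ≤ _ := norm_sub_le _ _
  linarith

lemma annular_key (b : ℕ → ℂ) (F : ℂ → ℂ)
    (hF : ∀ z : ℂ, ‖z‖ < 1 → HasSum (fun l => b l * z ^ K l) (F z)) (c : ℝ) (hc : 0 < c)
    (hb : ∃ᶠ l in atTop, c * 32 ^ l ≤ ‖b l‖) (C r0 : ℝ) (hr0 : r0 < 1) :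
    ∃ R, r0 < R ∧ R < 1 ∧ 0 < R ∧ ∀ z : ℂ, ‖z‖ = R → C ≤ ‖F z‖ := by
  set r1 : ℝ := max r0 0 with hr1
  have hr1' : r1 < 1 := by rw [hr1]; exact max_lt hr0 one_pos
  have hr10 : 0 ≤ r1 := le_max_right _ _
  have hr01 : r0 ≤ r1 := le_max_left _ _
  set q : ℝ := (1 + r1) / 2 with hq
  have hq1 : q < 1 := by rw [hq]; linarith
  have hq0 : 0 < q := by rw [hq]; linarith
  have hqq : r1 ≤ q * q := by rw [hq]; nlinarith [sq_nonneg (1 - r1)]
  -- the auxiliary factors
  set ρ : ℕ → ℝ := fun l => (1/2 : ℝ) ^ ((K l : ℝ)⁻¹) with hρdef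
  have hρpow : ∀ l, ρ l ^ K l = 1/2 := fun l =>
    Real.rpow_inv_natCast_pow (by norm_num) (K_pos l).ne'
  have hρ0 : ∀ l, 0 < ρ l := fun l => Real.rpow_pos_of_pos (by norm_num) _
  have hρ1 : ∀ l, ρ l < 1 := fun l =>
    Real.rpow_lt_one (by norm_num) (by norm_num) (by have := K_pos l; positivity)
  have hKt : Tendsto (fun l => (K l : ℝ)) atTop atTop :=
    tendsto_natCast_atTop_atTop.comp K_strictMono.tendsto_atTop
  have hρt : Tendsto ρ atTop (𝓝 1) := by
    have h1 : Tendsto (fun x : ℝ => (1/2 : ℝ) ^ x) (𝓝 0) (𝓝 ((1/2 : ℝ) ^ (0:ℝ))) :=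
      (Real.continuous_const_rpow (by norm_num)).tendsto 0
    rw [Real.rpow_zero] at h1
    exact h1.comp (tendsto_inv_atTop_zero.comp hKt)
  obtain ⟨L, hL⟩ := eventually_atTop.mp (hρt.eventually (lt_mem_nhds hq1))
  set B : ℝ := ∑ l ∈ Finset.range L, ‖b l‖ / 16 ^ l with hB
  -- choose m
  have hpow : Tendsto (fun m : ℕ => c * 2 ^ m) atTop atTop :=
    (tendsto_pow_atTop_atTop_of_one_lt (by norm_num)).const_mul_atTop hc
  obtain ⟨m, hm1, hm2⟩ := (hb.and_eventually ((hpow.eventually_gt_atTop (2 * B)).and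
    (hpow.eventually_ge_atTop (8 * C)))).exists
  obtain ⟨hm2, hm3⟩ := hm2
  -- choose r
  have hrt : Tendsto (fun r : ℝ => r ^ K m) (𝓝[<] 1) (𝓝 1) := by
    have : Tendsto (fun r : ℝ => r ^ K m) (𝓝 1) (𝓝 (1 ^ K m)) := (continuous_pow (K m)).tendsto 1
    rw [one_pow] at this
    exact this.mono_left nhdsWithin_le_nhds
  obtain ⟨r, ⟨hr2, hr3⟩, hr4⟩ := ((hrt.eventually (lt_mem_nhds (show (1/2 : ℝ) < 1 by norm_num))).and
    (Ioo_mem_nhdsLT hq1)).exists.imp (fun r hr => show ((1/2 : ℝ) < r ^ K m ∧ q < r) ∧ r < 1 from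
      ⟨⟨hr.1, hr.2.1⟩, hr.2.2⟩)
  have hr0' : 0 < r := hq0.trans hr3
  -- the weighted maximal term
  set a : ℕ → ℝ := fun i => ‖b i‖ * r ^ K i / 16 ^ i with ha
  have hasum : Summable (fun i => ‖b i‖ * r ^ K i) := by
    have h := (hF (r : ℂ) (by rw [Complex.norm_real, Real.norm_of_nonneg hr0'.le]; exact hr4)).summable.norm
    refine h.congr ?_
    intro i
    rw [norm_mul, norm_pow, Complex.norm_real, Real.norm_of_nonneg hr0'.le]
  have hat : Tendsto a atTop (𝓝 0) := by
    refine squeeze_zero (fun i => by positivity) (fun i => ?_) hasum.tendsto_atTop_zero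
    apply div_le_self (by positivity)
    exact one_le_pow₀ (by norm_num)
  have hbm : c * 2 ^ m ≤ ‖b m‖ / 16 ^ m := by
    rw [le_div_iff₀ (by positivity), mul_assoc, ← mul_pow]
    norm_num
    exact hm1
  have ham : c * 2 ^ m / 2 < a m := by
    have h5 : 0 < c * 2 ^ m := by positivity
    have h6 : a m = (‖b m‖ / 16 ^ m) * r ^ K m := by simp only [ha]; ring
    rw [h6]
    calc c * 2 ^ m / 2 = (c * 2 ^ m) * (1/2) := by ring
      _ < (c * 2 ^ m) * r ^ K m := by gcongr
      _ ≤ (‖b m‖ / 16 ^ m) * r ^ K m := by gcongr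
  have ham0 : 0 < a m := lt_trans (by positivity) ham
  have hfin : {i | a m ≤ a i}.Finite := by
    obtain ⟨N, hN⟩ := eventually_atTop.mp (hat.eventually (gt_mem_nhds ham0))
    refine (Set.finite_lt_nat N).subset ?_
    intro i hi
    by_contra hcon
    have hcon' : N ≤ i := not_lt.mp hcon
    exact absurd (hN i hcon') (not_lt.mpr hi)
  obtain ⟨l, hl1, hl2⟩ := Set.exists_max_image _ a hfin ⟨m, le_refl (a m)⟩
  have hmax : ∀ i, a i ≤ a l := by
    intro i
    by_cases h : a m ≤ a i
    · exact hl2 i h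
    · exact (not_le.mp h).le.trans hl1
  have hlL : L ≤ l := by
    by_contra hcon
    have hcon' : l < L := not_le.mp hcon
    have h7 : a l ≤ ‖b l‖ / 16 ^ l := by
      have : r ^ K l ≤ 1 := pow_le_one₀ hr0'.le hr4.le
      simp only [ha]
      gcongr
      calc ‖b l‖ * r ^ K l ≤ ‖b l‖ * 1 := by gcongr
        _ = _ := mul_one _
    have h8 : ‖b l‖ / 16 ^ l ≤ B := by
      rw [hB]
      exact Finset.single_le_sum (f := fun l => ‖b l‖ / 16 ^ l) (fun i _ => by positivity)
        (Finset.mem_range.mpr hcon')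
    have h9 : a m ≤ a l := hmax m
    linarith
  refine ⟨r * ρ l, ?_, ?_, ?_, ?_⟩
  · calc r0 ≤ r1 := hr01
      _ ≤ q * q := hqq
      _ < r * ρ l := by
        have := hL l hlL
        exact mul_lt_mul'' hr3 this hq0.le hq0.le
  · have := hρ1 l
    have := hρ0 l
    nlinarith
  · have := hρ0 l
    positivity
  · intro z hz
    have h10 := dominates b F hF l r (ρ l) hr0' hr4 (hρ0 l) (hρ1 l) (hρpow l) hmax z hz
    have h11 : a l ≤ ‖b l‖ * r ^ K l := by
      simp only [ha]
      apply div_le_self (by positivity)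
      exact one_le_pow₀ (by norm_num)
    have h12 := hmax m
    linarith

/-- Taylor coefficients at the origin. -/
noncomputable def tc (F : ℂ → ℂ) (n : ℕ) : ℂ := (n.factorial : ℂ)⁻¹ * iteratedDeriv n F 0

lemma hasSum_tc {F : ℂ → ℂ} (hF : DifferentiableOn ℂ F (ball 0 1)) {z : ℂ} (hz : ‖z‖ < 1) :
    HasSum (fun n => tc F n * z ^ n) (F z) := by
  have h := Complex.hasSum_taylorSeries_on_ball hF (z := z) (by simpa using hz)
  have e : (fun n => tc F n * z ^ n) =
      fun n : ℕ => (n.factorial : ℂ)⁻¹ • (z - 0) ^ n • iteratedDeriv n F 0 := by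
    ext n
    simp only [tc, smul_eq_mul, sub_zero]
    ring
  rw [e]
  exact h

lemma coef_unique {a b : ℕ → ℂ} {F : ℂ → ℂ}
    (ha : ∀ z : ℂ, ‖z‖ < 1 → HasSum (fun n => a n * z ^ n) (F z))
    (hb : ∀ z : ℂ, ‖z‖ < 1 → HasSum (fun n => b n * z ^ n) (F z)) : a = b := by
  have h1 : ∀ c : ℕ → ℂ, (∀ z : ℂ, ‖z‖ < 1 → HasSum (fun n => c n * z ^ n) (F z)) →
      HasFPowerSeriesAt F (FormalMultilinearSeries.ofScalars ℂ c) 0 := by
    intro c hc
    rw [hasFPowerSeriesAt_iff]
    filter_upwards [ball_mem_nhds (0 : ℂ) one_pos] with z hz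
    have := hc z (by simpa using hz)
    simpa [FormalMultilinearSeries.coeff_ofScalars, mul_comm] using this
  have h2 := (h1 a ha).eq_formalMultilinearSeries (h1 b hb)
  exact FormalMultilinearSeries.ofScalars_series_injective (𝕜 := ℂ) (E := ℂ) h2

/-- the extension by zero -/
noncomputable def ext0 (f : Disc → ℂ) : ℂ → ℂ :=
  fun z => by classical exact if h : z ∈ ball (0 : ℂ) 1 then f ⟨z, h⟩ else 0

lemma ext0_apply (f : Disc → ℂ) (z : Disc) : ext0 f z = f z := by
  unfold ext0
  rw [dif_pos z.2]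

lemma ext0_diff (f : HD) : DifferentiableOn ℂ (ext0 (f : Disc → ℂ)) (ball 0 1) := by
  obtain ⟨F, hF, hf⟩ := f.2
  refine hF.congr ?_
  intro z hz
  have := ext0_apply (f : Disc → ℂ) ⟨z, hz⟩
  simp only at this
  rw [this]
  exact hf ⟨z, hz⟩

/-- The `n`-th Taylor coefficient of an element of `HD`. -/
noncomputable def co (n : ℕ) (f : HD) : ℂ := tc (ext0 (f : Disc → ℂ)) n

lemma hasSum_co (f : HD) (z : Disc) :
    HasSum (fun n => co n f * (z : ℂ) ^ n) ((f : Disc → ℂ) z) := by
  have h := hasSum_tc (ext0_diff f) (z := z) (mem_ball_zero_iff.mp z.2)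
  rw [ext0_apply] at h
  exact h

lemma co_unique (f : HD) (a : ℕ → ℂ)
    (ha : ∀ z : Disc, HasSum (fun n => a n * (z : ℂ) ^ n) ((f : Disc → ℂ) z)) (n : ℕ) :
    co n f = a n := by
  have h : (fun n => co n f) = a := by
    refine coef_unique (F := ext0 (f : Disc → ℂ)) ?_ ?_
    · intro z hz
      have h := hasSum_co f ⟨z, by simpa using hz⟩
      rw [← ext0_apply (f : Disc → ℂ)] at h
      exact h
    · intro z hz
      have h := ha ⟨z, by simpa using hz⟩
      rw [← ext0_apply (f : Disc → ℂ)] at h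
      exact h
  exact congrFun h n

lemma co_add (n : ℕ) (f g : HD) : co n (f + g) = co n f + co n g := by
  refine co_unique (f + g) (fun n => co n f + co n g) ?_ n
  intro z
  have h := (hasSum_co f z).add (hasSum_co g z)
  have e : (fun n => (co n f + co n g) * (z : ℂ) ^ n) =
      fun n => co n f * (z : ℂ) ^ n + co n g * (z : ℂ) ^ n := by
    ext n; ring
  rw [e]
  exact h

lemma co_smul (n : ℕ) (c : ℂ) (f : HD) : co n (c • f) = c * co n f := by
  refine co_unique (c • f) (fun n => c * co n f) ?_ n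
  intro z
  have h := (hasSum_co f z).mul_left c
  have e : (fun n => (c * co n f) * (z : ℂ) ^ n) =
      fun n => c * (co n f * (z : ℂ) ^ n) := by
    ext n; ring
  rw [e]
  exact h

lemma co_zero (n : ℕ) : co n (0 : HD) = 0 := by
  have := co_smul n 0 (0 : HD)
  simpa using this

lemma co_sub (n : ℕ) (f g : HD) : co n (f - g) = co n f - co n g := by
  have h := co_add n (f - g) g
  have e : f - g + g = f := sub_add_cancel f g
  rw [e] at h
  rw [h]; ring

lemma co_bound (n : ℕ) (f : HD) (C : ℝ) (hC : ∀ z : Disc, ‖(z : ℂ)‖ = 1/2 → ‖(f : Disc → ℂ) z‖ ≤ C) :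
    ‖co n f‖ ≤ C * 2 ^ n := by
  have h := Complex.norm_iteratedDeriv_le_of_forall_mem_sphere_norm_le (c := 0) (R := 1/2) (C := C)
    (f := ext0 (f : Disc → ℂ)) n (by norm_num)
    (((ext0_diff f).mono (by
      rw [closure_ball _ (by norm_num)]
      exact closedBall_subset_ball (by norm_num))).diffContOnCl)
    (by
      intro z hz
      have hz' : ‖z‖ = 1/2 := by simpa using hz
      have hz1 : z ∈ ball (0 : ℂ) 1 := by
        rw [mem_ball_zero_iff, hz']; norm_num
      have := ext0_apply (f : Disc → ℂ) ⟨z, hz1⟩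
      simp only at this
      rw [this]
      exact hC ⟨z, hz1⟩ hz')
  unfold co tc
  rw [norm_mul, norm_inv, Complex.norm_natCast]
  have hf : (0 : ℝ) < n.factorial := by positivity
  calc (n.factorial : ℝ)⁻¹ * ‖iteratedDeriv n (ext0 (f : Disc → ℂ)) 0‖
      ≤ (n.factorial : ℝ)⁻¹ * (n.factorial * C / (1/2) ^ n) := by gcongr
    _ = C * 2 ^ n := by
      field_simp
      rw [mul_assoc, ← mul_pow]
      norm_num

lemma continuous_co (n : ℕ) : Continuous[compactConvergence, inferInstance] (co n) := by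
  let : TopologicalSpace HD := compactConvergence
  rw [Metric.continuous_iff']
  intro f ε hε
  have hK : IsCompact {z : Disc | ‖(z : ℂ)‖ = 1/2} := by
    have hemb : IsEmbedding ((↑) : Disc → ℂ) := IsEmbedding.subtypeVal
    rw [hemb.isCompact_iff]
    have : ((↑) : Disc → ℂ) '' {z : Disc | ‖(z : ℂ)‖ = 1/2} = sphere 0 (1/2) := by
      ext z
      simp only [Set.mem_image, Set.mem_ofPred_eq, Subtype.exists, exists_and_right, exists_eq_right,
        mem_sphere_iff_norm, sub_zero]
      constructor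
      · rintro ⟨a, b⟩; exact b
      · intro h
        exact ⟨by rw [mem_ball_zero_iff, h]; norm_num, h⟩
    rw [this]
    exact isCompact_sphere _ _
  have h1 : Tendsto toC (@nhds HD compactConvergence f) (𝓝 (toC f)) :=
    continuous_induced_dom.tendsto f
  rw [ContinuousMap.tendsto_iff_forall_isCompact_tendstoUniformlyOn] at h1
  have h2 := Metric.tendstoUniformlyOn_iff.mp (h1 _ hK) (ε / 2 / 2 ^ n) (by positivity)
  filter_upwards [h2] with g hg
  rw [dist_eq_norm, ← co_sub]
  have h3 := co_bound n (g - f) (ε / 2 / 2 ^ n) (by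
    intro z hz
    have := hg z hz
    rw [dist_comm, dist_eq_norm] at this
    exact this.le)
  calc ‖co n (g - f)‖ ≤ ε / 2 / 2 ^ n * 2 ^ n := h3
    _ = ε / 2 := by field_simp
    _ < ε := by linarith

/-- The class of the index `l`; every class is infinite. -/
def cls (l : ℕ) : ℕ := (Nat.unpair l).1

/-- Sequences of Taylor coefficients of the elements of our subspace. -/
def Mem (a : ℕ → ℂ) : Prop :=
  (∀ n, (∀ l, n ≠ K l) → a n = 0) ∧
    ∀ l l', cls l = cls l' → a (K l) * 32 ^ l' = a (K l') * 32 ^ l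

lemma isClosed_mem {X : Type*} (τ : TopologicalSpace X) (ψ : ℕ → X → ℂ)
    (hψ : ∀ n, Continuous[τ, inferInstance] (ψ n)) :
    IsClosed[τ] {x : X | Mem (fun n => ψ n x)} := by
  have : {x : X | Mem (fun n => ψ n x)} =
      (⋂ n, ⋂ (_ : ∀ l, n ≠ K l), {x | ψ n x = 0}) ∩
      ⋂ l, ⋂ l', ⋂ (_ : cls l = cls l'), {x | ψ (K l) x * 32 ^ l' = ψ (K l') x * 32 ^ l} := by
    ext x
    simp only [Mem, Set.mem_ofPred_eq, Set.mem_inter_iff, Set.mem_iInter]
  rw [this]
  refine IsClosed.inter ?_ ?_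
  · exact isClosed_iInter fun n => isClosed_iInter fun _ => isClosed_eq (hψ n) continuous_const
  · exact isClosed_iInter fun l => isClosed_iInter fun l' => isClosed_iInter fun _ =>
      isClosed_eq ((hψ _).mul continuous_const) ((hψ _).mul continuous_const)

/-- The subspace of H(D) that we use. -/
def M : Submodule ℂ HD where
  carrier := {f | Mem (fun n => co n f)}
  add_mem' := by
    rintro f g ⟨hf1, hf2⟩ ⟨hg1, hg2⟩
    refine ⟨fun n hn => ?_, fun l l' hl => ?_⟩
    · have h1 := hf1 n hn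
      have h2 := hg1 n hn
      simp only at h1 h2 ⊢
      rw [co_add, h1, h2, add_zero]
    · have h1 := hf2 l l' hl
      have h2 := hg2 l l' hl
      simp only [co_add]
      linear_combination h1 + h2
  zero_mem' := by
    refine ⟨fun n _ => co_zero n, fun l l' _ => ?_⟩
    simp only [co_zero, zero_mul]
  smul_mem' := by
    rintro c f ⟨hf1, hf2⟩
    refine ⟨fun n hn => ?_, fun l l' hl => ?_⟩
    · have h1 := hf1 n hn
      simp only at h1 ⊢
      rw [co_smul, h1, mul_zero]
    · have h1 := hf2 l l' hl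
      simp only [co_smul]
      linear_combination c * h1

lemma M_closed : IsClosed[compactConvergence] (M : Set HD) :=
  isClosed_mem compactConvergence co continuous_co


lemma summable_aux {r : ℝ} (hr0 : 0 ≤ r) (hr1 : r < 1) : Summable (fun l => (32 : ℝ) ^ l * r ^ K l) := by
  obtain ⟨N, hN⟩ := exists_pow_lt_of_lt_one (show (0 : ℝ) < 1/64 by norm_num) hr1
  have hg : Summable (fun l : ℕ => (1/2 : ℝ) ^ l) := summable_geometric_two
  refine hg.of_norm_bounded_eventually_nat ?_
  filter_upwards [eventually_ge_atTop N] with l hl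
  rw [Real.norm_of_nonneg (by positivity)]
  have h1 : N * l ≤ K l := by
    unfold K
    calc N * l ≤ l * l := Nat.mul_le_mul_right _ hl
      _ = l ^ 2 := by ring
      _ ≤ 16 ^ (l ^ 2) := (Nat.lt_pow_self (by norm_num)).le
  calc (32 : ℝ) ^ l * r ^ K l ≤ 32 ^ l * r ^ (N * l) :=
        mul_le_mul_of_nonneg_left (pow_le_pow_of_le_one hr0 hr1.le h1) (by positivity)
    _ = (32 * r ^ N) ^ l := by rw [mul_pow, pow_mul]
    _ ≤ (1/2) ^ l := by
        gcongr
        linarith

/-- The holomorphic function `∑ b l z ^ K l`. -/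
noncomputable def G (b : ℕ → ℂ) (z : ℂ) : ℂ := ∑' l, b l * z ^ K l

lemma G_bound {b : ℕ → ℂ} (hb : ∀ l, ‖b l‖ ≤ 32 ^ l) {r : ℝ} (z : ℂ) (hz : ‖z‖ ≤ r) (l : ℕ) :
    ‖b l * z ^ K l‖ ≤ 32 ^ l * r ^ K l := by
  rw [norm_mul, norm_pow]
  have := hb l
  gcongr

lemma G_hasSum {b : ℕ → ℂ} (hb : ∀ l, ‖b l‖ ≤ 32 ^ l) {z : ℂ} (hz : ‖z‖ < 1) :
    HasSum (fun l => b l * z ^ K l) (G b z) := by
  have : Summable (fun l => b l * z ^ K l) :=
    (summable_aux (norm_nonneg z) hz).of_norm_bounded (G_bound hb z le_rfl)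
  exact this.hasSum

lemma G_diff {b : ℕ → ℂ} (hb : ∀ l, ‖b l‖ ≤ 32 ^ l) : DifferentiableOn ℂ (G b) (ball 0 1) := by
  intro z hz
  have hz1 : ‖z‖ < 1 := mem_ball_zero_iff.mp hz
  obtain ⟨r, hr1, hr2⟩ := exists_between hz1
  have h := Complex.differentiableOn_tsum_of_summable_norm (u := fun l => (32 : ℝ) ^ l * r ^ K l)
    (F := fun l z => b l * z ^ K l) (U := ball (0 : ℂ) r)
    (summable_aux ((norm_nonneg z).trans hr1.le) hr2)
    (fun l => ((differentiable_id.pow (K l)).const_mul (b l)).differentiableOn) isOpen_ball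
    (fun l w hw => G_bound hb w (mem_ball_zero_iff.mp hw).le l)
  exact ((h z (mem_ball_zero_iff.mpr hr1)).differentiableAt
    (isOpen_ball.mem_nhds (mem_ball_zero_iff.mpr hr1))).differentiableWithinAt

/-- `G b` as an element of `HD`. -/
noncomputable def toHol (b : ℕ → ℂ) (hb : ∀ l, ‖b l‖ ≤ 32 ^ l) : HD :=
  ⟨fun z => G b z, ⟨G b, G_diff hb, fun _ => rfl⟩⟩

lemma co_toHol (b : ℕ → ℂ) (hb : ∀ l, ‖b l‖ ≤ 32 ^ l) (n : ℕ) :
    co n (toHol b hb) = Function.extend K b 0 n := by
  refine co_unique (toHol b hb) (Function.extend K b 0) ?_ n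
  intro z
  rw [← K_strictMono.injective.hasSum_iff]
  · have h := G_hasSum hb (z := (z : ℂ)) (mem_ball_zero_iff.mp z.2)
    have e : ((fun n => Function.extend K b 0 n * (z : ℂ) ^ n) ∘ K) = fun l => b l * (z : ℂ) ^ K l := by
      ext l
      simp only [Function.comp, K_strictMono.injective.extend_apply]
    rw [e]
    exact h
  · intro x hx
    rw [Function.extend_apply' _ _ _ (by simpa using hx)]
    simp

lemma co_toHol_K (b : ℕ → ℂ) (hb : ∀ l, ‖b l‖ ≤ 32 ^ l) (l : ℕ) :
    co (K l) (toHol b hb) = b l := by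
  rw [co_toHol, K_strictMono.injective.extend_apply]

/-- The coefficients of the basis functions. -/
noncomputable def bc (i : ℕ) (l : ℕ) : ℂ := if cls l = i then 32 ^ l else 0

lemma bc_bound (i l : ℕ) : ‖bc i l‖ ≤ 32 ^ l := by
  unfold bc
  split_ifs with h
  · simp
  · simp

/-- The basis functions. -/
noncomputable def gf (i : ℕ) : HD := toHol (bc i) (bc_bound i)

lemma gf_mem (i : ℕ) : gf i ∈ M := by
  refine ⟨fun n hn => ?_, fun l l' hl => ?_⟩
  · simp only
    unfold gf
    rw [co_toHol, Function.extend_apply']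
    · rfl
    · rintro ⟨l, hl⟩
      exact hn l hl.symm
  · simp only
    unfold gf
    rw [co_toHol_K, co_toHol_K]
    unfold bc
    rw [← hl]
    split_ifs
    · ring
    · ring

/-- The coefficient functional as a linear map. -/
noncomputable def coL (n : ℕ) : HD →ₗ[ℂ] ℂ where
  toFun := co n
  map_add' := co_add n
  map_smul' := co_smul n

lemma gf_linearIndependent : LinearIndependent ℂ gf := by
  refine linearIndependent_iff'.mpr ?_
  intro s g hg i hi
  have h := congrArg (coL (K (Nat.pair i 0))) hg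
  rw [map_sum, map_zero] at h
  simp only [map_smul] at h
  have h2 : ∀ j, coL (K (Nat.pair i 0)) (gf j) = if i = j then 32 ^ (Nat.pair i 0) else 0 := by
    intro j
    change co (K (Nat.pair i 0)) (gf j) = _
    unfold gf
    rw [co_toHol_K]
    unfold bc cls
    rw [Nat.unpair_pair]
  simp only [h2, smul_eq_mul, mul_ite, mul_zero] at h
  rw [Finset.sum_ite_eq] at h
  simp only [hi, if_true] at h
  have h3 : (32 : ℂ) ^ (Nat.pair i 0) ≠ 0 := pow_ne_zero _ (by norm_num)
  exact (mul_eq_zero.mp h).resolve_right h3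

lemma frequently_cls (i : ℕ) : ∃ᶠ l in atTop, cls l = i := by
  rw [frequently_atTop]
  intro N
  refine ⟨Nat.pair i N, Nat.right_le_pair _ _, ?_⟩
  unfold cls
  rw [Nat.unpair_pair]

lemma stronglyAnnular_of_mem (f : HD) (hf : Mem (fun n => co n f)) (hf0 : f ≠ 0) :
    StronglyAnnular (f : Disc → ℂ) := by
  obtain ⟨h1, h2⟩ := hf
  have hsum : ∀ z : Disc, HasSum (fun l => co (K l) f * (z : ℂ) ^ K l) ((f : Disc → ℂ) z) := by
    intro z
    have := hasSum_co f z
    rw [← K_strictMono.injective.hasSum_iff] at this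
    · exact this
    · intro x hx
      have := h1 x (fun l hl => hx ⟨l, hl.symm⟩)
      simp only at this
      rw [this, zero_mul]
  have hex : ∃ l0, co (K l0) f ≠ 0 := by
    by_contra hcon
    push Not at hcon
    apply hf0
    ext z
    have := hsum z
    simp only [hcon, zero_mul] at this
    exact (this.unique hasSum_zero)
  obtain ⟨l0, hl0⟩ := hex
  set c : ℝ := ‖co (K l0) f‖ / 32 ^ l0 with hc
  have hc0 : 0 < c := by
    have := norm_pos_iff.mpr hl0
    positivity
  have hfreq : ∃ᶠ l in atTop, c * 32 ^ l ≤ ‖co (K l) f‖ := by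
    refine (frequently_cls (cls l0)).mono ?_
    intro l hl
    have := h2 l l0 hl
    simp only at this
    have h3 := congrArg norm this
    rw [norm_mul, norm_mul, norm_pow, norm_pow] at h3
    have h4 : ‖(32 : ℂ)‖ = 32 := by simp
    rw [h4] at h3
    rw [hc, div_mul_eq_mul_div, div_le_iff₀ (by positivity)]
    exact h3.ge
  have hkey := annular_key (fun l => co (K l) f) (ext0 (f : Disc → ℂ)) (by
    intro z hz
    have h5 := hsum ⟨z, mem_ball_zero_iff.mpr hz⟩
    rw [← ext0_apply (f : Disc → ℂ)] at h5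
    exact h5) c hc0 hfreq
  unfold StronglyAnnular
  apply ENNReal.eq_top_of_forall_nnreal_le
  intro C
  apply le_limsup_of_frequently_le'
  rw [frequently_iff]
  intro U hU
  obtain ⟨r0, hr0, hU'⟩ := mem_nhdsLT_iff_exists_Ioo_subset.mp hU
  obtain ⟨R, hR1, hR2, hR3, hR4⟩ := hkey C r0 hr0
  refine ⟨R, hU' ⟨hR1, hR2⟩, ?_⟩
  refine le_iInf ?_
  rintro ⟨z, hz⟩
  have h6 := hR4 z hz
  rw [ext0_apply (f : Disc → ℂ)] at h6
  simp only
  rw [← ofReal_norm, ENNReal.le_ofReal_iff_toReal_le (by simp) (norm_nonneg _)]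
  simpa using h6

lemma not_finiteDimensional_of_li {X : Type*} [AddCommGroup X] [Module ℂ X] (M : Submodule ℂ X)
    (v : ℕ → M) (h : LinearIndependent ℂ v) : ¬ FiniteDimensional ℂ M := by
  intro hfin
  have := h.finite_of_isNoetherian
  exact not_finite ℕ

/-- Positive answer to Q1: the set of strongly annular functions is spaceable in H(D). -/
theorem main : Spaceable compactConvergence {f : HD | StronglyAnnular (f : Disc → ℂ)} := by
  refine ⟨M, M_closed, ?_, ?_⟩
  · have hli : LinearIndependent ℂ (fun i : ℕ => (⟨gf i, gf_mem i⟩ : M)) := by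
      have := gf_linearIndependent
      exact LinearIndependent.of_comp M.subtype this
    exact not_finiteDimensional_of_li _ _ hli
  · intro f hf
    by_cases h0 : f = 0
    · right
      exact h0
    · left
      exact stronglyAnnular_of_mem f hf h0

end Pool.Agent.Lib_helper53.SA
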