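import Mathlib
import Pool.Agent.Lib_helper53.SADefs
import Pool.Agent.Lib_helper53.SAProof
import Pool.Agent.Lib_helper53.SABergmanDefs

open Filter Topology Metric MeasureTheory Real
open scoped ENNReal

namespace Pool.Agent.Lib_helper53.SA

/-- Sub-mean value property of `‖F‖ ^ p` on circles. -/
lemma circle_submean {F : ℂ → ℂ} {w : ℂ} {R : ℝ} (hR : 0 < R)
    (hF : AnalyticOnNhd ℂ F (closedBall w R)) {p : ℝ} (hp : 0 < p) :
    ‖F w‖ ^ p ≤ circleAverage (fun z => ‖F z‖ ^ p) w R := by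
  by_cases h0 : F w = 0
  · rw [h0, norm_zero, Real.zero_rpow hp.ne']
    apply circleAverage_nonneg_of_nonneg
    intro z _
    positivity
  have hR' : |R| = R := abs_of_pos hR
  have hF' : AnalyticOnNhd ℂ F (closedBall w |R|) := by rwa [hR']
  have hmer : MeromorphicOn F (sphere w |R|) :=
    (hF'.mono sphere_subset_closedBall).meromorphicOn
  -- Jensen formula
  have h1 : Real.log ‖F w‖ ≤ circleAverage (Real.log ‖F ·‖) w R := by
    rw [AnalyticOnNhd.circleAverage_log_norm hR.ne' hF' h0]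
    have : 0 ≤ ∑ᶠ u, (MeromorphicOn.divisor F (closedBall w |R|) u : ℝ) * Real.log (R * ‖w - u‖⁻¹) := by
      apply finsum_nonneg
      intro u
      by_cases hu : u ∈ closedBall w |R|
      · apply mul_nonneg
        · have := MeromorphicOn.AnalyticOnNhd.divisor_nonneg hF'
          exact_mod_cast this u
        · by_cases hwu : w = u
          · simp [hwu]
          apply Real.log_nonneg
          have hd : 0 < ‖w - u‖ := norm_pos_iff.mpr (sub_ne_zero.mpr hwu)
          rw [← div_eq_mul_inv, le_div_iff₀ hd, one_mul]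
          rw [hR', mem_closedBall, dist_comm, dist_eq_norm] at hu
          exact hu
      · rw [Function.locallyFinsuppWithin.apply_eq_zero_of_notMem _ hu]
        simp
    linarith
  have hint1 : CircleIntegrable (fun z => p * Real.log ‖F z‖) w R := by
    have := hmer.circleIntegrable_log_norm
    exact this.const_mul p
  -- the functions agree off the zeros
  have hcod : (fun z => Real.exp (p * Real.log ‖F z‖)) =ᶠ[codiscreteWithin (sphere w |R|)]
      (fun z => ‖F z‖ ^ p) := by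
    have h := hF'.preimage_zero_mem_codiscreteWithin h0 (by simp)
      ((convex_closedBall w |R|).isConnected ⟨w, by simp⟩)
    have h' := codiscreteWithin_mono (sphere_subset_closedBall (x := w) (ε := |R|)) h
    filter_upwards [h'] with z hz
    have hz' : 0 < ‖F z‖ := norm_pos_iff.mpr hz
    rw [Real.rpow_def_of_pos hz', mul_comm]
  have hcont : ContinuousOn (fun z => ‖F z‖ ^ p) (sphere w |R|) := by
    apply ContinuousOn.rpow_const
    · exact (hF'.continuousOn.mono sphere_subset_closedBall).norm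
    · intro z _
      right
      exact hp.le
  have hint3 : CircleIntegrable (fun z => ‖F z‖ ^ p) w R := hcont.circleIntegrable'
  have hint2 : CircleIntegrable (fun z => Real.exp (p * Real.log ‖F z‖)) w R :=
    hint3.congr_codiscreteWithin hcod.symm
  have h2 : Real.exp (circleAverage (fun z => p * Real.log ‖F z‖) w R) ≤
      circleAverage (fun z => Real.exp (p * Real.log ‖F z‖)) w R := by
    rw [circleAverage_eq_intervalAverage, circleAverage_eq_intervalAverage]
    have h3 : Set.uIoc 0 (2 * π) = Set.Ioc 0 (2 * π) := Set.uIoc_of_le (by positivity)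
    rw [h3]
    refine ConvexOn.map_set_average_le (s := Set.univ) (g := Real.exp) convexOn_exp
      Real.continuous_exp.continuousOn isClosed_univ ?_ ?_ ?_ ?_ ?_
    · simp [Real.pi_pos]
    · exact measure_Ioc_lt_top.ne
    · simp
    · rw [← h3]
      exact intervalIntegrable_iff.mp hint1
    · rw [← h3]
      exact intervalIntegrable_iff.mp hint2
  have h4 : circleAverage (fun z => p * Real.log ‖F z‖) w R = p * circleAverage (Real.log ‖F ·‖) w R := by
    have := circleAverage_fun_smul (f := fun z => Real.log ‖F z‖) (c := w) (R := R) (a := p)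
    simpa [smul_eq_mul] using this
  rw [← circleAverage_congr_codiscreteWithin hcod hR.ne']
  refine le_trans ?_ h2
  rw [h4, Real.rpow_def_of_pos (norm_pos_iff.mpr h0), mul_comm]
  exact Real.exp_le_exp.mpr (mul_le_mul_of_nonneg_left h1 hp.le)

lemma enorm_rpow (z : ℂ) {p : ℝ} (hp : 0 < p) : ‖z‖ₑ ^ p = ENNReal.ofReal (‖z‖ ^ p) := by
  rw [← ofReal_norm, ENNReal.ofReal_rpow_of_nonneg (norm_nonneg _) hp.le]

/-- The circle version in terms of lower integrals. -/
lemma circle_submean_lintegral {F : ℂ → ℂ} {w : ℂ} {R : ℝ} (hR : 0 < R)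
    (hF : AnalyticOnNhd ℂ F (closedBall w R)) {p : ℝ} (hp : 0 < p) :
    ENNReal.ofReal (2 * π) * ‖F w‖ₑ ^ p ≤
      ∫⁻ θ in Set.Ioo (-π) π, ‖F (circleMap w R θ)‖ₑ ^ p := by
  have h := circle_submean hR hF hp
  rw [circleAverage_eq_integral_add (-π)] at h
  have h1 : ∫ θ in (0:ℝ)..2 * π, ‖F (circleMap w R (θ + -π))‖ ^ p =
      ∫ θ in (-π)..π, ‖F (circleMap w R θ)‖ ^ p := by
    rw [intervalIntegral.integral_comp_add_right (fun θ => ‖F (circleMap w R θ)‖ ^ p)]
    congr 1
    · ring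
    · ring
  rw [h1, smul_eq_mul, ← div_eq_inv_mul, le_div_iff₀ (by positivity)] at h
  have hcont : Continuous (fun θ : ℝ => ‖F (circleMap w R θ)‖ ^ p) := by
    have h2 : Continuous (fun θ : ℝ => F (circleMap w R θ)) := by
      have h3 : ContinuousOn F (sphere w R) := hF.continuousOn.mono sphere_subset_closedBall
      exact h3.comp_continuous (continuous_circleMap w R) (fun θ => circleMap_mem_sphere w hR.le θ)
    exact h2.norm.rpow_const (fun _ => Or.inr hp.le)
  have h4 : ∫⁻ θ in Set.Ioo (-π) π, ‖F (circleMap w R θ)‖ₑ ^ p =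
      ENNReal.ofReal (∫ θ in (-π)..π, ‖F (circleMap w R θ)‖ ^ p) := by
    rw [intervalIntegral.integral_of_le (by linarith [Real.pi_pos]),
      integral_Ioc_eq_integral_Ioo, ofReal_integral_eq_lintegral_ofReal]
    · apply lintegral_congr
      intro θ
      rw [enorm_rpow _ hp]
    · have := hcont.intervalIntegrable (μ := volume) (-π) π
      rw [intervalIntegrable_iff_integrableOn_Ioo_of_le (by linarith [Real.pi_pos])] at this
      exact this
    · exact Eventually.of_forall fun θ => by positivity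
  rw [h4, enorm_rpow _ hp, ← ENNReal.ofReal_mul (by positivity)]
  apply ENNReal.ofReal_le_ofReal
  linarith

/-- Sub-mean value property of `‖F‖ ^ p` over discs. -/
lemma area_submean {F : ℂ → ℂ} {w : ℂ} {R : ℝ} (hR : 0 < R)
    (hF : AnalyticOnNhd ℂ F (closedBall w R)) {p : ℝ} (hp : 0 < p) :
    ENNReal.ofReal (π * R ^ 2) * ‖F w‖ₑ ^ p ≤ ∫⁻ z in ball w R, ‖F z‖ₑ ^ p := by
  classical
  set G : ℂ → ℝ≥0∞ := (ball w R).indicator (fun z => ‖F z‖ₑ ^ p) with hG
  have hGm : Measurable G := by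
    have h1 : Measurable ((ball w R).indicator F) := by
      rw [← Set.piecewise_eq_indicator]
      exact ContinuousOn.measurable_piecewise (hF.continuousOn.mono ball_subset_closedBall)
        continuousOn_const measurableSet_ball
    have h2 : G = fun z => ‖(ball w R).indicator F z‖ₑ ^ p := by
      ext z
      by_cases hz : z ∈ ball w R
      · simp [hG, hz]
      · simp [hG, hz, hp]
    rw [h2]
    fun_prop
  have h3 : ∫⁻ z in ball w R, ‖F z‖ₑ ^ p = ∫⁻ z, G (w + z) := by
    rw [lintegral_add_left_eq_self G w, hG, lintegral_indicator measurableSet_ball]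
  rw [h3, ← Complex.lintegral_comp_polarCoord_symm]
  have hGm2 : Measurable (fun p : ℝ × ℝ => ENNReal.ofReal p.1 • G (w + Complex.polarCoord.symm p)) := by
    simp only [Complex.polarCoord_symm_apply, smul_eq_mul]
    fun_prop
  rw [polarCoord_target, Measure.volume_eq_prod, ← Measure.prod_restrict, lintegral_prod _ hGm2.aemeasurable]
  have h5 : ∀ r ∈ Set.Ioo 0 R, ENNReal.ofReal r * (ENNReal.ofReal (2 * π) * ‖F w‖ₑ ^ p) ≤
      ∫⁻ θ in Set.Ioo (-π) π, ENNReal.ofReal (r, θ).1 • G (w + Complex.polarCoord.symm (r, θ)) := by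
    intro r hr
    simp only [smul_eq_mul]
    rw [lintegral_const_mul' _ _ (by simp)]
    gcongr
    refine (circle_submean_lintegral hr.1 (hF.mono (closedBall_subset_closedBall hr.2.le)) hp).trans ?_
    apply lintegral_mono
    intro θ
    have h6 : w + Complex.polarCoord.symm (r, θ) = circleMap w r θ := by
      simp only [Complex.polarCoord_symm_apply, circleMap, Complex.exp_mul_I]
      push_cast
      ring
    simp only [h6]
    simp only [hG]
    rw [Set.indicator_of_mem]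
    rw [mem_ball, dist_eq_norm, circleMap_sub_center, norm_circleMap_zero, abs_of_pos hr.1]
    exact hr.2
  calc ENNReal.ofReal (π * R ^ 2) * ‖F w‖ₑ ^ p
      = ∫⁻ r in Set.Ioo 0 R, ENNReal.ofReal r * (ENNReal.ofReal (2 * π) * ‖F w‖ₑ ^ p) := by
        rw [lintegral_mul_const _ (by fun_prop)]
        have h7 : ∫⁻ r in Set.Ioo 0 R, ENNReal.ofReal r = ENNReal.ofReal (R ^ 2 / 2) := by
          rw [← ofReal_integral_eq_lintegral_ofReal]
          · rw [← integral_Ioc_eq_integral_Ioo, ← intervalIntegral.integral_of_le hR.le, integral_id]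
            simp
          · have : IntervalIntegrable (fun r : ℝ => r) volume 0 R := continuous_id.intervalIntegrable _ _
            rw [intervalIntegrable_iff_integrableOn_Ioo_of_le hR.le] at this
            exact this
          · refine (ae_restrict_mem measurableSet_Ioo).mono ?_
            intro r hr
            exact hr.1.le
        rw [h7, ← mul_assoc, ← ENNReal.ofReal_mul (by positivity)]
        congr 2
        ring
    _ ≤ ∫⁻ r in Set.Ioo 0 R, ∫⁻ θ in Set.Ioo (-π) π, ENNReal.ofReal (r, θ).1 • G (w + Complex.polarCoord.symm (r, θ)) := by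
        apply setLIntegral_mono' measurableSet_Ioo h5
    _ ≤ ∫⁻ r in Set.Ioi 0, ∫⁻ θ in Set.Ioo (-π) π, ENNReal.ofReal (r, θ).1 • G (w + Complex.polarCoord.symm (r, θ)) := by
        apply lintegral_mono_set
        exact Set.Ioo_subset_Ioi_self


lemma bergmanIntegral_eq (p α : ℝ) (f : Disc → ℂ) : bergmanIntegral p α f =
    ∫⁻ z in ball (0 : ℂ) 1, ‖ext0 f z‖ₑ ^ p * ENNReal.ofReal ((1 - ‖z‖) ^ α) := by
  unfold bergmanIntegral area
  rw [← lintegral_subtype_comap measurableSet_ball]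
  apply lintegral_congr
  intro z
  rw [ext0_apply]

/-- Point evaluations on the circle of radius `1 / 2` are controlled by the Bergman integral. -/
lemma point_bound {p : ℝ} (α : ℝ) (hp : 0 < p) : ∃ C : ℝ≥0∞, C ≠ 0 ∧ C ≠ ⊤ ∧
    ∀ f : HD, ∀ z : Disc, ‖(z : ℂ)‖ = 1/2 →
      ‖(f : Disc → ℂ) z‖ₑ ^ p ≤ C * bergmanIntegral p α (f : Disc → ℂ) := by
  set m : ℝ := min ((1/4 : ℝ) ^ α) 1 with hm
  have hm0 : 0 < m := lt_min (by positivity) one_pos
  set A : ℝ≥0∞ := ENNReal.ofReal (π * (1/4) ^ 2) * ENNReal.ofReal m with hA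
  have hA0 : A ≠ 0 := by
    rw [hA]
    have h1 : 0 < π * (1/4) ^ 2 := by positivity
    simp only [ne_eq, mul_eq_zero, ENNReal.ofReal_eq_zero, not_or, not_le]
    exact ⟨h1, hm0⟩
  have hA1 : A ≠ ⊤ := ENNReal.mul_ne_top ENNReal.ofReal_ne_top ENNReal.ofReal_ne_top
  refine ⟨A⁻¹, ENNReal.inv_ne_zero.mpr hA1, ENNReal.inv_ne_top.mpr hA0, ?_⟩
  intro f z hz
  have hsub : closedBall (z : ℂ) (1/4) ⊆ ball (0 : ℂ) 1 := by
    intro w hw
    rw [mem_closedBall, dist_eq_norm] at hw
    rw [mem_ball_zero_iff]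
    calc ‖w‖ = ‖(w - z) + z‖ := by ring_nf
      _ ≤ ‖w - z‖ + ‖(z : ℂ)‖ := norm_add_le _ _
      _ < 1 := by rw [hz]; linarith
  have han : AnalyticOnNhd ℂ (ext0 (f : Disc → ℂ)) (closedBall (z : ℂ) (1/4)) :=
    ((ext0_diff f).analyticOnNhd isOpen_ball).mono hsub
  have h1 := area_submean (by norm_num) han hp
  rw [ext0_apply] at h1
  have h2 : ENNReal.ofReal m * ∫⁻ w in ball (z : ℂ) (1/4), ‖ext0 (f : Disc → ℂ) w‖ₑ ^ p ≤
      bergmanIntegral p α (f : Disc → ℂ) := by
    rw [bergmanIntegral_eq, ← lintegral_const_mul' _ _ ENNReal.ofReal_ne_top]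
    calc ∫⁻ w in ball (z : ℂ) (1/4), ENNReal.ofReal m * ‖ext0 (f : Disc → ℂ) w‖ₑ ^ p
        ≤ ∫⁻ w in ball (z : ℂ) (1/4), ‖ext0 (f : Disc → ℂ) w‖ₑ ^ p * ENNReal.ofReal ((1 - ‖w‖) ^ α) := by
          apply setLIntegral_mono' measurableSet_ball
          intro w hw
          rw [mul_comm]
          gcongr
          rw [mem_ball, dist_eq_norm] at hw
          have h3 : ‖w‖ ≤ 3/4 := by
            calc ‖w‖ = ‖(w - z) + z‖ := by ring_nf
              _ ≤ ‖w - z‖ + ‖(z : ℂ)‖ := norm_add_le _ _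
              _ ≤ 3/4 := by rw [hz]; linarith
          rcases le_total 0 α with ha | ha
          · exact (min_le_left _ _).trans (Real.rpow_le_rpow (by norm_num) (by linarith) ha)
          · refine (min_le_right _ _).trans ?_
            apply Real.one_le_rpow_of_pos_of_le_one_of_nonpos _ _ ha
            · linarith
            · linarith [norm_nonneg w]
      _ ≤ _ := lintegral_mono_set (ball_subset_closedBall.trans hsub)
  rw [← ENNReal.div_eq_inv_mul, ENNReal.le_div_iff_mul_le (Or.inl hA0) (Or.inl hA1), mul_comm]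
  calc A * ‖(f : Disc → ℂ) z‖ₑ ^ p
      = ENNReal.ofReal m * (ENNReal.ofReal (π * (1/4) ^ 2) * ‖(f : Disc → ℂ) z‖ₑ ^ p) := by
        rw [hA]; ring
    _ ≤ ENNReal.ofReal m * ∫⁻ w in ball (z : ℂ) (1/4), ‖ext0 (f : Disc → ℂ) w‖ₑ ^ p := by
        gcongr
    _ ≤ _ := h2

/-- Small Bergman norm implies small Taylor coefficients. -/
lemma co_small {p : ℝ} (α : ℝ) (hp : 0 < p) (n : ℕ) {δ : ℝ} (hδ : 0 < δ) : ∃ ε : ℝ≥0∞, 0 < ε ∧
    ∀ f : HD, bergmanNorm p α (f : Disc → ℂ) < ε → ‖co n f‖ < δ := by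
  obtain ⟨C, hC0, hC1, hC⟩ := point_bound α hp
  have he : 0 < min 1 (1 / p) := lt_min one_pos (by positivity)
  have hpi : ENNReal.ofReal π ≠ 0 := by simp [Real.pi_pos]
  set η : ℝ := δ / 2 / 2 ^ n with hη
  have hη0 : 0 < η := by positivity
  set I0 : ℝ≥0∞ := ENNReal.ofReal η ^ p / C with hI0
  have hI00 : I0 ≠ 0 := by
    rw [hI0]
    refine ENNReal.div_ne_zero.mpr ⟨?_, hC1⟩
    rw [ENNReal.ofReal_rpow_of_pos hη0]
    simp only [ne_eq, ENNReal.ofReal_eq_zero, not_le]
    positivity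
  refine ⟨(I0 / ENNReal.ofReal π) ^ min 1 (1 / p), ?_, ?_⟩
  · refine ENNReal.rpow_pos_of_nonneg ?_ he.le
    exact ENNReal.div_pos hI00 ENNReal.ofReal_ne_top
  · intro f hf
    unfold bergmanNorm at hf
    rw [ENNReal.rpow_lt_rpow_iff he] at hf
    have h1 : bergmanIntegral p α (f : Disc → ℂ) < I0 := by
      by_contra hcon
      rw [not_lt] at hcon
      exact absurd hf (not_lt.mpr (by gcongr))
    have h2 : ∀ z : Disc, ‖(z : ℂ)‖ = 1/2 → ‖(f : Disc → ℂ) z‖ ≤ η := by
      intro z hz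
      have h3 := hC f z hz
      have h4 : ‖(f : Disc → ℂ) z‖ₑ ^ p ≤ ENNReal.ofReal η ^ p := by
        refine h3.trans ?_
        calc C * bergmanIntegral p α (f : Disc → ℂ) ≤ C * I0 := by gcongr
          _ = ENNReal.ofReal η ^ p := by
            rw [hI0, ENNReal.mul_div_cancel hC0 hC1]
      rw [ENNReal.rpow_le_rpow_iff hp, ← ofReal_norm] at h4
      exact (ENNReal.ofReal_le_ofReal_iff hη0.le).mp h4
    calc ‖co n f‖ ≤ η * 2 ^ n := co_bound n f η h2
      _ = δ / 2 := by rw [hη]; field_simp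
      _ < δ := by linarith

lemma continuous_co_bergman {p : ℝ} (α : ℝ) (hp : 0 < p) (n : ℕ) :
    Continuous[bergmanTopology p α hp, inferInstance]
      (fun f : Bergman p α hp => co n ⟨(f : Disc → ℂ), f.2.1⟩) := by
  rw [@continuous_def _ _ (bergmanTopology p α hp)]
  intro U hU
  set S : Set (Bergman p α hp) := (fun f : Bergman p α hp => co n ⟨(f : Disc → ℂ), f.2.1⟩) ⁻¹' U
  change ∀ f ∈ S, ∃ ε > 0, ∀ g : Bergman p α hp,
    bergmanNorm p α (fun z => (g : Disc → ℂ) z - (f : Disc → ℂ) z) < ε → g ∈ S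
  intro f hf
  obtain ⟨δ, hδ, hball⟩ := Metric.isOpen_iff.mp hU _ hf
  obtain ⟨ε, hε, h⟩ := co_small α hp n hδ
  refine ⟨ε, hε, fun g hg => ?_⟩
  apply hball
  rw [mem_ball, dist_eq_norm, ← co_sub]
  apply h
  exact hg

/-- `x ^ δ ≤ n! e ^ x` for `x ≥ 0` when `0 ≤ δ ≤ n`. -/
lemma rpow_le_factorial_exp {x δ : ℝ} (hx : 0 ≤ x) (hδ : 0 < δ) (n : ℕ) (hn : δ ≤ n) :
    x ^ δ ≤ n.factorial * Real.exp x := by
  have hf : (1 : ℝ) ≤ n.factorial := by exact_mod_cast Nat.factorial_pos n
  rcases le_total x 1 with h | h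
  · have h1 : x ^ δ ≤ 1 := Real.rpow_le_one hx h hδ.le
    have h2 : (1 : ℝ) ≤ Real.exp x := Real.one_le_exp hx
    nlinarith
  · have h1 : x ^ δ ≤ x ^ (n : ℝ) := Real.rpow_le_rpow_of_exponent_le h hn
    rw [Real.rpow_natCast] at h1
    have h2 := Real.pow_div_factorial_le_exp x hx n
    rw [div_le_iff₀ (by positivity)] at h2
    linarith

/-- The terms `32 ^ l r ^ K l` are small compared with any negative power of `1 - r`. -/
lemma term_bound {δ : ℝ} (hδ : 0 < δ) : ∃ C : ℝ, 0 < C ∧ ∀ l : ℕ, ∀ r : ℝ, 0 ≤ r → r < 1 →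
    32 ^ l * r ^ K l ≤ C * (1 - r) ^ (-δ) * (1/2) ^ l := by
  obtain ⟨n, hn⟩ := exists_nat_ge δ
  have hf : (1 : ℝ) ≤ n.factorial := by exact_mod_cast Nat.factorial_pos n
  refine ⟨n.factorial * 16 ^ (9 / (16 * δ)), by positivity, ?_⟩
  intro l r hr0 hr1
  have hr1' : 0 < 1 - r := by linarith
  have hK : (0 : ℝ) < K l := by exact_mod_cast K_pos l
  set x : ℝ := K l * (1 - r) with hx
  have hx0 : 0 < x := by positivity
  have h1 : r ^ K l ≤ Real.exp (-x) := by
    have h2 : r ≤ Real.exp (-(1 - r)) := by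
      have := Real.add_one_le_exp (-(1 - r))
      linarith
    calc r ^ K l ≤ (Real.exp (-(1 - r))) ^ K l := pow_le_pow_left₀ hr0 h2 _
      _ = Real.exp (-x) := by rw [← Real.exp_nat_mul, hx]; congr 1; ring
  have h3 : x ^ δ * Real.exp (-x) ≤ n.factorial := by
    have := rpow_le_factorial_exp hx0.le hδ n hn
    rw [Real.exp_neg, ← div_eq_mul_inv, div_le_iff₀ (Real.exp_pos _)]
    exact this
  have h4 : (K l : ℝ) ^ (-δ) = 16 ^ (-(δ * l ^ 2)) := by
    unfold K
    push_cast
    rw [← Real.rpow_natCast, ← Real.rpow_mul (by norm_num)]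
    congr 1
    push_cast
    ring
  have h5 : (64 : ℝ) ^ l = 16 ^ (3/2 * (l : ℝ)) := by
    have h64 : (64 : ℝ) = 16 ^ (3/2 : ℝ) := by
      rw [show (16 : ℝ) = 4 ^ (2 : ℝ) by norm_num, ← Real.rpow_mul (by norm_num)]
      norm_num
    rw [h64, ← Real.rpow_natCast, ← Real.rpow_mul (by norm_num)]
  have h6 : (64 : ℝ) ^ l * (K l : ℝ) ^ (-δ) ≤ 16 ^ (9 / (16 * δ)) := by
    rw [h4, h5, ← Real.rpow_add (by norm_num)]
    apply Real.rpow_le_rpow_of_exponent_le (by norm_num)
    rw [le_div_iff₀ (by positivity)]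
    nlinarith [sq_nonneg (4 * δ * l - 3)]
  have h7 : (1 - r) ^ (-δ) = x ^ (-δ) * (K l : ℝ) ^ δ := by
    rw [hx, Real.mul_rpow hK.le hr1'.le, mul_comm ((K l : ℝ) ^ (-δ)), mul_assoc, ← Real.rpow_add hK]
    simp
  have hxx : x ^ δ * x ^ (-δ) = 1 := by rw [← Real.rpow_add hx0]; simp
  have hKK : (K l : ℝ) ^ (-δ) * (K l : ℝ) ^ δ = 1 := by rw [← Real.rpow_add hK]; simp
  have h64l : (32 : ℝ) ^ l = 64 ^ l * (1/2) ^ l := by rw [← mul_pow]; norm_num
  calc 32 ^ l * r ^ K l ≤ 32 ^ l * Real.exp (-x) := by gcongr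
    _ = (64 ^ l * (K l : ℝ) ^ (-δ)) * (x ^ δ * Real.exp (-x)) * (x ^ (-δ) * (K l : ℝ) ^ δ) * (1/2) ^ l := by
        rw [h64l]
        calc (64 : ℝ) ^ l * (1/2) ^ l * Real.exp (-x)
            = 64 ^ l * (1/2) ^ l * Real.exp (-x) * ((K l : ℝ) ^ (-δ) * (K l : ℝ) ^ δ) * (x ^ δ * x ^ (-δ)) := by
              rw [hxx, hKK]; ring
          _ = _ := by ring
    _ ≤ 16 ^ (9 / (16 * δ)) * n.factorial * (x ^ (-δ) * (K l : ℝ) ^ δ) * (1/2) ^ l := by
        have hx1 : 0 < x ^ (-δ) := Real.rpow_pos_of_pos hx0 _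
        have hK1 : 0 < (K l : ℝ) ^ δ := Real.rpow_pos_of_pos hK _
        have hx2 : 0 < x ^ δ := Real.rpow_pos_of_pos hx0 _
        have hK2 : 0 < (K l : ℝ) ^ (-δ) := Real.rpow_pos_of_pos hK _
        gcongr
    _ = _ := by rw [← h7]; ring

lemma G_le {δ : ℝ} (hδ : 0 < δ) : ∃ C : ℝ, 0 < C ∧ ∀ b : ℕ → ℂ, (∀ l, ‖b l‖ ≤ 32 ^ l) →
    ∀ z : ℂ, ‖z‖ < 1 → ‖G b z‖ ≤ C * (1 - ‖z‖) ^ (-δ) := by
  obtain ⟨C, hC, h⟩ := term_bound hδ
  refine ⟨C * 2, by positivity, ?_⟩
  intro b hb z hz
  unfold G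
  have hs : HasSum (fun l : ℕ => C * (1 - ‖z‖) ^ (-δ) * (1/2) ^ l) (C * (1 - ‖z‖) ^ (-δ) * 2) :=
    hasSum_geometric_two.mul_left _
  refine (tsum_of_norm_bounded hs ?_).trans ?_
  · intro l
    exact (G_bound hb z le_rfl l).trans (h l ‖z‖ (norm_nonneg z) hz)
  · apply le_of_eq; ring

/-- Radial powers are integrable on the disc. -/
lemma radial_integral {β : ℝ} (hβ : -1 < β) :
    ∫⁻ z in ball (0 : ℂ) 1, ENNReal.ofReal ((1 - ‖z‖) ^ β) < ⊤ := by
  have h1 : IntegrableOn (fun x : ℂ => (1 - ‖x‖) ^ β) (ball (0 : ℂ) 1) volume := by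
    have := integrableOn_fun_norm_addHaar (E := ℂ) (μ := volume) (f := fun y : ℝ => (1 - y) ^ β) (r := 1)
    rw [this]
    simp only [Complex.finrank_real_complex, Nat.add_one_sub_one, pow_one, smul_eq_mul]
    have h2 : IntegrableOn (fun y : ℝ => (1 - y) ^ β) (Set.Ioo 0 1) volume := by
      have h3 : IntervalIntegrable (fun x : ℝ => x ^ β) volume 0 1 :=
        intervalIntegral.intervalIntegrable_rpow' hβ
      have h4 := (h3.comp_sub_left 1)
      simp only [sub_zero, sub_self] at h4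
      have h5 := h4.symm
      rw [intervalIntegrable_iff_integrableOn_Ioo_of_le zero_le_one] at h5
      exact h5
    refine h2.bdd_mul (c := 1) ?_ ?_
    · exact (continuous_id.aestronglyMeasurable)
    · refine (ae_restrict_mem measurableSet_Ioo).mono ?_
      intro y hy
      change ‖y‖ ≤ 1
      rw [Real.norm_of_nonneg hy.1.le]
      exact hy.2.le
  have h6 := h1.lintegral_lt_top
  exact h6

lemma toHol_mem_bergman {p α : ℝ} (hp : 0 < p) (hα : -1 < α) (b : ℕ → ℂ)
    (hb : ∀ l, ‖b l‖ ≤ 32 ^ l) : (toHol b hb : Disc → ℂ) ∈ Bergman p α hp := by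
  refine ⟨(toHol b hb).2, ?_⟩
  rw [bergmanNorm_lt_top_iff hp, bergmanIntegral_eq]
  have hδ : 0 < (α + 1) / (2 * p) := by
    apply div_pos (by linarith) (by positivity)
  obtain ⟨C, hC, h⟩ := G_le hδ
  have hβ : -1 < α - (α + 1) / 2 := by linarith
  calc ∫⁻ z in ball (0 : ℂ) 1, ‖ext0 (toHol b hb : Disc → ℂ) z‖ₑ ^ p * ENNReal.ofReal ((1 - ‖z‖) ^ α)
      ≤ ∫⁻ z in ball (0 : ℂ) 1, ENNReal.ofReal (C ^ p) * ENNReal.ofReal ((1 - ‖z‖) ^ (α - (α + 1) / 2)) := by
        apply setLIntegral_mono' measurableSet_ball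
        intro z hz
        have hz1 : ‖z‖ < 1 := mem_ball_zero_iff.mp hz
        have hz2 : 0 < 1 - ‖z‖ := by linarith
        have e : ext0 (toHol b hb : Disc → ℂ) z = G b z := by
          have := ext0_apply (toHol b hb : Disc → ℂ) ⟨z, hz⟩
          exact this
        rw [e, enorm_rpow _ hp, ← ENNReal.ofReal_mul (by positivity), ← ENNReal.ofReal_mul (by positivity)]
        apply ENNReal.ofReal_le_ofReal
        have h1 : ‖G b z‖ ^ p ≤ C ^ p * (1 - ‖z‖) ^ (-((α + 1) / 2)) := by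
          calc ‖G b z‖ ^ p ≤ (C * (1 - ‖z‖) ^ (-((α + 1) / (2 * p)))) ^ p := by
                gcongr
                exact h b hb z hz1
            _ = C ^ p * (1 - ‖z‖) ^ (-((α + 1) / 2)) := by
                rw [Real.mul_rpow hC.le (by positivity), ← Real.rpow_mul hz2.le]
                congr 2
                field_simp
        calc ‖G b z‖ ^ p * (1 - ‖z‖) ^ α ≤ (C ^ p * (1 - ‖z‖) ^ (-((α + 1) / 2))) * (1 - ‖z‖) ^ α := by
              gcongr
          _ = C ^ p * (1 - ‖z‖) ^ (α - (α + 1) / 2) := by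
              rw [mul_assoc, ← Real.rpow_add hz2]
              congr 2
              ring
    _ = ENNReal.ofReal (C ^ p) * ∫⁻ z in ball (0 : ℂ) 1, ENNReal.ofReal ((1 - ‖z‖) ^ (α - (α + 1) / 2)) := by
        rw [lintegral_const_mul' _ _ ENNReal.ofReal_ne_top]
    _ < ⊤ := ENNReal.mul_lt_top ENNReal.ofReal_lt_top (radial_integral hβ)

lemma bergman_le (p α : ℝ) (hp : 0 < p) : Bergman p α hp ≤ HD := fun _ hf => hf.1

/-- Positive answer to Q2 for all parameters. -/
theorem main_bergman (p α : ℝ) (hp : 0 < p) (hα : -1 < α) :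
    Spaceable (bergmanTopology p α hp) {f : Bergman p α hp | StronglyAnnular (f : Disc → ℂ)} := by
  refine ⟨M.comap (Submodule.inclusion (bergman_le p α hp)), ?_, ?_, ?_⟩
  · exact isClosed_mem (bergmanTopology p α hp) (fun n (f : Bergman p α hp) => co n ⟨(f : Disc → ℂ), f.2.1⟩)
      (continuous_co_bergman α hp)
  · set g : ℕ → Bergman p α hp := fun i =>
      ⟨(gf i : Disc → ℂ), toHol_mem_bergman hp hα (bc i) (bc_bound i)⟩ with hg
    have hli : LinearIndependent ℂ (fun i : ℕ =>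
        (⟨g i, gf_mem i⟩ : M.comap (Submodule.inclusion (bergman_le p α hp)))) := by
      refine LinearIndependent.of_comp ((Submodule.inclusion (bergman_le p α hp)).comp
        (M.comap (Submodule.inclusion (bergman_le p α hp))).subtype) ?_
      exact gf_linearIndependent
    exact not_finiteDimensional_of_li _ _ hli
  · intro f hf
    by_cases h0 : f = 0
    · right
      exact h0
    · left
      refine stronglyAnnular_of_mem ⟨(f : Disc → ℂ), f.2.1⟩ hf ?_
      intro hcon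
      apply h0
      have := congrArg (fun h : HD => (h : Disc → ℂ)) hcon
      exact Subtype.ext this

end Pool.Agent.Lib_helper53.SA
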