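import Mathlib

open MeasureTheory Metric

namespace Pool.Agent.Lib_helper53.Transport

/-- Euclidean space of dimension three. -/
abbrev E3 : Type := EuclideanSpace ℝ (Fin 3)

/-- The unit sphere of directions. -/
abbrev S2 : Type := sphere (0 : E3) 1

/-- Surface measure on the unit sphere (Mathlib's `toSphere` of Lebesgue measure; its total mass is
`4 π`). -/
noncomputable def surf : Measure S2 := (volume : Measure E3).toSphere

/-- First exit distance from `r` to the boundary of `V` in the direction `ω`. -/
noncomputable def exitDist (V : Set E3) (r : E3) (ω : S2) : ℝ :=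
  sInf {t : ℝ | 0 < t ∧ r + t • (ω : E3) ∉ V}

/-- `M` is a bounded measurable solution of the transport integral equation with parameter `lam` on
the phase space `V × S2`. (The values of `M` at points outside `V` play no role.) -/
structure IsSolution (V : Set E3) (lam : ℝ) (M : E3 × S2 → ℝ) : Prop where
  measurable : Measurable M
  bounded : ∃ C : ℝ, ∀ P, |M P| ≤ C
  equation : ∀ r ∈ V, ∀ ω : S2, M (r, ω) = 1 - Real.exp (-exitDist V r ω) +
    lam / (4 * Real.pi) * ∫ x in (0 : ℝ)..exitDist V r ω,
      Real.exp (-(lam * x)) * ∫ ω' : S2, M (r + x • (ω : E3), ω') ∂surf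

end Pool.Agent.Lib_helper53.Transport
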