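import Mathlib
import Pool.Agent.Lib_helper53.TransportDefs

open MeasureTheory Metric Set
open scoped ENNReal Pointwise

namespace Pool.Agent.Lib_helper53.Transport

instance : IsFiniteMeasure surf := by unfold surf; infer_instance

lemma surf_univ : surf univ = ENNReal.ofReal (4 * Real.pi) := by
  unfold surf
  rw [Measure.toSphere_apply_univ, EuclideanSpace.volume_ball_fin_three]
  simp only [finrank_euclideanSpace, Fintype.card_fin, ENNReal.ofReal_one, one_pow, one_mul]
  rw [show ((3 : ℕ) : ℝ≥0∞) = ENNReal.ofReal 3 by simp, ← ENNReal.ofReal_mul (by norm_num)]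
  congr 1
  ring

/-- The larger of the last two coordinates. -/
noncomputable def sv (ω : S2) : ℝ := max |(ω : E3) 1| |(ω : E3) 2|

lemma sv_nonneg (ω : S2) : 0 ≤ sv ω := le_max_of_le_left (abs_nonneg _)

lemma continuous_sv : Continuous sv := by
  unfold sv
  fun_prop

lemma abs_coord_le (y : E3) (i : Fin 3) : |y i| ≤ ‖y‖ := by
  have := PiLp.norm_apply_le y i
  simpa using this

lemma norm_S2 (ω : S2) : ‖(ω : E3)‖ = 1 := by
  have := ω.2
  simpa using this

lemma volume_box {a b c : ℝ} (ha : 0 ≤ a) (hb : 0 ≤ b) (hc : 0 ≤ c) :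
    volume {y : E3 | |y 0| < a ∧ |y 1| < b ∧ |y 2| < c} = ENNReal.ofReal (8 * a * b * c) := by
  have h1 : {y : E3 | |y 0| < a ∧ |y 1| < b ∧ |y 2| < c} =
      (WithLp.ofLp : E3 → (Fin 3 → ℝ)) ⁻¹' (Set.pi univ fun i => Ioo ((![-a, -b, -c] : Fin 3 → ℝ) i) ((![a, b, c] : Fin 3 → ℝ) i)) := by
    ext y
    simp only [mem_preimage, Set.mem_pi, mem_univ, true_implies, Fin.forall_fin_succ, mem_Ioo,
      mem_ofPred_eq, abs_lt]
    simp
  rw [h1, (PiLp.volume_preserving_ofLp (Fin 3)).measure_preimage]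
  · rw [Real.volume_pi_Ioo, Fin.prod_univ_three]
    simp only [Matrix.cons_val_zero, Matrix.cons_val_one, Matrix.cons_val]
    rw [← ENNReal.ofReal_mul (by linarith), ← ENNReal.ofReal_mul (by nlinarith)]
    congr 1
    ring
  · exact (MeasurableSet.univ_pi fun i => measurableSet_Ioo).nullMeasurableSet

lemma surf_small {τ : ℝ} (hτ : 0 ≤ τ) : surf {ω | sv ω < τ} ≤ ENNReal.ofReal (24 * τ ^ 2) := by
  unfold surf
  have hmeas : MeasurableSet {ω : S2 | sv ω < τ} := (isOpen_lt continuous_sv continuous_const).measurableSet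
  rw [Measure.toSphere_apply' _ hmeas]
  have hsub : Ioo (0 : ℝ) 1 • ((Subtype.val : S2 → E3) '' {ω : S2 | sv ω < τ}) ⊆ {y : E3 | |y 0| < 1 ∧ |y 1| < τ ∧ |y 2| < τ} := by
    rintro y ⟨t, ht, z, ⟨ω, hω, rfl⟩, rfl⟩
    have h0 := abs_coord_le (ω : E3) 0
    rw [norm_S2] at h0
    have h1 : |(ω : E3) 1| < τ := lt_of_le_of_lt (le_max_left _ _) hω
    have h2 : |(ω : E3) 2| < τ := lt_of_le_of_lt (le_max_right _ _) hω
    have ht0 : 0 < t := ht.1
    have ht1 : t < 1 := ht.2
    simp only [mem_ofPred_eq, PiLp.smul_apply, smul_eq_mul, abs_mul, abs_of_pos ht0]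
    refine ⟨?_, ?_, ?_⟩
    · nlinarith [abs_nonneg ((ω : E3) 0)]
    · nlinarith [abs_nonneg ((ω : E3) 1)]
    · nlinarith [abs_nonneg ((ω : E3) 2)]
  calc (Module.finrank ℝ E3 : ℝ≥0∞) * volume (Ioo (0 : ℝ) 1 • ((Subtype.val : S2 → E3) '' {ω : S2 | sv ω < τ}))
      ≤ (Module.finrank ℝ E3 : ℝ≥0∞) * volume {y : E3 | |y 0| < 1 ∧ |y 1| < τ ∧ |y 2| < τ} := by
        gcongr
    _ = ENNReal.ofReal (24 * τ ^ 2) := by
        rw [volume_box (by norm_num) hτ hτ]
        simp only [finrank_euclideanSpace, Fintype.card_fin]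
        rw [show ((3 : ℕ) : ℝ≥0∞) = ENNReal.ofReal 3 by simp, ← ENNReal.ofReal_mul (by norm_num)]
        congr 1
        ring

/-- The integral of `1 / sv` over the sphere. -/
lemma lintegral_inv_sv : ∫⁻ ω, ENNReal.ofReal (sv ω)⁻¹ ∂surf ≤ ENNReal.ofReal (4 * Real.pi + 24) := by
  have hm : Measurable fun ω => (sv ω)⁻¹ := continuous_sv.measurable.inv
  rw [lintegral_eq_lintegral_meas_lt surf (Filter.Eventually.of_forall fun ω => inv_nonneg.mpr (sv_nonneg ω))
    hm.aemeasurable]
  have hsplit : Ioi (0 : ℝ) = Ioc 0 1 ∪ Ioi 1 := (Ioc_union_Ioi_eq_Ioi zero_le_one).symm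
  rw [hsplit]
  refine (lintegral_union_le _ _ _).trans ?_
  have h1 : ∫⁻ t in Ioc (0 : ℝ) 1, surf {a | t < (sv a)⁻¹} ≤ ENNReal.ofReal (4 * Real.pi) := by
    calc ∫⁻ t in Ioc (0 : ℝ) 1, surf {a | t < (sv a)⁻¹} ≤ ∫⁻ t in Ioc (0 : ℝ) 1, surf univ := by
          apply lintegral_mono
          intro t
          exact measure_mono (subset_univ _)
      _ = _ := by
          rw [setLIntegral_const, Real.volume_Ioc, surf_univ]
          simp
  have h2 : ∫⁻ t in Ioi (1 : ℝ), surf {a | t < (sv a)⁻¹} ≤ ENNReal.ofReal 24 := by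
    calc ∫⁻ t in Ioi (1 : ℝ), surf {a | t < (sv a)⁻¹} ≤ ∫⁻ t in Ioi (1 : ℝ), ENNReal.ofReal (24 * t ^ (-2 : ℝ)) := by
          apply setLIntegral_mono' measurableSet_Ioi
          intro t ht
          have ht0 : (0 : ℝ) < t := lt_trans one_pos ht
          refine (measure_mono ?_).trans ((surf_small (τ := t⁻¹) (by positivity)).trans ?_)
          · intro a ha
            have ha' : t < (sv a)⁻¹ := ha
            have hpos : 0 < sv a := by
              by_contra hcon
              have : sv a = 0 := le_antisymm (not_lt.mp hcon) (sv_nonneg a)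
              rw [this, inv_zero] at ha'
              linarith
            exact (lt_inv_comm₀ ht0 hpos).mp ha'
          · apply ENNReal.ofReal_le_ofReal
            rw [Real.rpow_neg ht0.le, inv_pow]
            norm_num
      _ = ENNReal.ofReal (∫ t in Ioi (1 : ℝ), 24 * t ^ (-2 : ℝ)) := by
          rw [ofReal_integral_eq_lintegral_ofReal]
          · exact (integrableOn_Ioi_rpow_of_lt (by norm_num) one_pos).const_mul 24
          · refine (ae_restrict_mem measurableSet_Ioi).mono ?_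
            intro t ht
            have ht0 : (0 : ℝ) < t := lt_trans one_pos ht
            simp only [Pi.zero_apply]
            positivity
      _ ≤ ENNReal.ofReal 24 := by
          apply ENNReal.ofReal_le_ofReal
          rw [integral_const_mul, integral_Ioi_rpow_of_lt (by norm_num) one_pos]
          norm_num
  calc _ ≤ ENNReal.ofReal (4 * Real.pi) + ENNReal.ofReal 24 := add_le_add h1 h2
    _ = _ := by rw [← ENNReal.ofReal_add (by positivity) (by norm_num)]

end Pool.Agent.Lib_helper53.Transport
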