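import Mathlib
import Pool.Agent.Lib_helper53.TransportDefs
import Pool.Agent.Lib_helper53.TransportSphere

open MeasureTheory Metric Set Filter
open scoped ENNReal Topology

namespace Pool.Agent.Lib_helper53.Transport

/-- bounded measurable -/
structure BM {X : Type*} [MeasurableSpace X] (f : X → ℝ) : Prop where
  meas : Measurable f
  bdd : ∃ C : ℝ, 0 ≤ C ∧ ∀ x, |f x| ≤ C

namespace BM
variable {X : Type*} [MeasurableSpace X] {f g : X → ℝ}

lemma add (hf : BM f) (hg : BM g) : BM (fun x => f x + g x) := by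
  obtain ⟨C, hC, hf'⟩ := hf.bdd
  obtain ⟨D, hD, hg'⟩ := hg.bdd
  exact ⟨hf.meas.add hg.meas, C + D, by positivity, fun x => (abs_add_le _ _).trans (add_le_add (hf' x) (hg' x))⟩

lemma sub (hf : BM f) (hg : BM g) : BM (fun x => f x - g x) := by
  obtain ⟨C, hC, hf'⟩ := hf.bdd
  obtain ⟨D, hD, hg'⟩ := hg.bdd
  exact ⟨hf.meas.sub hg.meas, C + D, by positivity, fun x => (abs_sub _ _).trans (add_le_add (hf' x) (hg' x))⟩

lemma const (c : ℝ) : BM (fun _ : X => c) := ⟨measurable_const, |c|, abs_nonneg _, fun _ => le_rfl⟩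

lemma const_mul (c : ℝ) (hf : BM f) : BM (fun x => c * f x) := by
  obtain ⟨C, hC, hf'⟩ := hf.bdd
  refine ⟨hf.meas.const_mul c, |c| * C, by positivity, fun x => ?_⟩
  rw [abs_mul]
  exact mul_le_mul_of_nonneg_left (hf' x) (abs_nonneg _)

lemma integrable {μ : Measure X} [IsFiniteMeasure μ] (hf : BM f) : Integrable f μ := by
  obtain ⟨C, hC, hf'⟩ := hf.bdd
  exact Integrable.of_bound hf.meas.aestronglyMeasurable C (Eventually.of_forall hf')

end BM

/-- sup bound from a self-improving inequality -/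
lemma sup_bound {X : Type*} (f : X → ℝ) {B κ : ℝ} (hκ : κ < 1) (hb : ∃ C : ℝ, ∀ x, |f x| ≤ C)
    (h : ∀ s : ℝ, 0 ≤ s → (∀ x, |f x| ≤ s) → ∀ x, |f x| ≤ B + κ * s) (x : X) : |f x| ≤ B / (1 - κ) := by
  have : Nonempty X := ⟨x⟩
  obtain ⟨C, hC⟩ := hb
  have hbdd : BddAbove (range fun x => |f x|) := ⟨C, by rintro _ ⟨y, rfl⟩; exact hC y⟩
  set s := ⨆ x, |f x| with hs
  have h1 : ∀ y, |f y| ≤ s := fun y => le_ciSup hbdd y
  have h2 : 0 ≤ s := (abs_nonneg _).trans (h1 x)
  have h3 : s ≤ B + κ * s := ciSup_le (h s h2 h1)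
  refine (h1 x).trans ?_
  rw [le_div_iff₀ (by linarith)]
  linarith

/-- fixed point of a contraction on bounded measurable functions -/
lemma exists_fixed {X : Type*} [MeasurableSpace X] (S : (X → ℝ) → (X → ℝ)) {κ : ℝ} (hκ0 : 0 ≤ κ) (hκ : κ < 1)
    (hS : ∀ f, BM f → BM (S f))
    (hc : ∀ f g, BM f → BM g → ∀ c : ℝ, 0 ≤ c → (∀ x, |f x - g x| ≤ c) → ∀ x, |S f x - S g x| ≤ κ * c) :
    ∃ m : X → ℝ, BM m ∧ ∀ x, m x = S m x := by
  have h0 : BM (fun _ : X => (0 : ℝ)) := BM.const 0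
  let it : ℕ → X → ℝ := fun n => S^[n] (fun _ => 0)
  have hit : ∀ n, it (n + 1) = S (it n) := fun n => Function.iterate_succ_apply' S n _
  have hbm : ∀ n, BM (it n) := by
    intro n
    induction n with
    | zero => exact h0
    | succ n ih => rw [hit]; exact hS _ ih
  obtain ⟨B, hB0, hB⟩ := (hbm 1).bdd
  have hdist : ∀ n, ∀ x, |it (n + 1) x - it n x| ≤ B * κ ^ n := by
    intro n
    induction n with
    | zero =>
      intro x
      have : it 0 x = 0 := rfl
      simpa [this] using hB x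
    | succ n ih =>
      intro x
      rw [hit (n + 1)]
      conv_lhs => rw [hit n]
      have := hc (it (n + 1)) (it n) (hbm _) (hbm _) (B * κ ^ n) (by positivity) ih x
      rw [hit n] at this
      calc _ ≤ κ * (B * κ ^ n) := this
        _ = _ := by ring
  have hdist' : ∀ x n, dist (it n x) (it (n + 1) x) ≤ B * κ ^ n := by
    intro x n
    rw [dist_comm, Real.dist_eq]
    exact hdist n x
  have hcau : ∀ x, CauchySeq fun n => it n x := fun x => cauchySeq_of_le_geometric κ B hκ (hdist' x)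
  choose m hm using fun x => cauchySeq_tendsto_of_complete (hcau x)
  have hlim : ∀ n x, |it n x - m x| ≤ B * κ ^ n / (1 - κ) := by
    intro n x
    have := dist_le_of_le_geometric_of_tendsto κ B hκ (hdist' x) (hm x) n
    rwa [Real.dist_eq] at this
  have hmm : BM m := by
    refine ⟨measurable_of_tendsto_metrizable (fun n => (hbm n).meas) (tendsto_pi_nhds.mpr hm), B / (1 - κ), ?_, ?_⟩
    · apply div_nonneg hB0; linarith
    · intro x
      have := hlim 0 x
      have h00 : it 0 x = 0 := rfl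
      simpa [h00] using this
  refine ⟨m, hmm, fun x => ?_⟩
  have hb : ∀ n, |m x - S m x| ≤ 2 * (B * κ ^ n / (1 - κ)) := by
    intro n
    have h1 := hlim (n + 1) x
    have hnn : 0 ≤ B * κ ^ n / (1 - κ) := by
      apply div_nonneg (by positivity); linarith
    have h2 := hc (it n) m (hbm n) hmm _ hnn (hlim n) x
    rw [hit n] at h1
    have h3 : B * κ ^ (n + 1) / (1 - κ) = κ * (B * κ ^ n / (1 - κ)) := by ring
    rw [h3] at h1
    have h4 : κ * (B * κ ^ n / (1 - κ)) ≤ B * κ ^ n / (1 - κ) := by nlinarith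
    rw [abs_le] at *
    constructor <;> linarith [h1.1, h1.2, h2.1, h2.2]
  have htend : Tendsto (fun n => 2 * (B * κ ^ n / (1 - κ))) atTop (𝓝 0) := by
    have := (((tendsto_pow_atTop_nhds_zero_of_lt_one hκ0 hκ).const_mul B).div_const (1 - κ)).const_mul 2
    simpa using this
  have hle : |m x - S m x| ≤ 0 := ge_of_tendsto' htend hb
  have := abs_nonpos_iff.mp hle
  linarith

/-- angular average -/
noncomputable def avg (F : E3 × S2 → ℝ) (r : E3) : ℝ := (4 * Real.pi)⁻¹ * ∫ ω : S2, F (r, ω) ∂surf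

/-- line operator with kernel `k` -/
noncomputable def K (V : Set E3) (R : ℝ) (k : ℝ → ℝ) (φ : E3 → ℝ) (p : E3 × S2) : ℝ :=
  ∫ x in (0 : ℝ)..R, k x * V.indicator φ (p.1 + x • (p.2 : E3))

end Pool.Agent.Lib_helper53.Transport
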