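import Mathlib
import Pool.Agent.Lib_helper53.TransportOp

open MeasureTheory Metric Set Filter
open scoped ENNReal Topology

namespace Pool.Agent.Lib_helper53.Transport

lemma four_pi_pos : 0 < 4 * Real.pi := by positivity

lemma surf_real_univ : surf.real univ = 4 * Real.pi := by
  rw [measureReal_def, surf_univ, ENNReal.toReal_ofReal (by positivity)]

lemma BM.slice {F : E3 × S2 → ℝ} (hF : BM F) (r : E3) : BM (fun ω => F (r, ω)) := by
  obtain ⟨C, hC, hb⟩ := hF.bdd
  exact ⟨hF.meas.comp measurable_prodMk_left, C, hC, fun ω => hb _⟩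

lemma avg_le {F : E3 × S2 → ℝ} {r : E3} {s : ℝ} (h : ∀ ω, |F (r, ω)| ≤ s) : |avg F r| ≤ s := by
  unfold avg
  rw [abs_mul, abs_of_pos (inv_pos.mpr four_pi_pos), inv_mul_le_iff₀ four_pi_pos]
  have := norm_integral_le_of_norm_le_const (μ := surf) (f := fun ω => F (r, ω)) (C := s)
    (Eventually.of_forall h)
  rw [surf_real_univ, Real.norm_eq_abs] at this
  linarith

lemma avg_bm {F : E3 × S2 → ℝ} (hF : BM F) : BM (avg F) := by
  obtain ⟨C, hC, hb⟩ := hF.bdd
  refine ⟨?_, C, hC, fun r => avg_le fun ω => hb _⟩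
  unfold avg
  exact (hF.meas.stronglyMeasurable.integral_prod_right' (ν := surf)).measurable.const_mul _

lemma avg_abs_le {F G : E3 × S2 → ℝ} {r : E3} {c : ℝ} (hG : BM G)
    (h : ∀ ω, |F (r, ω)| ≤ c * G (r, ω)) : |avg F r| ≤ c * avg G r := by
  unfold avg
  rw [abs_mul, abs_of_pos (inv_pos.mpr four_pi_pos)]
  have := norm_integral_le_of_norm_le (μ := surf) (f := fun ω => F (r, ω)) (g := fun ω => c * G (r, ω))
    ((hG.slice r).const_mul c).integrable (Eventually.of_forall h)
  rw [Real.norm_eq_abs, integral_const_mul] at this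
  calc _ ≤ (4 * Real.pi)⁻¹ * (c * ∫ ω, G (r, ω) ∂surf) := by
        gcongr
    _ = _ := by ring

lemma avg_sub {F G : E3 × S2 → ℝ} (hF : BM F) (hG : BM G) (r : E3) :
    avg (fun p => F p - G p) r = avg F r - avg G r := by
  unfold avg
  rw [integral_sub (hF.slice r).integrable (hG.slice r).integrable]
  ring

lemma avg_add {F G : E3 × S2 → ℝ} (hF : BM F) (hG : BM G) (r : E3) :
    avg (fun p => F p + G p) r = avg F r + avg G r := by
  unfold avg
  rw [integral_add (hF.slice r).integrable (hG.slice r).integrable]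
  ring

lemma avg_const_mul {F : E3 × S2 → ℝ} (c : ℝ) (r : E3) :
    avg (fun p => c * F p) r = c * avg F r := by
  unfold avg
  rw [integral_const_mul]
  ring

variable {V : Set E3} {R : ℝ}

lemma K_integrand_meas (hV : MeasurableSet V) {k : ℝ → ℝ} (hk : Continuous k) {φ : E3 → ℝ} (hφ : Measurable φ) :
    Measurable fun q : (E3 × S2) × ℝ => k q.2 * V.indicator φ (q.1.1 + q.2 • (q.1.2 : E3)) := by
  apply Measurable.mul (hk.measurable.comp measurable_snd)
  apply (hφ.indicator hV).comp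
  fun_prop

lemma K_intble (hV : MeasurableSet V) {k : ℝ → ℝ} (hk : Continuous k) {φ : E3 → ℝ} (hφ : BM φ) (p : E3 × S2) (a b : ℝ) :
    IntervalIntegrable (fun x => k x * V.indicator φ (p.1 + x • (p.2 : E3))) volume a b := by
  obtain ⟨C, hC, hb⟩ := hφ.bdd
  have h1 : IntervalIntegrable (fun x => C * |k x|) volume a b := (by fun_prop : Continuous fun x => C * |k x|).intervalIntegrable a b
  refine h1.mono_fun ?_ ?_
  · exact ((K_integrand_meas hV hk hφ.meas).comp (measurable_prodMk_left (x := p))).aestronglyMeasurable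
  · refine Eventually.of_forall fun x => ?_
    simp only [Real.norm_eq_abs, abs_mul, abs_abs, abs_of_nonneg hC]
    rw [mul_comm]
    gcongr
    by_cases hx : p.1 + x • (p.2 : E3) ∈ V
    · rw [indicator_of_mem hx]; exact hb _
    · rw [indicator_of_notMem hx]; simpa using hC

lemma K_bound (hR : 0 ≤ R) {k w : ℝ → ℝ} (hw : Continuous w) {φ : E3 → ℝ} {b : ℝ} (hb : 0 ≤ b)
    (hφ : ∀ r ∈ V, |φ r| ≤ b) (hkw : ∀ x, 0 < x → x ≤ R → |k x| ≤ w x) (p : E3 × S2) :
    |K V R k φ p| ≤ b * ∫ x in (0 : ℝ)..R, w x := by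
  unfold K
  rw [← intervalIntegral.integral_const_mul]
  have := intervalIntegral.norm_integral_le_of_norm_le (μ := volume) (a := 0) (b := R)
    (f := fun x => k x * V.indicator φ (p.1 + x • (p.2 : E3))) (g := fun x => b * w x) hR
    (Eventually.of_forall fun x hx => ?_) ((hw.const_mul b).intervalIntegrable _ _)
  · exact this
  · rw [Real.norm_eq_abs, abs_mul, mul_comm]
    have h1 := hkw x hx.1 hx.2
    have h2 : |V.indicator φ (p.1 + x • (p.2 : E3))| ≤ b := by
      by_cases hx : p.1 + x • (p.2 : E3) ∈ V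
      · rw [indicator_of_mem hx]; exact hφ _ hx
      · rw [indicator_of_notMem hx]; simpa using hb
    gcongr

lemma K_bm (hV : MeasurableSet V) (hR : 0 ≤ R) {k : ℝ → ℝ} (hk : Continuous k) {φ : E3 → ℝ} (hφ : BM φ) :
    BM (K V R k φ) := by
  obtain ⟨C, hC, hb⟩ := hφ.bdd
  refine ⟨?_, C * ∫ x in (0 : ℝ)..R, |k x|, ?_, fun p => K_bound hR (by fun_prop) hC (fun r _ => hb r) (fun x _ _ => le_rfl) p⟩
  · unfold K
    simp_rw [intervalIntegral.integral_of_le hR]
    exact ((K_integrand_meas hV hk hφ.meas).stronglyMeasurable.integral_prod_right' (ν := volume.restrict (Ioc 0 R))).measurable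
  · apply mul_nonneg hC
    exact intervalIntegral.integral_nonneg hR fun x _ => abs_nonneg _

/-- bound by the exponential kernel -/
lemma K_bound_exp (hV : MeasurableSet V) (hR : 0 ≤ R) {k : ℝ → ℝ} {φ : E3 → ℝ} {b c : ℝ} (hc : 0 ≤ c)
    (hφ : ∀ r ∈ V, |φ r| ≤ b) (hk : ∀ x, 0 < x → x ≤ R → |k x| ≤ c * Real.exp (-x)) (p : E3 × S2) :
    |K V R k φ p| ≤ (b * c) * K V R (fun x => Real.exp (-x)) (fun _ => 1) p := by
  unfold K
  rw [← intervalIntegral.integral_const_mul]
  have := intervalIntegral.norm_integral_le_of_norm_le (μ := volume) (a := 0) (b := R)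
    (f := fun x => k x * V.indicator φ (p.1 + x • (p.2 : E3)))
    (g := fun x => (b * c) * (Real.exp (-x) * V.indicator (fun _ => 1) (p.1 + x • (p.2 : E3)))) hR
    (Eventually.of_forall fun x hx => ?_) ((K_intble hV (by fun_prop) (BM.const 1) p 0 R).const_mul _)
  · exact this
  · rw [Real.norm_eq_abs, abs_mul]
    have h1 := hk x hx.1 hx.2
    by_cases hx' : p.1 + x • (p.2 : E3) ∈ V
    · rw [indicator_of_mem hx', indicator_of_mem hx']
      have h2 := hφ _ hx'
      calc |k x| * |φ (p.1 + x • (p.2 : E3))| ≤ (c * Real.exp (-x)) * b := by gcongr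
        _ = _ := by ring
    · rw [indicator_of_notMem hx', indicator_of_notMem hx']
      simp

lemma K_sub (hV : MeasurableSet V) {k : ℝ → ℝ} (hk : Continuous k) {φ ψ : E3 → ℝ} (hφ : BM φ) (hψ : BM ψ) (p : E3 × S2) :
    K V R k (fun r => φ r - ψ r) p = K V R k φ p - K V R k ψ p := by
  unfold K
  rw [← intervalIntegral.integral_sub (K_intble hV hk hφ p 0 R) (K_intble hV hk hψ p 0 R)]
  congr 1
  ext x
  by_cases hx' : p.1 + x • (p.2 : E3) ∈ V
  · simp only [indicator_of_mem hx']; ring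
  · simp only [indicator_of_notMem hx']; ring

lemma K_add (hV : MeasurableSet V) {k : ℝ → ℝ} (hk : Continuous k) {φ ψ : E3 → ℝ} (hφ : BM φ) (hψ : BM ψ) (p : E3 × S2) :
    K V R k (fun r => φ r + ψ r) p = K V R k φ p + K V R k ψ p := by
  unfold K
  rw [← intervalIntegral.integral_add (K_intble hV hk hφ p 0 R) (K_intble hV hk hψ p 0 R)]
  congr 1
  ext x
  by_cases hx' : p.1 + x • (p.2 : E3) ∈ V
  · simp only [indicator_of_mem hx']; ring
  · simp only [indicator_of_notMem hx']; ring

lemma K_const_mul {k : ℝ → ℝ} {φ : E3 → ℝ} (c : ℝ) (p : E3 × S2) :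
    K V R k (fun r => c * φ r) p = c * K V R k φ p := by
  unfold K
  rw [← intervalIntegral.integral_const_mul]
  congr 1
  ext x
  by_cases hx' : p.1 + x • (p.2 : E3) ∈ V
  · simp only [indicator_of_mem hx']; ring
  · simp only [indicator_of_notMem hx']; ring

lemma K_ker_sub (hV : MeasurableSet V) {k l : ℝ → ℝ} (hk : Continuous k) (hl : Continuous l) {φ : E3 → ℝ} (hφ : BM φ) (p : E3 × S2) :
    K V R (fun x => k x - l x) φ p = K V R k φ p - K V R l φ p := by
  unfold K
  rw [← intervalIntegral.integral_sub (K_intble hV hk hφ p 0 R) (K_intble hV hl hφ p 0 R)]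
  congr 1
  ext x
  ring

lemma K_ker_const_mul {k : ℝ → ℝ} {φ : E3 → ℝ} (c : ℝ) (p : E3 × S2) :
    K V R (fun x => c * k x) φ p = c * K V R k φ p := by
  unfold K
  rw [← intervalIntegral.integral_const_mul]
  congr 1
  ext x
  ring

end Pool.Agent.Lib_helper53.Transport
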