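import Mathlib
import Pool.Agent.Lib_helper53.TransportOp2

open MeasureTheory Metric Set Filter
open scoped ENNReal Topology

namespace Pool.Agent.Lib_helper53.Transport

variable {V : Set E3} {R : ℝ}

/-- transport kernel -/
noncomputable def ker (lam x : ℝ) : ℝ := lam * Real.exp (-(lam * x))

lemma continuous_ker (lam : ℝ) : Continuous (ker lam) := by unfold ker; fun_prop

/-- derivative kernel at `lam = 1` -/
noncomputable def ell (x : ℝ) : ℝ := (1 - x) * Real.exp (-x)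

lemma continuous_ell : Continuous ell := by unfold ell; fun_prop

/-- source -/
noncomputable def G (V : Set E3) (R : ℝ) : E3 × S2 → ℝ := K V R (fun x => Real.exp (-x)) (fun _ => 1)

lemma G_bm (hV : MeasurableSet V) (hR : 0 ≤ R) : BM (G V R) := K_bm hV hR (by fun_prop) (BM.const 1)

lemma integral_ker (lam : ℝ) : ∫ x in (0 : ℝ)..R, ker lam x = 1 - Real.exp (-(lam * R)) := by
  have h : ∀ x ∈ uIcc (0 : ℝ) R, HasDerivAt (fun x => -Real.exp (-(lam * x))) (ker lam x) x := by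
    intro x _
    have h1 : HasDerivAt (fun x : ℝ => -(lam * x)) (-lam) x :=
      (((hasDerivAt_id x).const_mul lam).fun_neg).congr_deriv (by simp)
    have h2 := (h1.exp).neg
    refine h2.congr_deriv ?_
    unfold ker; ring
  rw [intervalIntegral.integral_eq_sub_of_hasDerivAt h ((continuous_ker lam).intervalIntegrable _ _)]
  simp
  ring

lemma ker_one (x : ℝ) : ker 1 x = Real.exp (-x) := by unfold ker; simp

lemma K_ker_bound (hR : 0 ≤ R) {lam : ℝ} (hlam : 0 < lam) {φ : E3 → ℝ} {b : ℝ} (hb : 0 ≤ b)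
    (hφ : ∀ r ∈ V, |φ r| ≤ b) (p : E3 × S2) : |K V R (ker lam) φ p| ≤ (1 - Real.exp (-(lam * R))) * b := by
  have := K_bound (V := V) (R := R) hR (k := ker lam) (w := ker lam) (continuous_ker lam) hb hφ (fun x _ _ => by
    rw [abs_of_nonneg]; unfold ker; positivity) p
  rw [integral_ker] at this
  linarith

lemma kappa_lt (lam R : ℝ) : 1 - Real.exp (-(lam * R)) < 1 := by
  have := Real.exp_pos (-(lam * R)); linarith

lemma kappa_nonneg {lam R : ℝ} (h : 0 ≤ lam * R) : 0 ≤ 1 - Real.exp (-(lam * R)) := by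
  have : Real.exp (-(lam * R)) ≤ 1 := Real.exp_le_one_iff.mpr (by linarith)
  linarith

lemma exists_fix (hV : MeasurableSet V) (hR : 0 ≤ R) {lam : ℝ} (hlam : 0 < lam) {H : E3 × S2 → ℝ} (hH : BM H) :
    ∃ F : E3 × S2 → ℝ, BM F ∧ ∀ p, F p = H p + K V R (ker lam) (avg F) p := by
  refine exists_fixed (fun F p => H p + K V R (ker lam) (avg F) p) (κ := 1 - Real.exp (-(lam * R)))
    (kappa_nonneg (by positivity)) (kappa_lt _ _) ?_ ?_
  · intro f hf
    exact hH.add (K_bm hV hR (continuous_ker lam) (avg_bm hf))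
  · intro f g hf hg c hc h p
    have h1 : (H p + K V R (ker lam) (avg f) p) - (H p + K V R (ker lam) (avg g) p) =
        K V R (ker lam) (fun r => avg f r - avg g r) p := by
      rw [K_sub hV (continuous_ker lam) (avg_bm hf) (avg_bm hg)]; ring
    simp only [h1]
    refine K_ker_bound hR hlam hc (fun r _ => ?_) p
    rw [← avg_sub hf hg]
    exact avg_le fun ω => h (r, ω)

lemma G_le_one (hR : 0 ≤ R) (p : E3 × S2) : |G V R p| ≤ 1 := by
  have h := K_ker_bound (V := V) (R := R) hR one_pos zero_le_one (φ := fun _ => 1) (fun r _ => by simp) p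
  have h2 : G V R p = K V R (ker 1) (fun _ => 1) p := by
    unfold G
    congr 1
    ext x
    rw [ker_one]
  rw [h2]
  have := Real.exp_pos (-(1 * R))
  linarith

lemma G_nonneg (hR : 0 ≤ R) (p : E3 × S2) : 0 ≤ G V R p := by
  unfold G K
  apply intervalIntegral.integral_nonneg hR
  intro x _
  apply mul_nonneg (Real.exp_pos _).le
  exact indicator_nonneg (fun _ _ => zero_le_one) _

/-- `|K k φ| ≤ b c G` -/
lemma K_bound_G (hV : MeasurableSet V) (hR : 0 ≤ R) {k : ℝ → ℝ} {φ : E3 → ℝ} {b c : ℝ} (hc : 0 ≤ c)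
    (hφ : ∀ r ∈ V, |φ r| ≤ b) (hk : ∀ x, 0 < x → x ≤ R → |k x| ≤ c * Real.exp (-x)) (p : E3 × S2) :
    |K V R k φ p| ≤ (b * c) * G V R p := K_bound_exp hV hR hc hφ hk p

lemma avg_K_bound (hV : MeasurableSet V) (hR : 0 ≤ R) {k : ℝ → ℝ} {φ : E3 → ℝ} {b c : ℝ} (hc : 0 ≤ c)
    (hφ : ∀ r ∈ V, |φ r| ≤ b) (hk : ∀ x, 0 < x → x ≤ R → |k x| ≤ c * Real.exp (-x)) (r : E3) :
    |avg (K V R k φ) r| ≤ (b * c) * avg (G V R) r :=
  avg_abs_le (G_bm hV hR) fun ω => K_bound_G hV hR hc hφ hk (r, ω)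

lemma ker_one_bound : ∀ x, 0 < x → x ≤ R → |ker 1 x| ≤ 1 * Real.exp (-x) := by
  intro x _ _
  rw [ker_one, abs_of_pos (Real.exp_pos _), one_mul]

lemma ell_bound : ∀ x, 0 < x → x ≤ R → |ell x| ≤ (1 + R) * Real.exp (-x) := by
  intro x hx hxR
  unfold ell
  rw [abs_mul, abs_of_pos (Real.exp_pos _)]
  gcongr
  rw [abs_le]
  constructor <;> linarith

/-- Smallness of the angular average of the solution at `lam = 1`. -/
lemma avg_M_small (hV : MeasurableSet V) (hR : 0 ≤ R) {q : ℝ} (hq0 : 0 ≤ q) (hq : q < 1)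
    (hG : ∀ r ∈ V, avg (G V R) r ≤ q) {M : E3 × S2 → ℝ} (hM : BM M)
    (hfix : ∀ p, M p = G V R p + K V R (ker 1) (avg M) p) (r : E3) (hr : r ∈ V) : |avg M r| ≤ q / (1 - q) := by
  have hGn : ∀ r, 0 ≤ avg (G V R) r := by
    intro r
    unfold avg
    apply mul_nonneg (by positivity)
    exact integral_nonneg fun ω => G_nonneg hR _
  refine sup_bound (fun r : V => avg M r) hq ?_ ?_ ⟨r, hr⟩
  · obtain ⟨C, _, hC⟩ := (avg_bm hM).bdd
    exact ⟨C, fun x => hC _⟩
  · rintro s hs hle ⟨r, hr⟩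
    have h1 : avg M r = avg (G V R) r + avg (K V R (ker 1) (avg M)) r := by
      rw [← avg_add (G_bm hV hR) (K_bm hV hR (continuous_ker 1) (avg_bm hM))]
      congr 1
      ext p; exact hfix p
    have h2 := avg_K_bound hV hR zero_le_one (fun r hr => hle ⟨r, hr⟩) (ker_one_bound (R := R)) r
    simp only
    rw [h1]
    calc |avg (G V R) r + avg (K V R (ker 1) (avg M)) r| ≤ |avg (G V R) r| + |avg (K V R (ker 1) (avg M)) r| := abs_add_le _ _
      _ ≤ q + s * 1 * avg (G V R) r := by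
        rw [abs_of_nonneg (hGn r)]
        exact add_le_add (hG r hr) h2
      _ ≤ q + q * s := by
        have := mul_le_mul_of_nonneg_left (hG r hr) hs
        linarith

/-- Smallness of the angular average of the derivative. -/
lemma avg_N_small (hV : MeasurableSet V) (hR : 0 ≤ R) {q : ℝ} (hq0 : 0 ≤ q) (hq : q < 1)
    (hG : ∀ r ∈ V, avg (G V R) r ≤ q) {M N : E3 × S2 → ℝ} (hM : BM M) (hN : BM N) {sM : ℝ} (hsM : 0 ≤ sM)
    (hMs : ∀ r ∈ V, |avg M r| ≤ sM)
    (hfix : ∀ p, N p = K V R ell (avg M) p + K V R (ker 1) (avg N) p) (r : E3) (hr : r ∈ V) :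
    |avg N r| ≤ (sM * (1 + R) * q) / (1 - q) := by
  refine sup_bound (fun r : V => avg N r) hq ?_ ?_ ⟨r, hr⟩
  · obtain ⟨C, _, hC⟩ := (avg_bm hN).bdd
    exact ⟨C, fun x => hC _⟩
  · rintro s hs hle ⟨r, hr⟩
    have h1 : avg N r = avg (K V R ell (avg M)) r + avg (K V R (ker 1) (avg N)) r := by
      rw [← avg_add (K_bm hV hR continuous_ell (avg_bm hM)) (K_bm hV hR (continuous_ker 1) (avg_bm hN))]
      congr 1
      ext p; exact hfix p
    have h2 := avg_K_bound hV hR zero_le_one (fun r hr => hle ⟨r, hr⟩) (ker_one_bound (R := R)) r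
    have h3 := avg_K_bound hV hR (by linarith) hMs (ell_bound) r
    simp only
    rw [h1]
    calc |avg (K V R ell (avg M)) r + avg (K V R (ker 1) (avg N)) r| ≤ |avg (K V R ell (avg M)) r| + |avg (K V R (ker 1) (avg N)) r| := abs_add_le _ _
      _ ≤ sM * (1 + R) * avg (G V R) r + s * 1 * avg (G V R) r := add_le_add h3 h2
      _ ≤ sM * (1 + R) * q + q * s := by
        have e1 := mul_le_mul_of_nonneg_left (hG r hr) hs
        have e2 := mul_le_mul_of_nonneg_left (hG r hr) (show 0 ≤ sM * (1 + R) by positivity)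
        linarith

/-- The derivative differs little from its main term. -/
lemma N_approx (hV : MeasurableSet V) (hR : 0 ≤ R) {q : ℝ} (hq0 : 0 ≤ q) (hq : q < 1)
    (hG : ∀ r ∈ V, avg (G V R) r ≤ q) {M N : E3 × S2 → ℝ} (hM : BM M) (hN : BM N)
    (hfixM : ∀ p, M p = G V R p + K V R (ker 1) (avg M) p)
    (hfix : ∀ p, N p = K V R ell (avg M) p + K V R (ker 1) (avg N) p) (p : E3 × S2) :
    |N p - K V R ell (avg (G V R)) p| ≤ (1 + R) * q ^ 2 / (1 - q) + (1 + R) * q ^ 2 / (1 - q) ^ 2 := by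
  have hq' : 0 < 1 - q := by linarith
  have hsM := avg_M_small hV hR hq0 hq hG hM hfixM
  have hs0 : 0 ≤ q / (1 - q) := by positivity
  have hsN := avg_N_small hV hR hq0 hq hG hM hN hs0 hsM hfix
  have h1 : K V R ell (avg M) p = K V R ell (avg (G V R)) p + K V R ell (avg (K V R (ker 1) (avg M))) p := by
    rw [← K_add hV continuous_ell (avg_bm (G_bm hV hR)) (avg_bm (K_bm hV hR (continuous_ker 1) (avg_bm hM)))]
    congr 1
    ext r
    rw [← avg_add (G_bm hV hR) (K_bm hV hR (continuous_ker 1) (avg_bm hM))]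
    congr 1
    ext p; exact hfixM p
  have h2 : N p - K V R ell (avg (G V R)) p = K V R ell (avg (K V R (ker 1) (avg M))) p + K V R (ker 1) (avg N) p := by
    rw [hfix, h1]; ring
  rw [h2]
  have hGp := G_le_one (V := V) hR p
  have hGp0 := G_nonneg (V := V) hR p
  rw [abs_of_nonneg hGp0] at hGp
  have h3 : ∀ r ∈ V, |avg (K V R (ker 1) (avg M)) r| ≤ q / (1 - q) * q := by
    intro r hr
    have := avg_K_bound hV hR zero_le_one hsM (ker_one_bound (R := R)) r
    refine this.trans ?_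
    rw [mul_one]
    exact mul_le_mul_of_nonneg_left (hG r hr) hs0
  have h4 := K_bound_G hV hR (by linarith) h3 (ell_bound) p
  have h5 := K_bound_G hV hR zero_le_one hsN (ker_one_bound (R := R)) p
  refine (abs_add_le _ _).trans (add_le_add (h4.trans ?_) (h5.trans ?_))
  · calc q / (1 - q) * q * (1 + R) * G V R p ≤ q / (1 - q) * q * (1 + R) * 1 := by gcongr
      _ = _ := by ring
  · calc q / (1 - q) * (1 + R) * q / (1 - q) * 1 * G V R p ≤ q / (1 - q) * (1 + R) * q / (1 - q) * 1 * 1 := by gcongr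
      _ = _ := by field_simp

lemma hasDerivAt_of_quadratic {f : ℝ → ℝ} {f' C δ : ℝ} (hδ : 0 < δ)
    (h : ∀ h, |h| ≤ δ → |f (1 + h) - f 1 - h * f'| ≤ C * h ^ 2) : HasDerivAt f f' 1 := by
  rw [hasDerivAt_iff_isLittleO_nhds_zero]
  have h1 : (fun h => f (1 + h) - f 1 - h • f') =O[𝓝 0] fun h : ℝ => h ^ 2 := by
    refine Asymptotics.IsBigO.of_bound C ?_
    have : ∀ᶠ h : ℝ in 𝓝 0, |h| ≤ δ := by
      have : ∀ᶠ h : ℝ in 𝓝 0, h ∈ Ioo (-δ) δ := Ioo_mem_nhds (by linarith) hδ
      exact this.mono fun h hh => (abs_lt.mpr hh).le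
    refine this.mono fun y hy => ?_
    have := h y hy
    simpa [smul_eq_mul, Real.norm_eq_abs, abs_of_nonneg (sq_nonneg y)] using this
  exact h1.trans_isLittleO (Asymptotics.isLittleO_pow_id one_lt_two)

lemma ker_second {R : ℝ} (hR : 0 ≤ R) {h : ℝ} (hh : |h| ≤ 1 / (R + 1)) {x : ℝ} (hx : 0 < x) (hxR : x ≤ R) :
    |ker (1 + h) x - ker 1 x - h * ell x| ≤ (2 * R ^ 2 + R) * h ^ 2 := by
  have hR1 : 0 < R + 1 := by linarith
  have hh' : |h| * (R + 1) ≤ 1 := by
    rwa [le_div_iff₀ hR1] at hh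
  have hh1 : |h| ≤ 1 := by nlinarith [abs_nonneg h]
  have hhx : |-(h * x)| ≤ 1 := by
    rw [abs_neg, abs_mul, abs_of_pos hx]
    nlinarith [abs_nonneg h]
  have key := Real.abs_exp_sub_one_sub_id_le hhx
  have e1 : ker (1 + h) x - ker 1 x - h * ell x =
      Real.exp (-x) * ((1 + h) * (Real.exp (-(h * x)) - 1 - (-(h * x))) - h ^ 2 * x) := by
    unfold ker ell
    rw [show -((1 + h) * x) = -x + -(h * x) by ring, Real.exp_add]
    ring_nf
  rw [e1, abs_mul, abs_of_pos (Real.exp_pos _)]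
  have hexp : Real.exp (-x) ≤ 1 := Real.exp_le_one_iff.mpr (by linarith)
  have hb : |(1 + h) * (Real.exp (-(h * x)) - 1 - (-(h * x))) - h ^ 2 * x| ≤ (2 * R ^ 2 + R) * h ^ 2 := by
    calc |(1 + h) * (Real.exp (-(h * x)) - 1 - (-(h * x))) - h ^ 2 * x|
        ≤ |(1 + h) * (Real.exp (-(h * x)) - 1 - (-(h * x)))| + |h ^ 2 * x| := abs_sub _ _
      _ ≤ 2 * (-(h * x)) ^ 2 + h ^ 2 * x := by
          rw [abs_mul, abs_of_nonneg (show 0 ≤ h ^ 2 * x by positivity)]
          have : |1 + h| ≤ 2 := by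
            rw [abs_le] at hh1 ⊢
            constructor <;> linarith
          gcongr
      _ ≤ (2 * R ^ 2 + R) * h ^ 2 := by
          have e2 : x ^ 2 ≤ R ^ 2 := by gcongr
          nlinarith [sq_nonneg h, mul_le_mul_of_nonneg_left e2 (sq_nonneg h), mul_le_mul_of_nonneg_left hxR (sq_nonneg h)]
  calc _ ≤ 1 * ((2 * R ^ 2 + R) * h ^ 2) := by gcongr
    _ = _ := one_mul _

lemma ker_first {R : ℝ} (hR : 0 ≤ R) {h : ℝ} (hh : |h| ≤ 1 / (R + 1)) {x : ℝ} (hx : 0 < x) (hxR : x ≤ R) :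
    |ker (1 + h) x - ker 1 x| ≤ (2 * R ^ 2 + 2 * R + 1) * |h| := by
  have hR1 : 0 < R + 1 := by linarith
  have hh' : |h| * (R + 1) ≤ 1 := by
    rwa [le_div_iff₀ hR1] at hh
  have hh1 : |h| ≤ 1 := by nlinarith [abs_nonneg h]
  have h1 := ker_second hR hh hx hxR
  have h2 := ell_bound x hx hxR
  have hexp : Real.exp (-x) ≤ 1 := Real.exp_le_one_iff.mpr (by linarith)
  have h3 : |ell x| ≤ 1 + R := h2.trans (by nlinarith)
  have h4 : |h * ell x| ≤ |h| * (1 + R) := by rw [abs_mul]; gcongr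
  have h5 : h ^ 2 ≤ |h| := by
    rw [← sq_abs]
    nlinarith [abs_nonneg h]
  calc |ker (1 + h) x - ker 1 x| = |(ker (1 + h) x - ker 1 x - h * ell x) + h * ell x| := by ring_nf
    _ ≤ |ker (1 + h) x - ker 1 x - h * ell x| + |h * ell x| := abs_add_le _ _
    _ ≤ (2 * R ^ 2 + R) * h ^ 2 + |h| * (1 + R) := add_le_add h1 h4
    _ ≤ (2 * R ^ 2 + R) * |h| + |h| * (1 + R) := by gcongr
    _ = _ := by ring

lemma hasDerivAt_M (hV : MeasurableSet V) (hR : 0 ≤ R) (M : ℝ → E3 × S2 → ℝ)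
    (hM : ∀ lam, 0 < lam → BM (M lam)) (hfixM : ∀ lam, 0 < lam → ∀ p, M lam p = G V R p + K V R (ker lam) (avg (M lam)) p)
    {N : E3 × S2 → ℝ} (hN : BM N)
    (hfix : ∀ p, N p = K V R ell (avg (M 1)) p + K V R (ker 1) (avg N) p) (p : E3 × S2) :
    HasDerivAt (fun lam => M lam p) (N p) 1 := by
  have hM1 := hM 1 one_pos
  obtain ⟨b1, hb1, hM1b⟩ := (avg_bm hM1).bdd
  obtain ⟨bN, hbN, hNb⟩ := (avg_bm hN).bdd
  set B := bN * ((2 * R ^ 2 + 2 * R + 1) * R) + b1 * ((2 * R ^ 2 + R) * R) with hB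
  have hR1 : 0 < R + 1 := by linarith
  set δ := (1 / 2) * (1 / (R + 1)) with hδ
  have hδpos : 0 < δ := by positivity
  refine hasDerivAt_of_quadratic hδpos (C := B / (1 - (1 - Real.exp (-(2 * R))))) ?_
  intro h hh
  have hh2 : |h| ≤ 1 / (R + 1) := by
    refine hh.trans ?_
    rw [hδ]
    have : 0 < 1 / (R + 1) := by positivity
    linarith
  have hh3 : |h| ≤ 1 / 2 := by
    refine hh.trans ?_
    rw [hδ]
    have : 1 / (R + 1) ≤ 1 := by
      rw [div_le_one hR1]; linarith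
    linarith
  have hlam : 0 < 1 + h := by
    rw [abs_le] at hh3; linarith [hh3.1]
  have hMl := hM (1 + h) hlam
  -- the error function
  have hEbm : BM (fun p => M (1 + h) p - M 1 p - h * N p) := (hMl.sub hM1).sub (hN.const_mul h)
  have hE : ∀ p, M (1 + h) p - M 1 p - h * N p =
      K V R (ker (1 + h)) (avg (fun p => M (1 + h) p - M 1 p - h * N p)) p +
      h * K V R (fun x => ker (1 + h) x - ker 1 x) (avg N) p +
      K V R (fun x => (ker (1 + h) x - ker 1 x) - h * ell x) (avg (M 1)) p := by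
    intro p
    have a1 : avg (fun p => M (1 + h) p - M 1 p - h * N p) = fun r => (avg (M (1 + h)) r - avg (M 1) r) - h * avg N r := by
      ext r
      rw [avg_sub (hMl.sub hM1) (hN.const_mul h), avg_sub hMl hM1, avg_const_mul]
    have ck1 := continuous_ker (1 + h)
    have ck2 := continuous_ker 1
    have cl := continuous_ell
    have ck3 : Continuous (fun x => ker (1 + h) x - ker 1 x) := ck1.sub ck2
    have cl2 : Continuous (fun x => h * ell x) := cl.const_mul h
    have bMl := avg_bm hMl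
    have bM1 := avg_bm hM1
    have bN' := avg_bm hN
    rw [a1, K_sub hV ck1 (bMl.sub bM1) (bN'.const_mul h), K_sub hV ck1 bMl bM1, K_const_mul,
      K_ker_sub hV ck1 ck2 bN', K_ker_sub hV ck3 cl2 bM1,
      K_ker_sub hV ck1 ck2 bM1, K_ker_const_mul]
    rw [hfixM (1 + h) hlam p, hfixM 1 one_pos p, hfix p]
    ring
  have key := sup_bound (fun p => M (1 + h) p - M 1 p - h * N p) (B := B * h ^ 2)
    (κ := 1 - Real.exp (-(2 * R))) (kappa_lt 2 R) (by
      obtain ⟨C, _, hC⟩ := hEbm.bdd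
      exact ⟨C, hC⟩) (by
      intro s hs hle p
      rw [hE p]
      have t1 := K_ker_bound (V := V) (R := R) hR hlam hs (φ := avg (fun p => M (1 + h) p - M 1 p - h * N p))
        (fun r _ => avg_le fun ω => hle (r, ω)) p
      have t2 := K_bound (V := V) (R := R) hR (k := fun x => ker (1 + h) x - ker 1 x)
        (w := fun _ => (2 * R ^ 2 + 2 * R + 1) * |h|) continuous_const hbN (fun r _ => hNb r)
        (fun x hx hxR => ker_first hR hh2 hx hxR) p
      have t3 := K_bound (V := V) (R := R) hR (k := fun x => (ker (1 + h) x - ker 1 x) - h * ell x)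
        (w := fun _ => (2 * R ^ 2 + R) * h ^ 2) continuous_const hb1 (fun r _ => hM1b r)
        (fun x hx hxR => ker_second hR hh2 hx hxR) p
      rw [intervalIntegral.integral_const, smul_eq_mul, sub_zero] at t2 t3
      have t4 : (1 - Real.exp (-((1 + h) * R))) * s ≤ (1 - Real.exp (-(2 * R))) * s := by
        apply mul_le_mul_of_nonneg_right _ hs
        have : Real.exp (-(2 * R)) ≤ Real.exp (-((1 + h) * R)) := by
          apply Real.exp_le_exp.mpr
          rw [abs_le] at hh3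
          nlinarith [hh3.2]
        linarith
      refine (abs_add_three _ _ _).trans ?_
      rw [abs_mul h]
      have t5 : |h| * |K V R (fun x => ker (1 + h) x - ker 1 x) (avg N) p| ≤ |h| * (bN * (R * ((2 * R ^ 2 + 2 * R + 1) * |h|))) := by
        gcongr
      have t6 : |h| * (bN * (R * ((2 * R ^ 2 + 2 * R + 1) * |h|))) = bN * ((2 * R ^ 2 + 2 * R + 1) * R) * h ^ 2 := by
        rw [← sq_abs h]; ring
      have t7 : b1 * (R * ((2 * R ^ 2 + R) * h ^ 2)) = b1 * ((2 * R ^ 2 + R) * R) * h ^ 2 := by ring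
      rw [hB]
      rw [t6] at t5
      rw [t7] at t3
      linarith) p
  calc |M (1 + h) p - M 1 p - h * N p| ≤ B * h ^ 2 / (1 - (1 - Real.exp (-(2 * R)))) := key
    _ = _ := by ring

end Pool.Agent.Lib_helper53.Transport
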