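import Mathlib
import Pool.Agent.Lib_helper53.TransportOp3

open MeasureTheory Metric Set Filter
open scoped ENNReal Topology

namespace Pool.Agent.Lib_helper53.Transport

variable {V : Set E3} {R : ℝ}

/-- segment condition -/
lemma exists_eps_of_mem (ho : IsOpen V) (r : E3) (ω : S2) {x : ℝ} (hx : r + x • (ω : E3) ∈ V) :
    ∃ ε > 0, ∀ t, |t - x| < ε → r + t • (ω : E3) ∈ V := by
  have hc : Continuous fun t : ℝ => r + t • (ω : E3) := by fun_prop
  have ho' : IsOpen ((fun t : ℝ => r + t • (ω : E3)) ⁻¹' V) := ho.preimage hc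
  obtain ⟨ε, hε, hb⟩ := Metric.isOpen_iff.mp ho' x hx
  exact ⟨ε, hε, fun t ht => hb (by rwa [Metric.mem_ball, Real.dist_eq])⟩

lemma mem_of_le (hc : Convex ℝ V) {r : E3} (hr : r ∈ V) (ω : S2) {x t : ℝ} (ht0 : 0 ≤ t) (htx : t ≤ x) (hx0 : 0 < x)
    (hx : r + x • (ω : E3) ∈ V) : r + t • (ω : E3) ∈ V := by
  have h := hc hr hx (a := 1 - t / x) (b := t / x) (by
    rw [sub_nonneg, div_le_one hx0]; exact htx) (by positivity) (by ring)
  have e : (1 - t / x) • r + (t / x) • (r + x • (ω : E3)) = r + t • (ω : E3) := by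
    rw [smul_add, smul_smul, div_mul_cancel₀ _ hx0.ne', sub_smul, one_smul]
    abel
  rwa [e] at h

lemma exit_nonempty (hR : 0 < R) (hVR : ∀ r ∈ V, ∀ ω : S2, ∀ x : ℝ, 0 < x → r + x • (ω : E3) ∈ V → x < R)
    {r : E3} (hr : r ∈ V) (ω : S2) : R ∈ {t : ℝ | 0 < t ∧ r + t • (ω : E3) ∉ V} :=
  ⟨hR, fun h => lt_irrefl _ (hVR r hr ω R hR h)⟩

lemma exit_bddBelow (r : E3) (ω : S2) : BddBelow {t : ℝ | 0 < t ∧ r + t • (ω : E3) ∉ V} :=
  ⟨0, fun _ ht => ht.1.le⟩

lemma exit_le (hR : 0 < R) (hVR : ∀ r ∈ V, ∀ ω : S2, ∀ x : ℝ, 0 < x → r + x • (ω : E3) ∈ V → x < R)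
    {r : E3} (hr : r ∈ V) (ω : S2) : exitDist V r ω ≤ R :=
  csInf_le (exit_bddBelow r ω) (exit_nonempty hR hVR hr ω)

lemma exit_nonneg (r : E3) (ω : S2) : 0 ≤ exitDist V r ω :=
  Real.sInf_nonneg fun _ ht => ht.1.le

lemma mem_iff_lt_exit (ho : IsOpen V) (hc : Convex ℝ V) (hR : 0 < R)
    (hVR : ∀ r ∈ V, ∀ ω : S2, ∀ x : ℝ, 0 < x → r + x • (ω : E3) ∈ V → x < R)
    {r : E3} (hr : r ∈ V) (ω : S2) {x : ℝ} (hx : 0 < x) : r + x • (ω : E3) ∈ V ↔ x < exitDist V r ω := by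
  constructor
  · intro hmem
    obtain ⟨ε, hε, hb⟩ := exists_eps_of_mem ho r ω hmem
    have : x + ε ≤ exitDist V r ω := by
      apply le_csInf ⟨R, exit_nonempty hR hVR hr ω⟩
      rintro t ⟨ht0, ht⟩
      by_contra hcon
      push Not at hcon
      apply ht
      rcases le_total t x with h | h
      · exact mem_of_le hc hr ω ht0.le h hx hmem
      · exact hb t (by rw [abs_of_nonneg (by linarith)]; linarith)
    linarith
  · intro hlt
    by_contra hcon
    exact absurd (csInf_le (exit_bddBelow r ω) ⟨hx, hcon⟩) (not_le.mpr hlt)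

lemma K_eq (ho : IsOpen V) (hc : Convex ℝ V) (hR : 0 < R)
    (hVR : ∀ r ∈ V, ∀ ω : S2, ∀ x : ℝ, 0 < x → r + x • (ω : E3) ∈ V → x < R)
    {r : E3} (hr : r ∈ V) (ω : S2) {k : ℝ → ℝ} (hk : Continuous k) {φ : E3 → ℝ} (hφ : BM φ) :
    K V R k φ (r, ω) = ∫ x in (0 : ℝ)..exitDist V r ω, k x * φ (r + x • (ω : E3)) := by
  have hV := ho.measurableSet
  have hD := exit_le hR hVR hr ω
  have hD0 : 0 ≤ exitDist V r ω := exit_nonneg r ω
  unfold K
  rw [← intervalIntegral.integral_add_adjacent_intervals (b := exitDist V r ω)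
    (K_intble hV hk hφ (r, ω) _ _) (K_intble hV hk hφ (r, ω) _ _)]
  have h2 : ∫ x in (exitDist V r ω)..R, k x * V.indicator φ ((r, ω).1 + x • ((r, ω).2 : E3)) = 0 := by
    apply intervalIntegral.integral_zero_ae
    refine Eventually.of_forall fun x hx => ?_
    rw [uIoc_of_le hD] at hx
    rw [indicator_of_notMem, mul_zero]
    intro hmem
    have hx0 : 0 < x := lt_of_le_of_lt hD0 hx.1
    have := (mem_iff_lt_exit ho hc hR hVR hr ω hx0).mp hmem
    linarith [hx.1]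
  rw [h2, add_zero]
  apply intervalIntegral.integral_congr_ae
  have hne : ∀ᵐ x : ℝ, x ≠ exitDist V r ω := by
    rw [ae_iff]
    simp
  refine hne.mono fun x hxne hx => ?_
  rw [uIoc_of_le hD0] at hx
  have hx' : x < exitDist V r ω := lt_of_le_of_ne hx.2 hxne
  rw [indicator_of_mem]
  exact (mem_iff_lt_exit ho hc hR hVR hr ω hx.1).mpr hx'

lemma integral_exp_neg (D : ℝ) : ∫ x in (0 : ℝ)..D, Real.exp (-x) = 1 - Real.exp (-D) := by
  have := integral_ker (R := D) 1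
  simp only [ker_one, one_mul] at this
  exact this

lemma rhs_eq (ho : IsOpen V) (hc : Convex ℝ V) (hR : 0 < R)
    (hVR : ∀ r ∈ V, ∀ ω : S2, ∀ x : ℝ, 0 < x → r + x • (ω : E3) ∈ V → x < R)
    {r : E3} (hr : r ∈ V) (ω : S2) {M : E3 × S2 → ℝ} (hM : BM M) (lam : ℝ) :
    1 - Real.exp (-exitDist V r ω) + lam / (4 * Real.pi) * ∫ x in (0 : ℝ)..exitDist V r ω,
      Real.exp (-(lam * x)) * ∫ ω' : S2, M (r + x • (ω : E3), ω') ∂surf =
    G V R (r, ω) + K V R (ker lam) (avg M) (r, ω) := by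
  unfold G
  rw [K_eq ho hc hR hVR hr ω (by fun_prop) (BM.const 1), K_eq ho hc hR hVR hr ω (continuous_ker lam) (avg_bm hM)]
  congr 1
  · simp only [mul_one]
    rw [integral_exp_neg]
  · rw [← intervalIntegral.integral_const_mul]
    congr 1
    ext x
    unfold ker avg
    have := four_pi_pos.ne'
    field_simp

lemma isSolution_of_fix (ho : IsOpen V) (hc : Convex ℝ V) (hR : 0 < R)
    (hVR : ∀ r ∈ V, ∀ ω : S2, ∀ x : ℝ, 0 < x → r + x • (ω : E3) ∈ V → x < R)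
    {M : E3 × S2 → ℝ} (hM : BM M) (lam : ℝ) (hfix : ∀ p, M p = G V R p + K V R (ker lam) (avg M) p) :
    IsSolution V lam M := by
  refine ⟨hM.meas, ?_, ?_⟩
  · obtain ⟨C, _, hC⟩ := hM.bdd
    exact ⟨C, hC⟩
  · intro r hr ω
    rw [rhs_eq ho hc hR hVR hr ω hM lam]
    exact hfix _

lemma unique_solution (ho : IsOpen V) (hc : Convex ℝ V) (hR : 0 < R)
    (hVR : ∀ r ∈ V, ∀ ω : S2, ∀ x : ℝ, 0 < x → r + x • (ω : E3) ∈ V → x < R)
    {M M' : E3 × S2 → ℝ} (hM : BM M) {lam : ℝ} (hlam : 0 < lam)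
    (hfix : ∀ p, M p = G V R p + K V R (ker lam) (avg M) p) (hM' : IsSolution V lam M')
    (r : E3) (hr : r ∈ V) (ω : S2) : M' (r, ω) = M (r, ω) := by
  have hV := ho.measurableSet
  have hbm' : BM M' := by
    obtain ⟨C, hC⟩ := hM'.bounded
    exact ⟨hM'.measurable, |C|, abs_nonneg _, fun x => (hC x).trans (le_abs_self _)⟩
  have key := sup_bound (fun p : {p : E3 × S2 // p.1 ∈ V} => M' p - M p) (B := 0) (κ := 1 - Real.exp (-(lam * R)))
    (kappa_lt _ _) (by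
      obtain ⟨C, _, hC⟩ := (hbm'.sub hM).bdd
      exact ⟨C, fun x => hC _⟩) (by
      rintro s hs hle ⟨⟨r, ω⟩, hr⟩
      have h1 : M' (r, ω) = G V R (r, ω) + K V R (ker lam) (avg M') (r, ω) := by
        rw [← rhs_eq ho hc hR hVR hr ω hbm' lam]
        exact hM'.equation r hr ω
      have h2 : M' (r, ω) - M (r, ω) = K V R (ker lam) (fun r => avg M' r - avg M r) (r, ω) := by
        rw [K_sub hV (continuous_ker lam) (avg_bm hbm') (avg_bm hM), h1, hfix (r, ω)]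
        ring
      show |M' (r, ω) - M (r, ω)| ≤ _
      rw [h2, zero_add]
      refine K_ker_bound hR.le hlam hs (fun r hr => ?_) _
      rw [← avg_sub hbm' hM]
      exact avg_le fun ω => hle ⟨(r, ω), hr⟩) ⟨(r, ω), hr⟩
  rw [zero_div] at key
  have := abs_nonpos_iff.mp key
  simp only at this
  linarith

end Pool.Agent.Lib_helper53.Transport
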