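import Mathlib
import Pool.Agent.Lib_helper53.TransportOp4

open MeasureTheory Metric Set Filter
open scoped ENNReal Topology

namespace Pool.Agent.Lib_helper53.Transport

section general
variable {V : Set E3} {R : ℝ}

lemma exit_le_of {r : E3} {ω : S2} {T : ℝ} (hT : 0 ≤ T)
    (h : ∀ x, 0 < x → r + x • (ω : E3) ∈ V → x ≤ T) : exitDist V r ω ≤ T := by
  by_contra hcon
  push Not at hcon
  have hx : 0 < (T + exitDist V r ω) / 2 := by linarith
  have hmem : r + ((T + exitDist V r ω) / 2) • (ω : E3) ∈ V := by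
    by_contra hn
    have : exitDist V r ω ≤ (T + exitDist V r ω) / 2 := csInf_le (exit_bddBelow r ω) ⟨hx, hn⟩
    linarith
  have := h _ hx hmem
  linarith

lemma exit_ge_of {r : E3} {ω : S2} {T : ℝ} (hne : {t : ℝ | 0 < t ∧ r + t • (ω : E3) ∉ V}.Nonempty)
    (h : ∀ x, 0 < x → x < T → r + x • (ω : E3) ∈ V) : T ≤ exitDist V r ω := by
  apply le_csInf hne
  rintro t ⟨ht0, ht⟩
  by_contra hcon
  push Not at hcon
  exact ht (h t ht0 hcon)

lemma G_eq (ho : IsOpen V) (hc : Convex ℝ V) (hR : 0 < R)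
    (hVR : ∀ r ∈ V, ∀ ω : S2, ∀ x : ℝ, 0 < x → r + x • (ω : E3) ∈ V → x < R)
    {r : E3} (hr : r ∈ V) (ω : S2) : G V R (r, ω) = 1 - Real.exp (-exitDist V r ω) := by
  unfold G
  rw [K_eq ho hc hR hVR hr ω (by fun_prop) (BM.const 1)]
  simp only [mul_one]
  exact integral_exp_neg _

lemma integrable_inv_sv : Integrable (fun ω => (sv ω)⁻¹) surf := by
  refine ⟨continuous_sv.measurable.inv.aestronglyMeasurable, ?_⟩
  rw [hasFiniteIntegral_iff_ofReal (Eventually.of_forall fun ω => inv_nonneg.mpr (sv_nonneg ω))]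
  exact lt_of_le_of_lt lintegral_inv_sv ENNReal.ofReal_lt_top

lemma integral_inv_sv_le : ∫ ω, (sv ω)⁻¹ ∂surf ≤ 4 * Real.pi + 24 := by
  rw [integral_eq_lintegral_of_nonneg_ae (Eventually.of_forall fun ω => inv_nonneg.mpr (sv_nonneg ω))
    continuous_sv.measurable.inv.aestronglyMeasurable]
  exact ENNReal.toReal_le_of_le_ofReal (by positivity) lintegral_inv_sv

lemma measurableSet_sv (τ : ℝ) : MeasurableSet {ω : S2 | sv ω < τ} :=
  (isOpen_lt continuous_sv continuous_const).measurableSet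

lemma avg_upper {F : E3 × S2 → ℝ} (hF : BM F) {r : E3} {c τ : ℝ} (hc : 0 ≤ c) (hτ : 0 ≤ τ)
    (h : ∀ ω, F (r, ω) ≤ c * (sv ω)⁻¹ + {ω : S2 | sv ω < τ}.indicator (fun _ => 1) ω) :
    avg F r ≤ 3 * c + 2 * τ ^ 2 := by
  have hi : Integrable ({ω : S2 | sv ω < τ}.indicator (fun _ => (1 : ℝ))) surf :=
    (integrable_const (1 : ℝ)).indicator (measurableSet_sv τ)
  have h1 : ∫ ω, F (r, ω) ∂surf ≤ ∫ ω, (c * (sv ω)⁻¹ + {ω : S2 | sv ω < τ}.indicator (fun _ => 1) ω) ∂surf :=
    integral_mono (hF.slice r).integrable ((integrable_inv_sv.const_mul c).add hi) h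
  have h2 : ∫ ω, (c * (sv ω)⁻¹ + {ω : S2 | sv ω < τ}.indicator (fun _ => (1 : ℝ)) ω) ∂surf =
      c * ∫ ω, (sv ω)⁻¹ ∂surf + surf.real {ω : S2 | sv ω < τ} := by
    rw [integral_add (integrable_inv_sv.const_mul c) hi, integral_const_mul, integral_indicator (measurableSet_sv τ),
      setIntegral_const, smul_eq_mul, mul_one]
  have h3 : surf.real {ω : S2 | sv ω < τ} ≤ 24 * τ ^ 2 := by
    rw [measureReal_def]
    exact ENNReal.toReal_le_of_le_ofReal (by positivity) (surf_small hτ)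
  have h4 : c * ∫ ω, (sv ω)⁻¹ ∂surf ≤ c * (4 * Real.pi + 24) := mul_le_mul_of_nonneg_left integral_inv_sv_le hc
  have hpi := Real.pi_gt_three
  unfold avg
  rw [inv_mul_le_iff₀ four_pi_pos]
  nlinarith [mul_nonneg hc (by linarith : (0 : ℝ) ≤ Real.pi - 3), mul_nonneg (sq_nonneg τ) (by linarith : (0 : ℝ) ≤ Real.pi - 3)]

lemma avg_lower {F : E3 × S2 → ℝ} (hF : BM F) {r : E3} {c : ℝ} (h : ∀ ω, c ≤ F (r, ω)) : c ≤ avg F r := by
  have h1 : ∫ ω : S2, c ∂surf ≤ ∫ ω, F (r, ω) ∂surf := integral_mono (integrable_const c) (hF.slice r).integrable h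
  rw [integral_const, surf_real_univ, smul_eq_mul] at h1
  unfold avg
  rw [inv_mul_eq_div, le_div_iff₀ four_pi_pos]
  linarith

lemma integral_ell_lin (a b α β : ℝ) : ∫ x in a..b, ell x * (α * x + β) =
    (α * (b ^ 2 + b + 1) + β * b) * Real.exp (-b) - (α * (a ^ 2 + a + 1) + β * a) * Real.exp (-a) := by
  have h : ∀ x ∈ uIcc a b, HasDerivAt (fun x => (α * (x ^ 2 + x + 1) + β * x) * Real.exp (-x)) (ell x * (α * x + β)) x := by
    intro x _
    have h1 : HasDerivAt (fun x : ℝ => α * (x ^ 2 + x + 1) + β * x) (α * (2 * x + 1) + β) x := by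
      have := ((((hasDerivAt_id x).pow 2).add (hasDerivAt_id x)).add_const 1).const_mul α
      have h2 := this.add ((hasDerivAt_id x).const_mul β)
      refine (h2.congr_deriv ?_)
      simp
    have h3 : HasDerivAt (fun x : ℝ => Real.exp (-x)) (-Real.exp (-x)) x := by
      refine ((hasDerivAt_neg x).exp).congr_deriv ?_
      ring
    refine (h1.mul h3).congr_deriv ?_
    unfold ell
    ring
  rw [intervalIntegral.integral_eq_sub_of_hasDerivAt h]
  have : Continuous fun x => ell x * (α * x + β) := continuous_ell.mul (by fun_prop)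
  exact this.intervalIntegrable _ _

end general

end Pool.Agent.Lib_helper53.Transport
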