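import Mathlib
import Pool.Agent.Lib_helper53.TransportOp5

open MeasureTheory Metric Set Filter
open scoped ENNReal Topology

namespace Pool.Agent.Lib_helper53.Transport

/-- The thin pyramid. -/
def pyr (θ : ℝ) : Set E3 := {p : E3 | |p 1| < θ * (p 0 + 1 / 100) ∧ |p 2| < θ * (p 0 + 1 / 100) ∧ p 0 < 6}

lemma isOpen_pyr (θ : ℝ) : IsOpen (pyr θ) := by
  have h1 : IsOpen {p : E3 | |p 1| < θ * (p 0 + 1 / 100)} := isOpen_lt (by fun_prop) (by fun_prop)
  have h2 : IsOpen {p : E3 | |p 2| < θ * (p 0 + 1 / 100)} := isOpen_lt (by fun_prop) (by fun_prop)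
  have h3 : IsOpen {p : E3 | p 0 < 6} := isOpen_lt (by fun_prop) (by fun_prop)
  exact h1.inter (h2.inter h3)

lemma convex_pyr (θ : ℝ) : Convex ℝ (pyr θ) := by
  have h3 : Convex ℝ {p : E3 | p 0 < 6} :=
    convex_halfSpace_lt (f := fun p : E3 => p 0) ⟨fun x y => rfl, fun c x => rfl⟩ 6
  have h1 : ∀ i : Fin 3, Convex ℝ {p : E3 | |p i| < θ * (p 0 + 1 / 100)} := by
    intro i
    have e : {p : E3 | |p i| < θ * (p 0 + 1 / 100)} =
        {p : E3 | p i - θ * p 0 < θ * (1 / 100)} ∩ {p : E3 | -p i - θ * p 0 < θ * (1 / 100)} := by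
      ext p
      simp only [mem_ofPred_eq, mem_inter_iff, abs_lt]
      constructor
      · rintro ⟨a, b⟩
        constructor <;> linarith
      · rintro ⟨a, b⟩
        constructor <;> linarith
    rw [e]
    apply Convex.inter
    · exact convex_halfSpace_lt (f := fun p : E3 => p i - θ * p 0) ⟨fun x y => by simp; ring, fun c x => by simp; ring⟩ _
    · exact convex_halfSpace_lt (f := fun p : E3 => -p i - θ * p 0) ⟨fun x y => by simp; ring, fun c x => by simp; ring⟩ _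
  exact (h1 1).inter ((h1 2).inter h3)

lemma norm_sq_E3 (p : E3) : ‖p‖ ^ 2 = p 0 ^ 2 + p 1 ^ 2 + p 2 ^ 2 := by
  rw [EuclideanSpace.real_norm_sq_eq, Fin.sum_univ_three]

variable {θ : ℝ}

lemma pyr_bounds (hθ : 0 < θ) {p : E3} (hp : p ∈ pyr θ) :
    -(1 / 100) < p 0 ∧ p 0 < 6 ∧ |p 1| < θ * (601 / 100) ∧ |p 2| < θ * (601 / 100) := by
  obtain ⟨h1, h2, h3⟩ := hp
  have h4 : 0 < θ * (p 0 + 1 / 100) := lt_of_le_of_lt (abs_nonneg _) h1
  have h5 : 0 < p 0 + 1 / 100 := by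
    by_contra hcon
    push Not at hcon
    nlinarith
  have h6 : θ * (p 0 + 1 / 100) ≤ θ * (601 / 100) := by
    apply mul_le_mul_of_nonneg_left _ hθ.le
    linarith
  exact ⟨by linarith, h3, by linarith, by linarith⟩

lemma isBounded_pyr (hθ : 0 < θ) (hθ1 : θ ≤ 1 / 1000000) : Bornology.IsBounded (pyr θ) := by
  apply (Metric.isBounded_closedBall (x := (0 : E3)) (r := 10)).subset
  intro p hp
  obtain ⟨h0, h0', h1, h2⟩ := pyr_bounds hθ hp
  rw [mem_closedBall_zero_iff]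
  have := norm_sq_E3 p
  rw [abs_lt] at h1 h2
  nlinarith [norm_nonneg p, h1.1, h1.2, h2.1, h2.2]

lemma pyr_R (hθ : 0 < θ) (hθ1 : θ ≤ 1 / 1000000) : ∀ r ∈ pyr θ, ∀ ω : S2, ∀ x : ℝ, 0 < x → r + x • (ω : E3) ∈ pyr θ → x < 7 := by
  intro r hr ω x hx hmem
  obtain ⟨a0, a0', a1, a2⟩ := pyr_bounds hθ hr
  obtain ⟨b0, b0', b1, b2⟩ := pyr_bounds hθ hmem
  simp only [PiLp.add_apply, PiLp.smul_apply, smul_eq_mul] at b0 b0' b1 b2
  have hn : ((ω : E3) 0) ^ 2 + ((ω : E3) 1) ^ 2 + ((ω : E3) 2) ^ 2 = 1 := by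
    rw [← norm_sq_E3, norm_S2]; norm_num
  have e : x ^ 2 = (x * (ω : E3) 0) ^ 2 + (x * (ω : E3) 1) ^ 2 + (x * (ω : E3) 2) ^ 2 := by
    calc x ^ 2 = x ^ 2 * (((ω : E3) 0) ^ 2 + ((ω : E3) 1) ^ 2 + ((ω : E3) 2) ^ 2) := by rw [hn, mul_one]
      _ = _ := by ring
  rw [abs_lt] at a1 a2 b1 b2
  have hθ' : θ * (601 / 100) ≤ 1 / 1000 := by linarith
  have c0 : |x * (ω : E3) 0| ≤ 601 / 100 := by
    rw [abs_le]; constructor <;> linarith
  have c1 : |x * (ω : E3) 1| ≤ 1 / 10 := by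
    rw [abs_le]; constructor <;> linarith [a1.1, a1.2, b1.1, b1.2]
  have c2 : |x * (ω : E3) 2| ≤ 1 / 10 := by
    rw [abs_le]; constructor <;> linarith [a2.1, a2.2, b2.1, b2.2]
  have d0 : (x * (ω : E3) 0) ^ 2 ≤ (601 / 100) ^ 2 := by rw [← sq_abs]; gcongr
  have d1 : (x * (ω : E3) 1) ^ 2 ≤ (1 / 10) ^ 2 := by rw [← sq_abs]; gcongr
  have d2 : (x * (ω : E3) 2) ^ 2 ≤ (1 / 10) ^ 2 := by rw [← sq_abs]; gcongr
  nlinarith

/-- uniform bound for the averaged first collision term -/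
lemma avgG_le (hθ : 0 < θ) (hθ1 : θ ≤ 1 / 1000000) : ∀ r ∈ pyr θ, avg (G (pyr θ) 7) r ≤ 37 * θ := by
  intro r hr
  have hV := (isOpen_pyr θ).measurableSet
  have hup : avg (G (pyr θ) 7) r ≤ 3 * (θ * (1202 / 100)) + 2 * θ ^ 2 := by
    apply avg_upper (G_bm hV (by norm_num)) (by positivity) hθ.le
    intro ω
    by_cases hs : sv ω < θ
    · rw [indicator_of_mem (by exact hs)]
      have h1 := G_le_one (V := pyr θ) (R := 7) (by norm_num) (r, ω)
      have h2 : 0 ≤ θ * (1202 / 100) * (sv ω)⁻¹ := mul_nonneg (by positivity) (inv_nonneg.mpr (sv_nonneg ω))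
      linarith [le_abs_self (G (pyr θ) 7 (r, ω))]
    · rw [indicator_of_notMem (by exact hs), add_zero]
      push Not at hs
      have hs0 : 0 < sv ω := lt_of_lt_of_le hθ hs
      rw [G_eq (isOpen_pyr θ) (convex_pyr θ) (by norm_num) (pyr_R hθ hθ1) hr ω]
      have hD : exitDist (pyr θ) r ω ≤ θ * (1202 / 100) * (sv ω)⁻¹ := by
        apply exit_le_of (by positivity)
        intro x hx hmem
        obtain ⟨a0, a0', a1, a2⟩ := pyr_bounds hθ hr
        obtain ⟨b0, b0', b1, b2⟩ := pyr_bounds hθ hmem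
        simp only [PiLp.add_apply, PiLp.smul_apply, smul_eq_mul] at b0 b0' b1 b2
        rw [← div_eq_mul_inv, le_div_iff₀ hs0]
        rw [abs_lt] at a1 a2 b1 b2
        have e1 : x * |(ω : E3) 1| ≤ θ * (1202 / 100) := by
          rw [← abs_of_pos hx, ← abs_mul, abs_le]
          constructor <;> linarith [a1.1, a1.2, b1.1, b1.2]
        have e2 : x * |(ω : E3) 2| ≤ θ * (1202 / 100) := by
          rw [← abs_of_pos hx, ← abs_mul, abs_le]
          constructor <;> linarith [a2.1, a2.2, b2.1, b2.2]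
        unfold sv
        rcases max_cases |(ω : E3) 1| |(ω : E3) 2| with h | h
        · rw [h.1]; exact e1
        · rw [h.1]; exact e2
      have := Real.one_sub_le_exp_neg (exitDist (pyr θ) r ω)
      linarith
  nlinarith

/-- the axis point -/
noncomputable def ax (x : ℝ) : E3 := x • (EuclideanSpace.single 0 1 : E3)

lemma ax_0 (x : ℝ) : ax x 0 = x := by simp [ax]
lemma ax_1 (x : ℝ) : ax x 1 = 0 := by simp [ax]
lemma ax_2 (x : ℝ) : ax x 2 = 0 := by simp [ax]

lemma ax_mem (hθ : 0 < θ) {x : ℝ} (hx0 : 0 ≤ x) (hx : x < 6) : ax x ∈ pyr θ := by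
  refine ⟨?_, ?_, ?_⟩
  · rw [ax_1, ax_0, abs_zero]; positivity
  · rw [ax_2, ax_0, abs_zero]; positivity
  · rw [ax_0]; exact hx

lemma avgG_ax_upper (hθ : 0 < θ) (hθ1 : θ ≤ 1 / 1000000) {x : ℝ} (hx0 : 0 ≤ x) (hx1 : x ≤ 1) :
    avg (G (pyr θ) 7) (ax x) ≤ 6 * θ * x + (6 * θ * (1 / 100) + 8 * θ ^ 2) := by
  have hr := ax_mem (θ := θ) hθ hx0 (by linarith : x < 6)
  have hV := (isOpen_pyr θ).measurableSet
  have hup : avg (G (pyr θ) 7) (ax x) ≤ 3 * (2 * θ * (x + 1 / 100)) + 2 * (2 * θ) ^ 2 := by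
    apply avg_upper (G_bm hV (by norm_num)) (by positivity) (by positivity)
    intro ω
    by_cases hs : sv ω < 2 * θ
    · rw [indicator_of_mem (by exact hs)]
      have h1 := G_le_one (V := pyr θ) (R := 7) (by norm_num) (ax x, ω)
      have h2 : 0 ≤ 2 * θ * (x + 1 / 100) * (sv ω)⁻¹ := mul_nonneg (by positivity) (inv_nonneg.mpr (sv_nonneg ω))
      linarith [le_abs_self (G (pyr θ) 7 (ax x, ω))]
    · rw [indicator_of_notMem (by exact hs), add_zero]
      push Not at hs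
      have hs0 : 0 < sv ω := lt_of_lt_of_le (by positivity) hs
      rw [G_eq (isOpen_pyr θ) (convex_pyr θ) (by norm_num) (pyr_R hθ hθ1) hr ω]
      have hD : exitDist (pyr θ) (ax x) ω ≤ 2 * θ * (x + 1 / 100) * (sv ω)⁻¹ := by
        apply exit_le_of (by positivity)
        intro t ht hmem
        obtain ⟨b1, b2, b0⟩ := hmem
        simp only [PiLp.add_apply, PiLp.smul_apply, smul_eq_mul, ax_0, ax_1, ax_2, zero_add] at b0 b1 b2
        rw [abs_mul, abs_of_pos ht] at b1 b2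
        rw [← div_eq_mul_inv, le_div_iff₀ hs0]
        have hω0 : (ω : E3) 0 ≤ 1 := by
          have := abs_coord_le (ω : E3) 0
          rw [norm_S2] at this
          exact (le_abs_self _).trans this
        have e0 : θ * (x + t * (ω : E3) 0 + 1 / 100) ≤ θ * (x + 1 / 100) + θ * t := by
          nlinarith [mul_nonneg hθ.le ht.le, mul_le_mul_of_nonneg_left hω0 (mul_nonneg hθ.le ht.le)]
        have e3 : t * sv ω < θ * (x + 1 / 100) + θ * t := by
          unfold sv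
          rcases max_cases |(ω : E3) 1| |(ω : E3) 2| with h | h
          · rw [h.1]; linarith
          · rw [h.1]; linarith
        nlinarith
      have := Real.one_sub_le_exp_neg (exitDist (pyr θ) (ax x) ω)
      linarith
  calc _ ≤ _ := hup
    _ = _ := by ring

lemma avgG_ax_lower (hθ : 0 < θ) (hθ1 : θ ≤ 1 / 1000000) {x : ℝ} (hx0 : 1 ≤ x) (hx1 : x ≤ 5) :
    99 / 100 * θ * x ≤ avg (G (pyr θ) 7) (ax x) := by
  have hr := ax_mem (θ := θ) hθ (by linarith : 0 ≤ x) (by linarith : x < 6)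
  have hV := (isOpen_pyr θ).measurableSet
  apply avg_lower (G_bm hV (by norm_num))
  intro ω
  rw [G_eq (isOpen_pyr θ) (convex_pyr θ) (by norm_num) (pyr_R hθ hθ1) hr ω]
  have hω0 := abs_coord_le (ω : E3) 0
  have hω1 := abs_coord_le (ω : E3) 1
  have hω2 := abs_coord_le (ω : E3) 2
  rw [norm_S2] at hω0 hω1 hω2
  set D0 := θ * x / (1 + θ) with hD0
  have h1θ : 0 < 1 + θ := by linarith
  have hD0pos : 0 < D0 := by positivity
  have hD0le : D0 ≤ 5 * θ := by
    rw [hD0, div_le_iff₀ h1θ]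
    nlinarith
  have hD : D0 ≤ exitDist (pyr θ) (ax x) ω := by
    apply exit_ge_of ⟨7, exit_nonempty (by norm_num) (pyr_R hθ hθ1) hr ω⟩
    intro t ht htD
    have hkey : t + θ * t < θ * x := by
      rw [hD0, lt_div_iff₀ h1θ] at htD
      linarith
    have ht5 : t < 1 / 10 := by linarith
    refine ⟨?_, ?_, ?_⟩
    · simp only [PiLp.add_apply, PiLp.smul_apply, smul_eq_mul, ax_0, ax_1, zero_add]
      rw [abs_mul, abs_of_pos ht]
      have a1 := neg_abs_le ((ω : E3) 0)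
      nlinarith [mul_pos hθ ht, mul_le_mul_of_nonneg_left hω1 ht.le, mul_le_mul_of_nonneg_left hω0 (mul_pos hθ ht).le, mul_le_mul_of_nonneg_left a1 (mul_pos hθ ht).le]
    · simp only [PiLp.add_apply, PiLp.smul_apply, smul_eq_mul, ax_0, ax_2, zero_add]
      rw [abs_mul, abs_of_pos ht]
      have a1 := neg_abs_le ((ω : E3) 0)
      nlinarith [mul_pos hθ ht, mul_le_mul_of_nonneg_left hω2 ht.le, mul_le_mul_of_nonneg_left hω0 (mul_pos hθ ht).le, mul_le_mul_of_nonneg_left a1 (mul_pos hθ ht).le]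
    · simp only [PiLp.add_apply, PiLp.smul_apply, smul_eq_mul, ax_0]
      have a1 := le_abs_self ((ω : E3) 0)
      nlinarith
  have h1 : Real.exp (-exitDist (pyr θ) (ax x) ω) ≤ Real.exp (-D0) := Real.exp_le_exp.mpr (by linarith)
  have h2 : Real.exp (-D0) ≤ 1 / (1 + D0) := by
    rw [Real.exp_neg, ← one_div]
    apply one_div_le_one_div_of_le (by linarith)
    linarith [Real.add_one_le_exp D0]
  have h3 : 99 / 100 * θ * x ≤ 1 - 1 / (1 + D0) := by
    have e : 1 - 1 / (1 + D0) = D0 / (1 + D0) := by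
      field_simp
      ring
    rw [e, le_div_iff₀ (by linarith)]
    have e2 : D0 * (1 + θ) = θ * x := by rw [hD0]; field_simp
    have e3 : θ * x * (1 + D0) * (99 / 100) ≤ D0 := by
      rw [← e2]
      have : (1 + θ) * (1 + D0) * (99 / 100) ≤ 1 := by nlinarith
      calc D0 * (1 + θ) * (1 + D0) * (99 / 100) = D0 * ((1 + θ) * (1 + D0) * (99 / 100)) := by ring
        _ ≤ D0 * 1 := by gcongr
        _ = D0 := mul_one _
    linarith
  linarith

/-- the direction along the axis -/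
noncomputable def e0 : S2 := ⟨EuclideanSpace.single 0 1, by simp⟩

lemma exit_axis (hθ : 0 < θ) (hθ1 : θ ≤ 1 / 1000000) : exitDist (pyr θ) 0 e0 = 6 := by
  have h0 : ∀ x : ℝ, (0 : E3) + x • (e0 : E3) = ax x := fun x => by rw [zero_add]; rfl
  have hr0 : (0 : E3) ∈ pyr θ := by
    have := ax_mem (θ := θ) hθ le_rfl (by norm_num : (0 : ℝ) < 6)
    simpa [ax] using this
  apply le_antisymm
  · apply exit_le_of (by norm_num)
    intro x _ hmem
    rw [h0] at hmem
    have := hmem.2.2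
    rw [ax_0] at this
    exact this.le
  · apply exit_ge_of ⟨7, exit_nonempty (by norm_num) (pyr_R hθ hθ1) hr0 e0⟩
    intro x hx hx6
    rw [h0]
    exact ax_mem hθ hx.le hx6

lemma main_term (hθ : 0 < θ) (hθ1 : θ ≤ 1 / 1000000) :
    K (pyr θ) 7 ell (avg (G (pyr θ) 7)) (0, e0) ≤ -(24 / 100) * θ := by
  have hV := (isOpen_pyr θ).measurableSet
  have hr0 : (0 : E3) ∈ pyr θ := by
    have := ax_mem (θ := θ) hθ le_rfl (by norm_num : (0 : ℝ) < 6)
    simpa [ax] using this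
  have hbm := avg_bm (G_bm hV (by norm_num : (0 : ℝ) ≤ 7))
  rw [K_eq (isOpen_pyr θ) (convex_pyr θ) (by norm_num) (pyr_R hθ hθ1) hr0 e0 continuous_ell hbm, exit_axis hθ hθ1]
  have h0 : ∀ x : ℝ, (0 : E3) + x • (e0 : E3) = ax x := fun x => by rw [zero_add]; rfl
  simp only [h0]
  set φ := avg (G (pyr θ) 7) with hφ
  have hint : ∀ a b : ℝ, IntervalIntegrable (fun x => ell x * φ (ax x)) volume a b := by
    intro a b
    have := K_intble MeasurableSet.univ continuous_ell hbm ((0 : E3), e0) a b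
    simp only [indicator_univ, h0] at this
    exact this
  have hlin : ∀ α β a b : ℝ, IntervalIntegrable (fun x => ell x * (α * x + β)) volume a b := by
    intro α β a b
    exact (continuous_ell.mul (by fun_prop)).intervalIntegrable _ _
  rw [← intervalIntegral.integral_add_adjacent_intervals (hint 0 1) (hint 1 6),
    ← intervalIntegral.integral_add_adjacent_intervals (hint 1 5) (hint 5 6)]
  have i1 : ∫ x in (0 : ℝ)..1, ell x * φ (ax x) ≤ ∫ x in (0 : ℝ)..1, ell x * (6 * θ * x + (6 * θ * (1 / 100) + 8 * θ ^ 2)) := by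
    apply intervalIntegral.integral_mono_on zero_le_one (hint _ _) (hlin _ _ _ _)
    intro x hx
    have he : 0 ≤ ell x := mul_nonneg (by linarith [hx.2]) (Real.exp_pos _).le
    exact mul_le_mul_of_nonneg_left (avgG_ax_upper hθ hθ1 hx.1 hx.2) he
  have i2 : ∫ x in (1 : ℝ)..5, ell x * φ (ax x) ≤ ∫ x in (1 : ℝ)..5, ell x * (99 / 100 * θ * x + 0) := by
    apply intervalIntegral.integral_mono_on (by norm_num) (hint _ _) (hlin _ _ _ _)
    intro x hx
    have he : ell x ≤ 0 := mul_nonpos_of_nonpos_of_nonneg (by linarith [hx.1]) (Real.exp_pos _).le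
    rw [add_zero]
    exact mul_le_mul_of_nonpos_left (avgG_ax_lower hθ hθ1 hx.1 hx.2) he
  have i3 : ∫ x in (5 : ℝ)..6, ell x * φ (ax x) ≤ 0 := by
    have : ∫ x in (5 : ℝ)..6, ell x * φ (ax x) ≤ ∫ x in (5 : ℝ)..6, (0 : ℝ) := by
      apply intervalIntegral.integral_mono_on (by norm_num) (hint _ _) (by simp)
      intro x hx
      have he : ell x ≤ 0 := mul_nonpos_of_nonpos_of_nonneg (by linarith [hx.1]) (Real.exp_pos _).le
      have hp : 0 ≤ φ (ax x) := avg_lower (G_bm hV (by norm_num)) fun ω => G_nonneg (by norm_num) _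
      exact mul_nonpos_of_nonpos_of_nonneg he hp
    simpa using this
  rw [integral_ell_lin] at i1 i2
  have x1 : Real.exp (-1) < 0.3678794412 := Real.exp_neg_one_lt_d9
  have x1' : 0 < Real.exp (-1) := Real.exp_pos _
  have x5 : Real.exp (-5) = Real.exp (-1) ^ 5 := by
    rw [← Real.exp_nat_mul]; norm_num
  have x5' : Real.exp (-5) ≤ 0.0068 := by
    rw [x5]
    calc Real.exp (-1) ^ 5 ≤ 0.3678794412 ^ 5 := by gcongr
      _ ≤ 0.0068 := by norm_num
  simp only [neg_zero, Real.exp_zero] at i1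
  have x5p : 0 < Real.exp (-5) := Real.exp_pos _
  have y1 : θ * Real.exp (-1) ≤ θ * 0.3678794412 := mul_le_mul_of_nonneg_left x1.le hθ.le
  have y5 : θ * Real.exp (-5) ≤ θ * 0.0068 := mul_le_mul_of_nonneg_left x5' hθ.le
  have y2 : θ ^ 2 * Real.exp (-1) ≤ θ * (1 / 1000000) := by
    calc θ ^ 2 * Real.exp (-1) ≤ θ ^ 2 * 1 := by
          gcongr; linarith
      _ = θ * θ := by ring
      _ ≤ _ := by gcongr
  nlinarith

end Pool.Agent.Lib_helper53.Transport
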