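import Mathlib

namespace Pool.Agent.Lib_helper53.WNH

/-- `T` is numerically hypercyclic: for some `(x, f)` with `‖x‖ = ‖f‖ = f x = 1` the set
`{f (T ^ k x) : k ≥ 0}` is dense in `ℂ`. -/
def NumericallyHypercyclic {X : Type} [NormedAddCommGroup X] [NormedSpace ℂ X] (T : X →L[ℂ] X) :
    Prop :=
  ∃ (x : X) (f : X →L[ℂ] ℂ), ‖x‖ = 1 ∧ ‖f‖ = 1 ∧ f x = 1 ∧
    Dense (Set.range fun k : ℕ => f ((T ^ k) x))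

/-- `T` is weakly numerically hypercyclic: it is similar, through a linear topological isomorphism
onto a Banach space, to a numerically hypercyclic operator. -/
def WeaklyNumericallyHypercyclic {X : Type} [NormedAddCommGroup X] [NormedSpace ℂ X]
    (T : X →L[ℂ] X) : Prop :=
  ∃ (Y : Type) (_ : NormedAddCommGroup Y) (_ : NormedSpace ℂ Y) (_ : CompleteSpace Y)
    (J : X ≃L[ℂ] Y) (S : Y →L[ℂ] Y), NumericallyHypercyclic S ∧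
      ∀ x, T x = J.symm (S (J x))

/-- Two complex numbers are independent: no nontrivial product of integer powers equals one. -/
def Independent (z₁ z₂ : ℂ) : Prop := ∀ m₁ m₂ : ℤ, z₁ ^ m₁ * z₂ ^ m₂ = 1 → m₁ = 0 ∧ m₂ = 0

/-- The direction `z / |z|`. -/
noncomputable def dir (z : ℂ) : ℂ := z / (‖z‖ : ℂ)

section

variable {X : Type} [NormedAddCommGroup X] [NormedSpace ℂ X] (T : X →L[ℂ] X)

/-- `μ` is an eigenvalue of `T`. -/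
def IsEigenvalue (μ : ℂ) : Prop := Module.End.HasEigenvalue (T : Module.End ℂ X) μ

/-- `ker (T - μ I)² ≠ ker (T - μ I)`. -/
def IsDefectiveAt (μ : ℂ) : Prop :=
  LinearMap.ker (((T : Module.End ℂ X) - μ • (1 : Module.End ℂ X)) ^ 2) ≠
    LinearMap.ker ((T : Module.End ℂ X) - μ • (1 : Module.End ℂ X))

/-- Condition (C1). -/
def C1 : Prop := ∃ μ₁ μ₂ : ℂ, IsEigenvalue T μ₁ ∧ IsEigenvalue T μ₂ ∧ ‖μ₁‖ = ‖μ₂‖ ∧ 1 < ‖μ₂‖ ∧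
  Independent (dir μ₁) (dir μ₂)

/-- Condition (C2). -/
def C2 : Prop := ∃ μ₁ μ₂ : ℂ, ‖μ₁‖ = 1 ∧ ‖μ₂‖ = 1 ∧ Independent μ₁ μ₂ ∧
  IsDefectiveAt T μ₁ ∧ IsDefectiveAt T μ₂

/-- Condition (C3). -/
def C3 : Prop := ∃ μ₁ μ₂ μ₃ : ℂ, IsEigenvalue T μ₁ ∧ IsEigenvalue T μ₂ ∧ IsEigenvalue T μ₃ ∧
  ‖μ₁‖ = ‖μ₂‖ ∧ ‖μ₃‖ < ‖μ₂‖ ∧ 1 < ‖μ₃‖ ∧ ¬ IsOfFinOrder (μ₁ / μ₂) ∧ Independent (dir μ₁) (dir μ₃)

/-- Condition (C4). -/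
def C4 : Prop := ∃ μ₁ μ₂ μ₃ : ℂ, IsEigenvalue T μ₁ ∧ IsEigenvalue T μ₂ ∧ ‖μ₃‖ = 1 ∧
  IsDefectiveAt T μ₃ ∧ ‖μ₁‖ = ‖μ₂‖ ∧ 1 < ‖μ₂‖ ∧ ¬ IsOfFinOrder (μ₁ / μ₂) ∧
  Independent (dir μ₁) μ₃

end

end Pool.Agent.Lib_helper53.WNH
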