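import Mathlib
import Pool.Agent.Lib_helper53.WNHDefs

open Filter Topology Polynomial

namespace Pool.Agent.Lib_helper53.WNH

/-- Exponential polynomials `∑ c k ^ j e ^ (s k)` with real exponents `s`. -/
abbrev EP := AddMonoidAlgebra ℂ (ℝ × ℕ)

/-- The function `k ^ j e ^ (s k)`. -/
noncomputable def mon (k : ℕ) : Multiplicative (ℝ × ℕ) →* ℂ where
  toFun g := Complex.exp ((g.toAdd.1 : ℂ) * k) * (k : ℂ) ^ g.toAdd.2
  map_one' := by simp
  map_mul' g h := by
    simp only [toAdd_mul, Prod.fst_add, Prod.snd_add]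
    push_cast
    rw [add_mul, Complex.exp_add, pow_add]
    ring

/-- Evaluation of an exponential polynomial at `k`. -/
noncomputable def ev (k : ℕ) : EP →+* ℂ :=
  AddMonoidAlgebra.liftNCRingHom (RingHom.id ℂ) (mon k) (fun _ _ => Commute.all _ _)

lemma ev_single (k : ℕ) (g : ℝ × ℕ) (c : ℂ) :
    ev k (AddMonoidAlgebra.single g c) = c * (Complex.exp ((g.1 : ℂ) * k) * (k : ℂ) ^ g.2) := by
  unfold ev
  rw [AddMonoidAlgebra.liftNCRingHom_single]
  rfl

/-- The exponential polynomial `q(k) ρ ^ k`. -/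
noncomputable def rep (q : ℂ[X]) (ρ : ℝ) : EP :=
  ∑ j ∈ q.support, AddMonoidAlgebra.single (Real.log ρ, j) (q.coeff j)

lemma ev_rep (q : ℂ[X]) {ρ : ℝ} (hρ : 0 < ρ) (k : ℕ) :
    ev k (rep q ρ) = q.eval (k : ℂ) * (ρ : ℂ) ^ k := by
  unfold rep
  rw [map_sum, Polynomial.eval_eq_sum, Polynomial.sum_def, Finset.sum_mul]
  apply Finset.sum_congr rfl
  intro j _
  rw [ev_single]
  simp only
  rw [mul_comm ((Real.log ρ : ℝ) : ℂ), Complex.exp_nat_mul, ← Complex.ofReal_exp, Real.exp_log hρ]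
  ring

lemma tendsto_mon_ratio (s t : ℝ) (i j : ℕ) (h : s < t ∨ (s = t ∧ i < j)) :
    Tendsto (fun k : ℕ => (Complex.exp ((s : ℂ) * k) * (k : ℂ) ^ i) /
      (Complex.exp ((t : ℂ) * k) * (k : ℂ) ^ j)) atTop (𝓝 0) := by
  rw [tendsto_zero_iff_norm_tendsto_zero]
  have hn : ∀ k : ℕ, ‖(Complex.exp ((s : ℂ) * k) * (k : ℂ) ^ i) /
      (Complex.exp ((t : ℂ) * k) * (k : ℂ) ^ j)‖ = (k : ℝ) ^ i / (k : ℝ) ^ j * Real.exp (-((t - s) * k)) := by
    intro k
    rw [norm_div, norm_mul, norm_mul, Complex.norm_exp, Complex.norm_exp, norm_pow, norm_pow,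
      Complex.norm_natCast]
    have e1 : ((s : ℂ) * k).re = s * k := by simp
    have e2 : ((t : ℂ) * k).re = t * k := by simp
    rw [e1, e2, show -((t - s) * (k : ℝ)) = s * k - t * k by ring, Real.exp_sub]
    by_cases hk : (k : ℝ) ^ j = 0
    · rw [hk]; simp
    · field_simp
  simp only [hn]
  rcases h with h | ⟨h, hij⟩
  · have hd : 0 < t - s := by linarith
    have h1 : Tendsto (fun k : ℕ => (k : ℝ) ^ i * Real.exp (-((t - s) * k))) atTop (𝓝 0) := by
      have h2 := (Real.tendsto_pow_mul_exp_neg_atTop_nhds_zero i)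
      have h3 : Tendsto (fun k : ℕ => (t - s) * (k : ℝ)) atTop atTop :=
        tendsto_natCast_atTop_atTop.const_mul_atTop hd
      have h4 := (h2.comp h3).const_mul (((t - s) ^ i)⁻¹)
      simp only [mul_zero, Function.comp] at h4
      refine h4.congr ?_
      intro k
      rw [mul_pow]
      have : (t - s) ^ i ≠ 0 := by positivity
      field_simp
    refine squeeze_zero_norm' ?_ h1
    filter_upwards [eventually_ge_atTop 1] with k hk
    have hk1 : (1 : ℝ) ≤ k := by exact_mod_cast hk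
    rw [Real.norm_of_nonneg (by positivity)]
    gcongr
    exact div_le_self (by positivity) (one_le_pow₀ hk1)
  · subst h
    simp only [sub_self, zero_mul, neg_zero, Real.exp_zero, mul_one]
    have h5 : Tendsto (fun k : ℕ => ((k : ℝ))⁻¹ ^ (j - i)) atTop (𝓝 (0 ^ (j - i))) :=
      (tendsto_inv_atTop_nhds_zero_nat (𝕜 := ℝ)).pow (j - i)
    rw [zero_pow (by omega)] at h5
    refine h5.congr' ?_
    filter_upwards [eventually_ge_atTop 1] with k hk
    have hk1 : (k : ℝ) ≠ 0 := by positivity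
    rw [inv_pow, eq_comm, div_eq_iff (pow_ne_zero _ hk1), eq_comm, inv_mul_eq_iff_eq_mul₀ (pow_ne_zero _ hk1),
      ← pow_add]
    congr 1
    omega

lemma ev_eq (k : ℕ) (x : EP) : ev k x =
    ∑ g ∈ x.coeff.support, x.coeff g * (Complex.exp ((g.1 : ℂ) * k) * (k : ℂ) ^ g.2) := by
  conv_lhs => rw [← AddMonoidAlgebra.sum_coeff_single x]
  rw [Finsupp.sum, map_sum]
  apply Finset.sum_congr rfl
  intro g _
  rw [ev_single]

/-- Limit of a normalised exponential polynomial. -/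
lemma tendsto_ev (x : EP) (g : ℝ × ℕ)
    (h : ∀ g' ∈ x.coeff.support, g' ≠ g → g'.1 < g.1 ∨ (g'.1 = g.1 ∧ g'.2 < g.2)) :
    Tendsto (fun k : ℕ => ev k x / (Complex.exp ((g.1 : ℂ) * k) * (k : ℂ) ^ g.2)) atTop
      (𝓝 (x.coeff g)) := by
  have h1 : ∀ k : ℕ, ev k x / (Complex.exp ((g.1 : ℂ) * k) * (k : ℂ) ^ g.2) =
      ∑ g' ∈ x.coeff.support, x.coeff g' * ((Complex.exp ((g'.1 : ℂ) * k) * (k : ℂ) ^ g'.2) /
        (Complex.exp ((g.1 : ℂ) * k) * (k : ℂ) ^ g.2)) := by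
    intro k
    rw [ev_eq, Finset.sum_div]
    apply Finset.sum_congr rfl
    intro g' _
    rw [mul_div_assoc]
  have h2 : x.coeff g = ∑ g' ∈ x.coeff.support, (if g' = g then x.coeff g' else 0) := by
    rw [Finset.sum_ite_eq']
    split_ifs with h3
    · rfl
    · exact Finsupp.notMem_support_iff.mp h3
  simp only [h1]
  rw [h2]
  apply tendsto_finsetSum
  intro g' hg'
  by_cases hgg : g' = g
  · subst hgg
    simp only [if_true]
    have : Tendsto (fun k : ℕ => x.coeff g' * 1) atTop (𝓝 (x.coeff g')) := by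
      rw [mul_one]; exact tendsto_const_nhds
    refine this.congr' ?_
    filter_upwards [eventually_ge_atTop 1] with k hk
    rw [div_self]
    have hk1 : (k : ℂ) ≠ 0 := by exact_mod_cast (by omega : k ≠ 0)
    exact mul_ne_zero (Complex.exp_ne_zero _) (pow_ne_zero _ hk1)
  · simp only [hgg, if_false]
    have := (tendsto_mon_ratio g'.1 g.1 g'.2 g.2 (h g' hg' hgg)).const_mul (x.coeff g')
    rwa [mul_zero] at this

/-- Dimension count: two polynomials in one variable satisfy a nontrivial relation. -/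
lemma exists_relation {A : Type*} [CommRing A] [Nontrivial A] (P P' : A[X]) (d : ℕ) (hd : 1 ≤ d)
    (hP : P.natDegree ≤ 2 * d) (hP' : P'.natDegree ≤ 2 * d) :
    ∃ x : Fin (4 * d + 1) × Fin (4 * d + 1) → A, x ≠ 0 ∧
      ∑ i, C (x i) * (P ^ (i.1 : ℕ) * P' ^ (i.2 : ℕ) * X ^ (d * (8 * d - i.1 - i.2))) = 0 := by
  set W : Fin (4 * d + 1) × Fin (4 * d + 1) → A[X] := fun i =>
    P ^ (i.1 : ℕ) * P' ^ (i.2 : ℕ) * X ^ (d * (8 * d - i.1 - i.2)) with hW
  have hdeg : ∀ i, (W i).natDegree ≤ 16 * d * d := by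
    intro i
    have h1 : (i.1 : ℕ) ≤ 4 * d := by omega
    have h2 : (i.2 : ℕ) ≤ 4 * d := by omega
    refine (natDegree_mul_le).trans ?_
    refine (Nat.add_le_add (natDegree_mul_le.trans (Nat.add_le_add natDegree_pow_le natDegree_pow_le))
      (natDegree_X_pow_le _)).trans ?_
    have h3 : (i.1 : ℕ) * P.natDegree ≤ i.1 * (2 * d) := Nat.mul_le_mul_left _ hP
    have h4 : (i.2 : ℕ) * P'.natDegree ≤ i.2 * (2 * d) := Nat.mul_le_mul_left _ hP'
    obtain ⟨e, he⟩ : ∃ e, 8 * d = i.1 + i.2 + e := ⟨8 * d - i.1 - i.2, by omega⟩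
    have h5 : 8 * d - i.1 - i.2 = e := by omega
    rw [h5]
    nlinarith
  set Φ : (Fin (4 * d + 1) × Fin (4 * d + 1) → A) →ₗ[A] (Fin (16 * d * d + 1) → A) :=
    { toFun := fun x n => ∑ i, x i * (W i).coeff n
      map_add' := by
        intro x y
        ext n
        simp only [Pi.add_apply, add_mul, Finset.sum_add_distrib]
      map_smul' := by
        intro c x
        ext n
        simp only [Pi.smul_apply, smul_eq_mul, Finset.mul_sum, RingHom.id_apply, mul_assoc] } with hΦ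
  have hninj : ¬ Function.Injective Φ := by
    intro hinj
    have := card_le_of_injective A Φ hinj
    simp only [Fintype.card_prod, Fintype.card_fin] at this
    nlinarith
  obtain ⟨x, hx1, hx2⟩ : ∃ x, Φ x = 0 ∧ x ≠ 0 := by
    by_contra hcon
    push Not at hcon
    apply hninj
    rw [injective_iff_map_eq_zero]
    exact hcon
  refine ⟨x, hx2, ?_⟩
  change ∑ i, C (x i) * W i = 0
  ext n
  rw [finsetSum_coeff, coeff_zero]
  simp only [coeff_C_mul]
  by_cases hn : n < 16 * d * d + 1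
  · exact congrFun hx1 ⟨n, hn⟩
  · apply Finset.sum_eq_zero
    intro i _
    rw [coeff_eq_zero_of_natDegree_lt, mul_zero]
    have := hdeg i
    omega

open ComplexConjugate in
/-- Elimination: the cluster points of `v` lie on a fixed real algebraic curve. -/
lemma elimination {ι : Type*} (s : Finset ι) (q : ι → ℂ[X]) (ρ : ι → ℝ) (hρ : ∀ i ∈ s, 0 < ρ i)
    (a : ι → ℤ) (z : ℕ → ℂ) (hz : ∀ l, ‖z l‖ = 1) (v : ℕ → ℂ)
    (hv : ∀ l, v l = ∑ i ∈ s, (q i).eval (l : ℂ) * (ρ i : ℂ) ^ l * (z l) ^ (a i)) :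
    ∃ (m : ℕ) (c : Fin m × Fin m → ℂ), c ≠ 0 ∧
      ∀ α, MapClusterPt α atTop v → ∑ i, c i * (α ^ (i.1 : ℕ) * (conj α) ^ (i.2 : ℕ)) = 0 := by
  classical
  set d : ℕ := 1 + ∑ i ∈ s, (a i).natAbs with hd
  have hd1 : 1 ≤ d := by omega
  have had : ∀ i ∈ s, (a i).natAbs ≤ d := by
    intro i hi
    have := Finset.single_le_sum (f := fun i => (a i).natAbs) (fun _ _ => Nat.zero_le _) hi
    omega
  set P : EP[X] := ∑ i ∈ s, C (rep (q i) (ρ i)) * X ^ (a i + d).toNat with hP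
  set P' : EP[X] := ∑ i ∈ s, C (rep ((q i).map (starRingEnd ℂ)) (ρ i)) * X ^ (-(a i) + d).toNat with hP'
  have hPd : P.natDegree ≤ 2 * d := by
    apply natDegree_sum_le_of_forall_le
    intro i hi
    refine (natDegree_C_mul_X_pow_le _ _).trans ?_
    have := had i hi
    omega
  have hPd' : P'.natDegree ≤ 2 * d := by
    apply natDegree_sum_le_of_forall_le
    intro i hi
    refine (natDegree_C_mul_X_pow_le _ _).trans ?_
    have := had i hi
    omega
  have hz0 : ∀ l, z l ≠ 0 := fun l h => by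
    have := hz l
    rw [h, norm_zero] at this
    exact zero_ne_one this
  have hconj : ∀ l, conj (z l) = (z l)⁻¹ := by
    intro l
    rw [Complex.inv_def, Complex.normSq_eq_norm_sq, hz l]
    simp
  have hPe : ∀ l, P.eval₂ (ev l) (z l) = z l ^ d * v l := by
    intro l
    rw [hP, eval₂_finsetSum, hv l, Finset.mul_sum]
    apply Finset.sum_congr rfl
    intro i hi
    rw [eval₂_mul, eval₂_C, eval₂_X_pow, ev_rep _ (hρ i hi)]
    have h1 : z l ^ (a i + d).toNat = z l ^ (a i) * z l ^ d := by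
      rw [← zpow_natCast, Int.toNat_of_nonneg (by have := had i hi; omega), zpow_add₀ (hz0 l), zpow_natCast]
    rw [h1]
    ring
  have hPe' : ∀ l, P'.eval₂ (ev l) (z l) = z l ^ d * conj (v l) := by
    intro l
    rw [hP', eval₂_finsetSum, hv l, map_sum, Finset.mul_sum]
    apply Finset.sum_congr rfl
    intro i hi
    rw [eval₂_mul, eval₂_C, eval₂_X_pow, ev_rep _ (hρ i hi)]
    have h1 : z l ^ (-(a i) + d).toNat = z l ^ (-(a i)) * z l ^ d := by
      rw [← zpow_natCast, Int.toNat_of_nonneg (by have := had i hi; omega), zpow_add₀ (hz0 l), zpow_natCast]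
    have h2 : ((q i).map (starRingEnd ℂ)).eval (l : ℂ) = conj ((q i).eval (l : ℂ)) := by
      rw [← Polynomial.eval₂_at_apply, eval_map, Complex.conj_natCast]
    rw [h1, h2, map_mul, map_mul, map_pow, Complex.conj_ofReal, map_zpow₀, hconj, inv_zpow, zpow_neg]
    ring
  obtain ⟨x, hx0, hx⟩ := exists_relation P P' d hd1 hPd hPd'
  have hrel : ∀ l, ∑ i, ev l (x i) * (v l ^ (i.1 : ℕ) * conj (v l) ^ (i.2 : ℕ)) = 0 := by
    intro l
    have h1 := congrArg (fun p => Polynomial.eval₂ (ev l) (z l) p) hx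
    simp only [eval₂_finsetSum, eval₂_mul, eval₂_C, eval₂_pow, eval₂_X, eval₂_zero, hPe, hPe'] at h1
    have h2 : ∀ i : Fin (4 * d + 1) × Fin (4 * d + 1), ev l (x i) * ((z l ^ d * v l) ^ (i.1 : ℕ) *
        (z l ^ d * conj (v l)) ^ (i.2 : ℕ) * z l ^ (d * (8 * d - i.1 - i.2))) =
        z l ^ (8 * d * d) * (ev l (x i) * (v l ^ (i.1 : ℕ) * conj (v l) ^ (i.2 : ℕ))) := by
      intro i
      have h3 : z l ^ (8 * d * d) = (z l ^ d) ^ (i.1 : ℕ) * (z l ^ d) ^ (i.2 : ℕ) *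
          z l ^ (d * (8 * d - i.1 - i.2)) := by
        rw [← pow_mul, ← pow_mul, ← pow_add, ← pow_add]
        congr 1
        have h4 : (i.1 : ℕ) ≤ 4 * d := by omega
        have h5 : (i.2 : ℕ) ≤ 4 * d := by omega
        obtain ⟨e, he⟩ : ∃ e, 8 * d = i.1 + i.2 + e := ⟨8 * d - i.1 - i.2, by omega⟩
        have h6 : 8 * d - i.1 - i.2 = e := by omega
        rw [h6, he]
        ring
      rw [h3, mul_pow, mul_pow]
      ring
    simp only [h2] at h1
    rw [← Finset.mul_sum] at h1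
    exact (mul_eq_zero.mp h1).resolve_left (pow_ne_zero _ (hz0 l))
  -- the dominating monomial
  set T : Finset (ℝ × ℕ) := Finset.univ.biUnion (fun i => (x i).coeff.support) with hT
  have hTne : T.Nonempty := by
    by_contra hcon
    rw [Finset.not_nonempty_iff_eq_empty] at hcon
    apply hx0
    ext1 i
    have h1 : (x i).coeff.support = ∅ := by
      rw [Finset.eq_empty_iff_forall_notMem]
      intro g hg
      have : g ∈ T := Finset.mem_biUnion.mpr ⟨i, Finset.mem_univ _, hg⟩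
      rw [hcon] at this
      exact absurd this (Finset.notMem_empty _)
    rw [Finsupp.support_eq_empty] at h1
    exact AddMonoidAlgebra.coeff_eq_zero.mp h1
  obtain ⟨g, hgT, hgmax⟩ := Finset.exists_max_image T (fun g => toLex g) hTne
  refine ⟨4 * d + 1, fun i => (x i).coeff g, ?_, ?_⟩
  · obtain ⟨i, _, hi⟩ := Finset.mem_biUnion.mp hgT
    intro hcon
    have := congrFun hcon i
    simp only [Pi.zero_apply] at this
    exact (Finsupp.mem_support_iff.mp hi) this
  · intro α hα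
    obtain ⟨U, hU, hUα⟩ := mapClusterPt_iff_ultrafilter.mp hα
    set G : ℕ → ℂ := fun k => Complex.exp ((g.1 : ℂ) * k) * (k : ℂ) ^ g.2 with hG
    have hlim : Tendsto (fun k : ℕ => ∑ i, (ev k (x i) / G k) * (v k ^ (i.1 : ℕ) * conj (v k) ^ (i.2 : ℕ)))
        U (𝓝 (∑ i, (x i).coeff g * (α ^ (i.1 : ℕ) * (conj α) ^ (i.2 : ℕ)))) := by
      apply tendsto_finsetSum
      intro i _
      refine Tendsto.mul ?_ ?_
      · refine (tendsto_ev (x i) g ?_).mono_left hU
        intro g' hg' hne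
        have h1 := hgmax g' (Finset.mem_biUnion.mpr ⟨i, Finset.mem_univ _, hg'⟩)
        rw [Prod.Lex.le_iff] at h1
        rcases h1 with h1 | ⟨h1, h2⟩
        · left; exact h1
        · right
          refine ⟨h1, lt_of_le_of_ne h2 ?_⟩
          intro h3
          exact hne (Prod.ext h1 h3)
      · exact (hUα.pow _).mul (((Complex.continuous_conj.tendsto α).comp hUα).pow _)
    have hzero : ∀ k : ℕ, ∑ i, (ev k (x i) / G k) * (v k ^ (i.1 : ℕ) * conj (v k) ^ (i.2 : ℕ)) = 0 := by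
      intro k
      have := hrel k
      calc ∑ i, (ev k (x i) / G k) * (v k ^ (i.1 : ℕ) * conj (v k) ^ (i.2 : ℕ))
          = (∑ i, ev k (x i) * (v k ^ (i.1 : ℕ) * conj (v k) ^ (i.2 : ℕ))) / G k := by
            rw [Finset.sum_div]
            apply Finset.sum_congr rfl
            intro i _
            ring
        _ = 0 := by rw [this, zero_div]
    simp only [hzero] at hlim
    exact (tendsto_nhds_unique hlim tendsto_const_nhds)

open ComplexConjugate in
/-- A real algebraic curve is close to far away points only in finitely many directions. -/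
lemma circlePoly {m : ℕ} (c : Fin m × Fin m → ℂ) (hc : c ≠ 0) (B : ℝ) : ∃ P : ℂ[X], P ≠ 0 ∧
    ∀ ω : ℂ, ‖ω‖ = 1 → (∃ᶠ t : ℕ in atTop, ∃ α : ℂ, ‖α - t * ω‖ ≤ B ∧
      ∑ i, c i * (α ^ (i.1 : ℕ) * (conj α) ^ (i.2 : ℕ)) = 0) → P.eval ω = 0 := by
  classical
  obtain ⟨i0, hi0⟩ : ∃ i, c i ≠ 0 := by
    by_contra hcon
    push Not at hcon
    exact hc (funext hcon)
  obtain ⟨j, hj1, hj2⟩ := Finset.exists_max_image (Finset.univ.filter (fun i => c i ≠ 0))
    (fun i => (i.1 : ℕ) + (i.2 : ℕ)) ⟨i0, by simp [hi0]⟩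
  have hcj : c j ≠ 0 := (Finset.mem_filter.mp hj1).2
  set D : ℕ := (j.1 : ℕ) + (j.2 : ℕ) with hD
  have hmax : ∀ i, c i ≠ 0 → (i.1 : ℕ) + (i.2 : ℕ) ≤ D := fun i hi => hj2 i (by simp [hi])
  set S := Finset.univ.filter (fun i : Fin m × Fin m => (i.1 : ℕ) + (i.2 : ℕ) = D) with hS
  refine ⟨∑ i ∈ S, C (c i) * X ^ (2 * (i.1 : ℕ)), ?_, ?_⟩
  · intro h0
    have h1 := congrArg (fun p => Polynomial.coeff p (2 * (j.1 : ℕ))) h0
    simp only [finsetSum_coeff, coeff_C_mul, coeff_X_pow, coeff_zero] at h1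
    rw [Finset.sum_eq_single j] at h1
    · simp only [if_true, mul_one] at h1
      exact hcj h1
    · intro i hi hij
      have hi' : (i.1 : ℕ) + (i.2 : ℕ) = D := (Finset.mem_filter.mp hi).2
      have h2 : 2 * (j.1 : ℕ) ≠ 2 * (i.1 : ℕ) := by
        intro h3
        apply hij
        apply Prod.ext
        · apply Fin.ext; omega
        · apply Fin.ext; omega
      rw [if_neg h2, mul_zero]
    · intro hj
      exact absurd (by rw [hS]; exact Finset.mem_filter.mpr ⟨Finset.mem_univ _, hD.symm⟩) hj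
  · intro ω hω hfreq
    obtain ⟨φ, hφ, hφP⟩ := extraction_of_frequently_atTop hfreq
    choose α hα1 hα2 using hφP
    have hφt : Tendsto (fun n => (φ n : ℝ)) atTop atTop :=
      tendsto_natCast_atTop_atTop.comp hφ.tendsto_atTop
    have hφ0 : ∀ᶠ n in atTop, (φ n : ℂ) ≠ 0 := by
      filter_upwards [hφt.eventually_gt_atTop 0] with n hn
      exact_mod_cast hn.ne'
    have h1 : Tendsto (fun n => α n / (φ n : ℂ)) atTop (𝓝 ω) := by
      rw [tendsto_iff_norm_sub_tendsto_zero]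
      have h2 : Tendsto (fun n => B / (φ n : ℝ)) atTop (𝓝 0) := hφt.const_div_atTop B
      refine squeeze_zero' (Eventually.of_forall fun n => norm_nonneg _) ?_ h2
      filter_upwards [hφ0] with n hn
      have h3 : α n / (φ n : ℂ) - ω = (α n - φ n * ω) / φ n := by field_simp
      rw [h3, norm_div, Complex.norm_natCast]
      gcongr
      exact hα1 n
    have hinv : Tendsto (fun n => ((φ n : ℂ))⁻¹) atTop (𝓝 0) := by
      rw [tendsto_zero_iff_norm_tendsto_zero]
      simp only [norm_inv, Complex.norm_natCast]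
      exact hφt.inv_tendsto_atTop
    have hlim : Tendsto (fun n => ∑ i, c i * ((((φ n : ℂ))⁻¹ ^ (D - ((i.1 : ℕ) + (i.2 : ℕ)))) *
        ((α n / (φ n : ℂ)) ^ (i.1 : ℕ) * (conj (α n / (φ n : ℂ))) ^ (i.2 : ℕ)))) atTop
        (𝓝 (∑ i, c i * ((0 : ℂ) ^ (D - ((i.1 : ℕ) + (i.2 : ℕ))) * (ω ^ (i.1 : ℕ) * (conj ω) ^ (i.2 : ℕ))))) := by
      apply tendsto_finsetSum
      intro i _
      refine Tendsto.mul tendsto_const_nhds (Tendsto.mul (hinv.pow _) ?_)
      exact (h1.pow _).mul (((Complex.continuous_conj.tendsto ω).comp h1).pow _)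
    have hzero : ∀ᶠ n in atTop, ∑ i, c i * ((((φ n : ℂ))⁻¹ ^ (D - ((i.1 : ℕ) + (i.2 : ℕ)))) *
        ((α n / (φ n : ℂ)) ^ (i.1 : ℕ) * (conj (α n / (φ n : ℂ))) ^ (i.2 : ℕ))) = 0 := by
      filter_upwards [hφ0] with n hn
      have h4 : ∀ i, c i * ((((φ n : ℂ))⁻¹ ^ (D - ((i.1 : ℕ) + (i.2 : ℕ)))) *
        ((α n / (φ n : ℂ)) ^ (i.1 : ℕ) * (conj (α n / (φ n : ℂ))) ^ (i.2 : ℕ))) =
        (c i * (α n ^ (i.1 : ℕ) * (conj (α n)) ^ (i.2 : ℕ))) * ((φ n : ℂ))⁻¹ ^ D := by
        intro i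
        by_cases hci : c i = 0
        · rw [hci]; simp
        · have h5 := hmax i hci
          have h6 : ((φ n : ℂ))⁻¹ ^ D = ((φ n : ℂ))⁻¹ ^ (D - ((i.1 : ℕ) + (i.2 : ℕ))) *
              (((φ n : ℂ))⁻¹ ^ (i.1 : ℕ) * ((φ n : ℂ))⁻¹ ^ (i.2 : ℕ)) := by
            rw [← pow_add, ← pow_add]
            congr 1
            omega
          rw [h6, map_div₀, Complex.conj_natCast, div_eq_mul_inv, div_eq_mul_inv, mul_pow, mul_pow]
          ring
      simp only [h4]
      rw [← Finset.sum_mul, hα2 n, zero_mul]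
    have h7 := tendsto_nhds_unique (hlim.congr' (hzero.mono fun n hn => hn)) tendsto_const_nhds
    rw [eval_finsetSum]
    have hconj : conj ω = ω⁻¹ := by
      rw [Complex.inv_def, Complex.normSq_eq_norm_sq, hω]
      simp
    have hω0 : ω ≠ 0 := by
      intro h; rw [h, norm_zero] at hω; exact zero_ne_one hω
    have h8 : ∑ i ∈ S, eval ω (C (c i) * X ^ (2 * (i.1 : ℕ))) =
        ω ^ D * ∑ i, c i * ((0 : ℂ) ^ (D - ((i.1 : ℕ) + (i.2 : ℕ))) * (ω ^ (i.1 : ℕ) * (conj ω) ^ (i.2 : ℕ))) := by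
      rw [Finset.mul_sum, hS, Finset.sum_filter]
      apply Finset.sum_congr rfl
      intro i _
      by_cases hi : (i.1 : ℕ) + (i.2 : ℕ) = D
      · rw [if_pos hi, hi, Nat.sub_self, pow_zero, one_mul, hconj, ← hi]
        simp only [eval_mul, eval_C, eval_pow, eval_X]
        rw [inv_pow, pow_add, two_mul, pow_add]
        field_simp
      · rw [if_neg hi]
        by_cases hci : c i = 0
        · rw [hci]; simp
        · have h5 := hmax i hci
          have h9 : D - ((i.1 : ℕ) + (i.2 : ℕ)) ≠ 0 := by omega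
          rw [zero_pow h9]
          simp
    rw [h8, h7, mul_zero]

lemma poly_geom_tendsto (q : ℂ[X]) {w : ℂ} (hw : ‖w‖ < 1) :
    Tendsto (fun l : ℕ => q.eval (l : ℂ) * w ^ l) atTop (𝓝 0) := by
  have h1 : ∀ l : ℕ, q.eval (l : ℂ) * w ^ l = ∑ j ∈ q.support, q.coeff j * ((l : ℂ) ^ j * w ^ l) := by
    intro l
    rw [Polynomial.eval_eq_sum, Polynomial.sum_def, Finset.sum_mul]
    apply Finset.sum_congr rfl
    intro j _
    ring
  simp only [h1]
  have h2 : ∀ j ∈ q.support, Tendsto (fun l : ℕ => q.coeff j * ((l : ℂ) ^ j * w ^ l)) atTop (𝓝 0) := by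
    intro j _
    have h3 : Tendsto (fun l : ℕ => (l : ℂ) ^ j * w ^ l) atTop (𝓝 0) := by
      rw [tendsto_zero_iff_norm_tendsto_zero]
      have := tendsto_pow_const_mul_const_pow_of_abs_lt_one j (r := ‖w‖) (by rwa [abs_norm])
      refine this.congr ?_
      intro l
      rw [norm_mul, norm_pow, norm_pow, Complex.norm_natCast]
    have := h3.const_mul (q.coeff j)
    rwa [mul_zero] at this
  have := tendsto_finsetSum q.support h2
  simpa using this

lemma poly_bounded_below (q : ℂ[X]) (hq : q ≠ 0) : ∃ c : ℝ, 0 < c ∧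
    ∀ᶠ l : ℕ in atTop, c ≤ ‖q.eval (l : ℂ)‖ := by
  by_cases hd : 0 < q.degree
  · have h1 : Tendsto (fun l : ℕ => ‖(l : ℂ)‖) atTop atTop := by
      simp only [Complex.norm_natCast]
      exact tendsto_natCast_atTop_atTop
    have := Polynomial.tendsto_norm_atTop q hd h1
    exact ⟨1, one_pos, this.eventually_ge_atTop 1⟩
  · have h1 : q = C (q.coeff 0) := Polynomial.eq_C_of_degree_le_zero (not_lt.mp hd)
    have h2 : q.coeff 0 ≠ 0 := by
      intro h; rw [h, C_0] at h1; exact hq h1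
    refine ⟨‖q.coeff 0‖, norm_pos_iff.mpr h2, Eventually.of_forall fun l => ?_⟩
    rw [h1]
    simp

/-- If there is a unique term of largest modulus, larger than one, then the modulus tends to
infinity. -/
lemma top_unique {S : Finset ℂ} (q : ℂ → ℂ[X]) {μ0 : ℂ} (hS : μ0 ∈ S) (hq : q μ0 ≠ 0)
    (h1 : 1 < ‖μ0‖) (h2 : ∀ μ ∈ S, μ ≠ μ0 → ‖μ‖ < ‖μ0‖) :
    Tendsto (fun l : ℕ => ‖∑ μ ∈ S, (q μ).eval (l : ℂ) * μ ^ l‖) atTop atTop := by
  have hμ0 : μ0 ≠ 0 := by
    intro h; rw [h, norm_zero] at h1; linarith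
  obtain ⟨c, hc, hcq⟩ := poly_bounded_below (q μ0) hq
  have hrest : Tendsto (fun l : ℕ => ∑ μ ∈ S.erase μ0, (q μ).eval (l : ℂ) * (μ / μ0) ^ l) atTop (𝓝 0) := by
    have : ∀ μ ∈ S.erase μ0, Tendsto (fun l : ℕ => (q μ).eval (l : ℂ) * (μ / μ0) ^ l) atTop (𝓝 0) := by
      intro μ hμ
      apply poly_geom_tendsto
      rw [norm_div, div_lt_one (by linarith)]
      exact h2 μ (Finset.mem_of_mem_erase hμ) (Finset.ne_of_mem_erase hμ)
    have := tendsto_finsetSum _ this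
    simpa using this
  have hsmall : ∀ᶠ l : ℕ in atTop, ‖∑ μ ∈ S.erase μ0, (q μ).eval (l : ℂ) * (μ / μ0) ^ l‖ ≤ c / 2 := by
    have := hrest.norm
    rw [norm_zero] at this
    exact this.eventually_le_const (by positivity)
  have hgrow : Tendsto (fun l : ℕ => ‖μ0‖ ^ l * (c / 2)) atTop atTop :=
    (tendsto_pow_atTop_atTop_of_one_lt h1).atTop_mul_const (by positivity)
  refine tendsto_atTop_mono' _ ?_ hgrow
  filter_upwards [hcq, hsmall] with l hl1 hl2
  have h3 : ∑ μ ∈ S, (q μ).eval (l : ℂ) * μ ^ l =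
      μ0 ^ l * ((q μ0).eval (l : ℂ) + ∑ μ ∈ S.erase μ0, (q μ).eval (l : ℂ) * (μ / μ0) ^ l) := by
    rw [← Finset.add_sum_erase S _ hS, mul_add, Finset.mul_sum]
    congr 1
    · ring
    · apply Finset.sum_congr rfl
      intro μ _
      rw [div_pow]
      field_simp
  rw [h3, norm_mul, norm_pow]
  apply mul_le_mul_of_nonneg_left _ (by positivity)
  have h4 := norm_sub_le ((q μ0).eval (l : ℂ) + ∑ μ ∈ S.erase μ0, (q μ).eval (l : ℂ) * (μ / μ0) ^ l)
    (∑ μ ∈ S.erase μ0, (q μ).eval (l : ℂ) * (μ / μ0) ^ l)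
  rw [add_sub_cancel_right] at h4
  linarith

lemma norm_dir {z : ℂ} (hz : z ≠ 0) : ‖dir z‖ = 1 := by
  unfold dir
  rw [norm_div, Complex.norm_real, norm_norm, div_self (norm_ne_zero_iff.mpr hz)]

lemma dir_ne_zero {z : ℂ} (hz : z ≠ 0) : dir z ≠ 0 := by
  intro h
  have := norm_dir hz
  rw [h, norm_zero] at this
  exact zero_ne_one this

lemma dir_of_norm_one {z : ℂ} (hz : ‖z‖ = 1) : dir z = z := by
  unfold dir; rw [hz]; simp

lemma dir_pow (z : ℂ) (N : ℕ) : dir (z ^ N) = dir z ^ N := by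
  unfold dir; rw [norm_pow, div_pow]; push_cast; rfl

lemma norm_mul_dir {z : ℂ} (hz : z ≠ 0) : (‖z‖ : ℂ) * dir z = z := by
  unfold dir
  have : (‖z‖ : ℂ) ≠ 0 := by exact_mod_cast norm_ne_zero_iff.mpr hz
  field_simp

/-- A dependent pair whose first member has infinite order. -/
lemma dep {z1 z2 : ℂ} (hdep : ¬ Independent z1 z2)
    (hinf : ∀ b : ℕ, 0 < b → z1 ^ b ≠ 1) : ∃ b : ℕ, 0 < b ∧ ∃ a : ℤ, z2 ^ b = z1 ^ a := by
  unfold Independent at hdep
  push Not at hdep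
  obtain ⟨m1, m2, hm, hne⟩ := hdep
  have hm2 : m2 ≠ 0 := by
    intro h0
    have hm1 := hne
    subst h0
    rw [zpow_zero, mul_one] at hm
    by_cases hm10 : m1 = 0
    · exact hm1 hm10 rfl
    · rcases lt_or_gt_of_ne hm10 with h | h
      · apply hinf (-m1).toNat (by omega)
        rw [← zpow_natCast, Int.toNat_of_nonneg (by omega), zpow_neg, hm, inv_one]
      · apply hinf m1.toNat (by omega)
        rw [← zpow_natCast, Int.toNat_of_nonneg (by omega), hm]
  rcases lt_or_gt_of_ne hm2 with h | h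
  · refine ⟨(-m2).toNat, by omega, m1, ?_⟩
    rw [← zpow_natCast, Int.toNat_of_nonneg (by omega), zpow_neg]
    exact (eq_inv_of_mul_eq_one_left hm).symm
  · refine ⟨m2.toNat, by omega, -m1, ?_⟩
    rw [← zpow_natCast, Int.toNat_of_nonneg (by omega), zpow_neg]
    exact eq_inv_of_mul_eq_one_right hm

/-- A common multiple for finitely many existence statements. -/
lemma common_multiple {α : Type*} (s : Finset α) (R : α → ℕ → Prop)
    (hR : ∀ x b c, 0 < c → R x b → R x (b * c)) :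
    ∃ N : ℕ, 0 < N ∧ ∀ x ∈ s, (∃ b, 0 < b ∧ R x b) → R x N := by
  classical
  induction s using Finset.induction_on with
  | empty => exact ⟨1, one_pos, by simp⟩
  | insert x s hx ih =>
    obtain ⟨N, hN, h⟩ := ih
    by_cases hex : ∃ b, 0 < b ∧ R x b
    · obtain ⟨b, hb, hRb⟩ := hex
      refine ⟨N * b, Nat.mul_pos hN hb, ?_⟩
      intro y hy hey
      rw [Finset.mem_insert] at hy
      rcases hy with rfl | hy
      · rw [mul_comm]
        exact hR _ _ _ hN hRb
      · exact hR _ _ _ hb (h y hy hey)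
    · refine ⟨N, hN, ?_⟩
      intro y hy hey
      rw [Finset.mem_insert] at hy
      rcases hy with rfl | hy
      · exact absurd hey hex
      · exact h y hy hey

lemma frequently_residue {N : ℕ} (hN : 0 < N) {P : ℕ → Prop} (h : ∃ᶠ k in atTop, P k) :
    ∃ r ∈ Finset.range N, ∃ᶠ l in atTop, P (r + N * l) := by
  by_contra hcon
  push Not at hcon
  have h1 : ∀ᶠ l : ℕ in atTop, ∀ r ∈ Finset.range N, ¬ P (r + N * l) := by
    rw [eventually_all_finset]
    intro r hr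
    have := hcon r hr
    simpa [not_frequently] using this
  have h2 := (Nat.tendsto_div_const_atTop hN.ne').eventually h1
  apply h
  filter_upwards [h2] with k hk
  have := hk (k % N) (Finset.mem_range.mpr (Nat.mod_lt k hN))
  rwa [Nat.mod_add_div] at this

lemma pigeonhole {N : ℕ} {Q : ℕ → ℕ → Prop} (h : ∀ t : ℕ, ∃ r ∈ Finset.range N, Q r t) :
    ∃ r ∈ Finset.range N, ∃ᶠ t in atTop, Q r t := by
  by_contra hcon
  push Not at hcon
  have h1 : ∀ᶠ t : ℕ in atTop, ∀ r ∈ Finset.range N, ¬ Q r t := by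
    rw [eventually_all_finset]
    intro r hr
    have := hcon r hr
    simpa [not_frequently] using this
  obtain ⟨t, ht⟩ := h1.exists
  obtain ⟨r, hr, hQ⟩ := h t
  exact ht r hr hQ

lemma circle_infinite : {ω : ℂ | ‖ω‖ = 1}.Infinite := by
  have h1 : IsPreconnected (Metric.sphere (0 : ℂ) 1) :=
    isPreconnected_sphere (by rw [Complex.rank_real_complex]; norm_num) 0 1
  have h2 : (Metric.sphere (0 : ℂ) 1).Nontrivial := ⟨1, by simp, -1, by simp, by norm_num⟩
  have h3 := h1.infinite_of_nontrivial h2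
  refine h3.mono ?_
  intro x hx
  simpa using hx

lemma dichotomy (L : Finset ℂ) (D : ℂ → Prop)
    (hL : ∀ x ∈ L, 1 < ‖x‖ ∨ (‖x‖ = 1 ∧ D x))
    (hC1 : ∀ x ∈ L, ∀ y ∈ L, ‖x‖ = ‖y‖ → 1 < ‖y‖ → ¬ Independent (dir x) (dir y))
    (hC2 : ∀ x ∈ L, ∀ y ∈ L, D x → D y → ‖x‖ = 1 → ‖y‖ = 1 → ¬ Independent x y)
    (hC3 : ∀ x ∈ L, ∀ y ∈ L, ∀ z ∈ L, ‖x‖ = ‖y‖ → ‖z‖ < ‖y‖ → 1 < ‖z‖ → ¬ IsOfFinOrder (x / y) →
      ¬ Independent (dir x) (dir z))
    (hC4 : ∀ x ∈ L, ∀ y ∈ L, ∀ z ∈ L, D z → ‖z‖ = 1 → ‖x‖ = ‖y‖ → 1 < ‖y‖ →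
      ¬ IsOfFinOrder (x / y) → ¬ Independent (dir x) z)
    (N : ℕ) (hN : 0 < N)
    (hN1 : ∀ x ∈ L, ∀ y ∈ L, (∃ b, 0 < b ∧ (x / y) ^ b = 1) → (x / y) ^ N = 1)
    (hN2 : ∀ x ∈ L, ∀ y ∈ L, (∃ b, 0 < b ∧ ∃ a : ℤ, dir x ^ b = dir y ^ a) →
      ∃ a : ℤ, dir x ^ N = dir y ^ a)
    (hN3 : ∀ x ∈ L, (∃ b, 0 < b ∧ dir x ^ b = 1) → dir x ^ N = 1)
    (S : Finset ℂ) (hS : ∀ μ ∈ S, ∃ x ∈ L, x ^ N = μ) :
    (∃ w : ℂ, ‖w‖ = 1 ∧ ∀ μ ∈ S, ∃ a : ℤ, dir μ = w ^ a) ∨
      (∃ μ0 ∈ S, 1 < ‖μ0‖ ∧ ∀ μ ∈ S, μ ≠ μ0 → ‖μ‖ < ‖μ0‖) := by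
  rcases S.eq_empty_or_nonempty with rfl | hSne
  · left
    exact ⟨1, by simp, by simp⟩
  obtain ⟨μ0, hμ0, hmax⟩ := Finset.exists_max_image S (fun μ => ‖μ‖) hSne
  obtain ⟨x0, hx0, hx0μ⟩ := hS μ0 hμ0
  have hL1 : ∀ x ∈ L, 1 ≤ ‖x‖ := fun x hx => by
    rcases hL x hx with h | h
    · exact h.le
    · exact h.1.ge
  have hL0 : ∀ x ∈ L, x ≠ 0 := fun x hx h => by
    have := hL1 x hx
    rw [h, norm_zero] at this
    linarith
  -- the core step
  have core : ∀ y ∈ L, (∀ b : ℕ, 0 < b → dir y ^ b ≠ 1) →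
      (∀ x ∈ L, ‖x‖ ≤ ‖x0‖ → ¬ Independent (dir y) (dir x)) →
      ∃ w : ℂ, ‖w‖ = 1 ∧ ∀ μ ∈ S, ∃ a : ℤ, dir μ = w ^ a := by
    intro y hy hinf hd
    refine ⟨dir y, norm_dir (hL0 y hy), ?_⟩
    intro μ hμ
    obtain ⟨x, hx, hxμ⟩ := hS μ hμ
    have hxle : ‖x‖ ≤ ‖x0‖ := by
      have h1 := hmax μ hμ
      rw [← hxμ, ← hx0μ, norm_pow, norm_pow] at h1
      exact (pow_le_pow_iff_left₀ (norm_nonneg _) (norm_nonneg _) hN.ne').mp h1
    obtain ⟨b, hb, a, hba⟩ := dep (hd x hx hxle) hinf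
    obtain ⟨a', ha'⟩ := hN2 x hx y hy ⟨b, hb, a, hba⟩
    exact ⟨a', by rw [← hxμ, dir_pow, ha']⟩
  rcases le_or_gt ‖μ0‖ 1 with h1 | h1
  · -- all moduli are one
    left
    have hx01 : ‖x0‖ ≤ 1 := by
      rw [← hx0μ, norm_pow] at h1
      by_contra hcon
      exact absurd h1 (not_le.mpr (one_lt_pow₀ (not_le.mp hcon) hN.ne'))
    have hone : ∀ x ∈ L, ‖x‖ ≤ ‖x0‖ → ‖x‖ = 1 ∧ D x := by
      intro x hx hle
      rcases hL x hx with h | h
      · linarith
      · exact h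
    by_cases hex : ∃ y ∈ L, ‖y‖ ≤ ‖x0‖ ∧ ∀ b : ℕ, 0 < b → dir y ^ b ≠ 1
    · obtain ⟨y, hy, hyle, hinf⟩ := hex
      apply core y hy hinf
      intro x hx hle
      have h2 := hone y hy hyle
      have h3 := hone x hx hle
      rw [dir_of_norm_one h2.1, dir_of_norm_one h3.1]
      exact hC2 y hy x hx h2.2 h3.2 h2.1 h3.1
    · push Not at hex
      refine ⟨1, by simp, ?_⟩
      intro μ hμ
      obtain ⟨x, hx, hxμ⟩ := hS μ hμ
      have hxle : ‖x‖ ≤ ‖x0‖ := by
        have h1 := hmax μ hμ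
        rw [← hxμ, ← hx0μ, norm_pow, norm_pow] at h1
        exact (pow_le_pow_iff_left₀ (norm_nonneg _) (norm_nonneg _) hN.ne').mp h1
      exact ⟨0, by rw [← hxμ, dir_pow, hN3 x hx (hex x hx hxle)]; simp⟩
  · by_cases hex : ∃ μ1 ∈ S, μ1 ≠ μ0 ∧ ‖μ1‖ = ‖μ0‖
    · left
      obtain ⟨μ1, hμ1, hne, hnorm⟩ := hex
      obtain ⟨x1, hx1, hx1μ⟩ := hS μ1 hμ1
      have hxx : ‖x1‖ = ‖x0‖ := by
        rw [← hx1μ, ← hx0μ, norm_pow, norm_pow] at hnorm
        exact (pow_left_inj₀ (norm_nonneg _) (norm_nonneg _) hN.ne').mp hnorm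
      have hx0gt : 1 < ‖x0‖ := by
        rw [← hx0μ, norm_pow] at h1
        by_contra hcon
        exact absurd h1 (not_lt.mpr (pow_le_one₀ (norm_nonneg _) (not_lt.mp hcon)))
      have hno : ∀ x ∈ L, ∀ y ∈ L, x ^ N ≠ y ^ N → ¬ IsOfFinOrder (x / y) := by
        intro x hx y hy hxy hfin
        rw [isOfFinOrder_iff_pow_eq_one] at hfin
        have := hN1 x hx y hy hfin
        rw [div_pow, div_eq_one_iff_eq (pow_ne_zero _ (hL0 y hy))] at this
        exact hxy this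
      have hdivdir : ∀ x ∈ L, ∀ y ∈ L, ‖x‖ = ‖y‖ → x / y = dir x / dir y := by
        intro x hx y hy hxy
        unfold dir
        rw [hxy]
        have h2 : (‖y‖ : ℂ) ≠ 0 := by exact_mod_cast norm_ne_zero_iff.mpr (hL0 y hy)
        field_simp
      -- final step for a pair
      have fin : ∀ y ∈ L, ∀ y' ∈ L, ‖y‖ = ‖x0‖ → ‖y'‖ = ‖x0‖ → ¬ IsOfFinOrder (y / y') →
          (∀ b : ℕ, 0 < b → dir y ^ b ≠ 1) →
          ∃ w : ℂ, ‖w‖ = 1 ∧ ∀ μ ∈ S, ∃ a : ℤ, dir μ = w ^ a := by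
        intro y hy y' hy' hyn hyn' hyy hinf
        apply core y hy hinf
        intro x hx hle
        rcases lt_or_eq_of_le hle with hlt | heq
        · rcases hL x hx with h | h
          · exact hC3 y hy y' hy' x hx (by rw [hyn, hyn']) (by rw [hyn']; exact hlt) h hyy
          · rw [dir_of_norm_one h.1]
            exact hC4 y hy y' hy' x hx h.2 h.1 (by rw [hyn, hyn']) (by rw [hyn']; exact hx0gt) hyy
        · exact hC1 y hy x hx (by rw [hyn, heq]) (by rw [heq]; exact hx0gt)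
      by_cases ht0 : ∀ b : ℕ, 0 < b → dir x0 ^ b ≠ 1
      · exact fin x0 hx0 x1 hx1 rfl hxx (hno x0 hx0 x1 hx1 (by rw [hx0μ, hx1μ]; exact hne.symm)) ht0
      · by_cases ht1 : ∀ b : ℕ, 0 < b → dir x1 ^ b ≠ 1
        · exact fin x1 hx1 x0 hx0 hxx rfl (hno x1 hx1 x0 hx0 (by rw [hx0μ, hx1μ]; exact hne)) ht1
        · exfalso
          push Not at ht0 ht1
          obtain ⟨b0, hb0, hb0'⟩ := ht0
          obtain ⟨b1, hb1, hb1'⟩ := ht1
          apply hno x0 hx0 x1 hx1 (by rw [hx0μ, hx1μ]; exact hne.symm)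
          rw [isOfFinOrder_iff_pow_eq_one]
          refine ⟨b0 * b1, Nat.mul_pos hb0 hb1, ?_⟩
          rw [hdivdir x0 hx0 x1 hx1 hxx.symm, div_pow, pow_mul, hb0', one_pow, mul_comm, pow_mul, hb1',
            one_pow, div_one]
    · right
      push Not at hex
      refine ⟨μ0, hμ0, h1, ?_⟩
      intro μ hμ hne
      exact lt_of_le_of_ne (hmax μ hμ) (hex μ hμ hne)


/-- The abstract form of the theorem for exponential polynomials. -/
theorem abstract_main (p : ℂ →₀ ℂ[X]) (B : ℝ) (u : ℕ → ℂ)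
    (hu : ∀ᶠ k : ℕ in atTop, u k = p.sum fun x q => q.eval (k : ℂ) * x ^ k)
    (hdense : ∀ a : ℂ, ∃ᶠ k in atTop, ‖u k - a‖ ≤ B)
    (hC1 : ∀ x y, p x ≠ 0 → p y ≠ 0 → ‖x‖ = ‖y‖ → 1 < ‖y‖ → ¬ Independent (dir x) (dir y))
    (hC2 : ∀ x y, 1 ≤ (p x).natDegree → 1 ≤ (p y).natDegree → ‖x‖ = 1 → ‖y‖ = 1 → ¬ Independent x y)
    (hC3 : ∀ x y z, p x ≠ 0 → p y ≠ 0 → p z ≠ 0 → ‖x‖ = ‖y‖ → ‖z‖ < ‖y‖ → 1 < ‖z‖ →
      ¬ IsOfFinOrder (x / y) → ¬ Independent (dir x) (dir z))
    (hC4 : ∀ x y z, p x ≠ 0 → p y ≠ 0 → 1 ≤ (p z).natDegree → ‖z‖ = 1 → ‖x‖ = ‖y‖ → 1 < ‖y‖ →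
      ¬ IsOfFinOrder (x / y) → ¬ Independent (dir x) z) : False := by
  classical
  set L : Finset ℂ := p.support.filter (fun x => 1 < ‖x‖ ∨ (‖x‖ = 1 ∧ 1 ≤ (p x).natDegree)) with hLdef
  have hLp : ∀ x ∈ L, p x ≠ 0 := fun x hx => Finsupp.mem_support_iff.mp (Finset.mem_filter.mp hx).1
  have hL : ∀ x ∈ L, 1 < ‖x‖ ∨ (‖x‖ = 1 ∧ 1 ≤ (p x).natDegree) := fun x hx =>
    (Finset.mem_filter.mp hx).2
  have hL0 : ∀ x ∈ L, x ≠ 0 := fun x hx h => by
    have := hL x hx
    rw [h, norm_zero] at this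
    rcases this with h | h
    · linarith
    · exact zero_ne_one h.1
  -- the bounded part
  obtain ⟨B2, hB2⟩ : ∃ B2 : ℝ, ∀ k : ℕ, ‖∑ x ∈ p.support \ L, (p x).eval (k : ℂ) * x ^ k‖ ≤ B2 := by
    have h1 : ∀ x ∈ p.support \ L, ∃ b : ℝ, ∀ k : ℕ, ‖(p x).eval (k : ℂ) * x ^ k‖ ≤ b := by
      intro x hx
      rw [Finset.mem_sdiff] at hx
      have hx2 : ¬ (1 < ‖x‖ ∨ (‖x‖ = 1 ∧ 1 ≤ (p x).natDegree)) := fun h =>
        hx.2 (Finset.mem_filter.mpr ⟨hx.1, h⟩)
      push Not at hx2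
      rcases lt_or_eq_of_le hx2.1 with h | h
      · have h2 := Metric.isBounded_range_of_tendsto _ (poly_geom_tendsto (p x) h)
        obtain ⟨b, hb⟩ := h2.exists_norm_le
        exact ⟨b, fun k => hb _ ⟨k, rfl⟩⟩
      · have h3 : (p x).natDegree = 0 := by have := hx2.2 h; omega
        obtain ⟨c, hc⟩ := natDegree_eq_zero.mp h3
        refine ⟨‖c‖, fun k => ?_⟩
        rw [← hc, eval_C, norm_mul, norm_pow, h, one_pow, mul_one]
    choose! b hb using h1
    refine ⟨∑ x ∈ p.support \ L, b x, fun k => ?_⟩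
    exact (norm_sum_le _ _).trans (Finset.sum_le_sum fun x hx => hb x hx k)
  set v : ℕ → ℂ := fun k => ∑ x ∈ L, (p x).eval (k : ℂ) * x ^ k with hv
  have huv : ∀ᶠ k : ℕ in atTop, ‖u k - v k‖ ≤ B2 := by
    filter_upwards [hu] with k hk
    have hsub : L ⊆ p.support := Finset.filter_subset _ _
    have : u k - v k = ∑ x ∈ p.support \ L, (p x).eval (k : ℂ) * x ^ k := by
      rw [hk, Finsupp.sum, hv, ← Finset.sum_sdiff hsub]
      simp only
      ring
    rw [this]
    exact hB2 k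
  have hdense2 : ∀ a : ℂ, ∃ᶠ k in atTop, ‖v k - a‖ ≤ B + B2 := by
    intro a
    refine ((hdense a).and_eventually huv).mono ?_
    rintro k ⟨h1, h2⟩
    calc ‖v k - a‖ = ‖(u k - a) - (u k - v k)‖ := by congr 1; ring
      _ ≤ ‖u k - a‖ + ‖u k - v k‖ := norm_sub_le _ _
      _ ≤ B + B2 := by linarith
  -- the modulus N
  obtain ⟨N1, hN1, hN1'⟩ := common_multiple (L ×ˢ L) (fun z b => (z.1 / z.2) ^ b = 1)
    (by intro z b c _ h; rw [pow_mul, h, one_pow])
  obtain ⟨N2, hN2, hN2'⟩ := common_multiple (L ×ˢ L) (fun z b => ∃ a : ℤ, dir z.1 ^ b = dir z.2 ^ a)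
    (by
      rintro z b c _ ⟨a, h⟩
      refine ⟨a * c, ?_⟩
      rw [pow_mul, h, zpow_mul, zpow_natCast])
  obtain ⟨N3, hN3, hN3'⟩ := common_multiple L (fun z b => dir z ^ b = 1)
    (by intro z b c _ h; rw [pow_mul, h, one_pow])
  set N : ℕ := N1 * N2 * N3 with hN
  have hNpos : 0 < N := Nat.mul_pos (Nat.mul_pos hN1 hN2) hN3
  have hNa : ∀ x ∈ L, ∀ y ∈ L, (∃ b, 0 < b ∧ (x / y) ^ b = 1) → (x / y) ^ N = 1 := by
    intro x hx y hy h
    have := hN1' (x, y) (Finset.mem_product.mpr ⟨hx, hy⟩) h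
    simp only at this
    rw [hN, mul_assoc, pow_mul, this, one_pow]
  have hNb : ∀ x ∈ L, ∀ y ∈ L, (∃ b, 0 < b ∧ ∃ a : ℤ, dir x ^ b = dir y ^ a) →
      ∃ a : ℤ, dir x ^ N = dir y ^ a := by
    intro x hx y hy h
    obtain ⟨a, ha⟩ := hN2' (x, y) (Finset.mem_product.mpr ⟨hx, hy⟩) h
    simp only at ha
    refine ⟨a * (N1 * N3 : ℕ), ?_⟩
    rw [hN, show N1 * N2 * N3 = N2 * (N1 * N3) by ring, pow_mul, ha, zpow_mul, zpow_natCast]
  have hNc : ∀ x ∈ L, (∃ b, 0 < b ∧ dir x ^ b = 1) → dir x ^ N = 1 := by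
    intro x hx h
    have := hN3' x hx h
    rw [hN, mul_comm, pow_mul, this, one_pow]
  -- the residue classes
  set Q : ℕ → ℂ → ℂ[X] := fun r μ => ∑ x ∈ L.filter (fun x => x ^ N = μ),
    C (x ^ r) * (p x).comp (C (r : ℂ) + C (N : ℂ) * X) with hQ
  set S : ℕ → Finset ℂ := fun r => (L.image (fun x => x ^ N)).filter (fun μ => Q r μ ≠ 0) with hS
  have hvr : ∀ r l : ℕ, v (r + N * l) = ∑ μ ∈ S r, (Q r μ).eval (l : ℂ) * μ ^ l := by
    intro r l
    have h1 : ∑ μ ∈ S r, (Q r μ).eval (l : ℂ) * μ ^ l =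
        ∑ μ ∈ L.image (fun x => x ^ N), (Q r μ).eval (l : ℂ) * μ ^ l := by
      apply Finset.sum_subset (Finset.filter_subset _ _)
      intro μ hμ hμ'
      have : Q r μ = 0 := by
        by_contra hcon
        exact hμ' (Finset.mem_filter.mpr ⟨hμ, hcon⟩)
      rw [this, eval_zero, zero_mul]
    rw [h1, hv]
    simp only
    rw [← Finset.sum_fiberwise_of_maps_to (g := fun x => x ^ N) (t := L.image (fun x => x ^ N))
      (fun x hx => Finset.mem_image_of_mem _ hx)]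
    apply Finset.sum_congr rfl
    intro μ _
    rw [hQ]
    simp only
    rw [eval_finsetSum, Finset.sum_mul]
    apply Finset.sum_congr rfl
    intro x hx
    have hxμ : x ^ N = μ := (Finset.mem_filter.mp hx).2
    rw [eval_mul, eval_C, eval_comp, eval_add, eval_mul, eval_C, eval_C, eval_X, ← hxμ, ← pow_mul, pow_add]
    push_cast
    ring
  have hSrep : ∀ r, ∀ μ ∈ S r, ∃ x ∈ L, x ^ N = μ := by
    intro r μ hμ
    exact Finset.mem_image.mp (Finset.mem_filter.mp hμ).1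
  -- a polynomial for each residue class
  have hP : ∀ r : ℕ, ∃ P : ℂ[X], P ≠ 0 ∧ ∀ ω : ℂ, ‖ω‖ = 1 →
      (∃ᶠ t : ℕ in atTop, ∃ α : ℂ, ‖α - t * ω‖ ≤ B + B2 ∧
        MapClusterPt α atTop (fun l : ℕ => v (r + N * l))) → P.eval ω = 0 := by
    intro r
    rcases dichotomy L (fun x => 1 ≤ (p x).natDegree) hL
      (fun x hx y hy => hC1 x y (hLp x hx) (hLp y hy))
      (fun x _ y _ => hC2 x y)
      (fun x hx y hy z hz => hC3 x y z (hLp x hx) (hLp y hy) (hLp z hz))
      (fun x hx y hy z _ => hC4 x y z (hLp x hx) (hLp y hy)) N hNpos hNa hNb hNc (S r) (hSrep r) with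
      ⟨w, hw, hwS⟩ | ⟨μ0, hμ0, h1, h2⟩
    · choose! a ha using hwS
      have hw0 : w ≠ 0 := by
        intro h; rw [h, norm_zero] at hw; exact zero_ne_one hw
      have hSne : ∀ μ ∈ S r, μ ≠ 0 := by
        intro μ hμ
        obtain ⟨x, hx, rfl⟩ := hSrep r μ hμ
        exact pow_ne_zero _ (hL0 x hx)
      obtain ⟨m, c, hc, hcl⟩ := elimination (S r) (Q r) (fun μ => ‖μ‖)
        (fun μ hμ => norm_pos_iff.mpr (hSne μ hμ)) a (fun l => w ^ l)
        (fun l => by rw [norm_pow, hw, one_pow]) (fun l : ℕ => v (r + N * l)) (by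
          intro l
          rw [hvr]
          apply Finset.sum_congr rfl
          intro μ hμ
          have h3 : μ ^ l = (‖μ‖ : ℂ) ^ l * (w ^ l) ^ (a μ) := by
            conv_lhs => rw [← norm_mul_dir (hSne μ hμ)]
            rw [mul_pow, ha μ hμ, ← zpow_natCast, ← zpow_natCast, ← zpow_natCast, ← zpow_mul, ← zpow_mul,
              mul_comm (a μ)]
          rw [h3, mul_assoc])
      obtain ⟨P, hP0, hP⟩ := circlePoly c hc (B + B2)
      refine ⟨P, hP0, fun ω hω hfreq => hP ω hω (hfreq.mono ?_)⟩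
      rintro t ⟨α, hα1, hα2⟩
      exact ⟨α, hα1, hcl α hα2⟩
    · refine ⟨1, one_ne_zero, fun ω hω hfreq => ?_⟩
      exfalso
      obtain ⟨t, α, _, hα⟩ := hfreq.exists
      have hQ0 : Q r μ0 ≠ 0 := (Finset.mem_filter.mp hμ0).2
      have h3 := top_unique (Q r) hμ0 hQ0 h1 h2
      have h4 : Tendsto (fun l : ℕ => ‖v (r + N * l)‖) atTop atTop := by
        simpa only [hvr] using h3
      have h5 := hα.frequently (Metric.ball_mem_nhds α one_pos)
      have h6 := h4.eventually_gt_atTop (‖α‖ + 1)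
      obtain ⟨l, hl1, hl2⟩ := (h5.and_eventually h6).exists
      rw [dist_eq_norm] at hl1
      have : ‖v (r + N * l)‖ ≤ ‖v (r + N * l) - α‖ + ‖α‖ := by
        calc ‖v (r + N * l)‖ = ‖(v (r + N * l) - α) + α‖ := by congr 1; ring
          _ ≤ _ := norm_add_le _ _
      linarith
  choose P hP0 hPω using hP
  have hroots : ∀ ω : ℂ, ‖ω‖ = 1 → (∏ r ∈ Finset.range N, P r).eval ω = 0 := by
    intro ω hω
    have h1 : ∀ t : ℕ, ∃ r ∈ Finset.range N, ∃ α : ℂ, ‖α - t * ω‖ ≤ B + B2 ∧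
        MapClusterPt α atTop (fun l : ℕ => v (r + N * l)) := by
      intro t
      obtain ⟨r, hr, hfr⟩ := frequently_residue hNpos (hdense2 (t * ω))
      obtain ⟨α, hα1, hα2⟩ := (isCompact_closedBall ((t : ℂ) * ω) (B + B2)).exists_mapClusterPt_of_frequently
        (l := atTop) (f := fun l : ℕ => v (r + N * l)) (hfr.mono fun l hl => by
          rw [mem_closedBall_iff_norm]; exact hl)
      exact ⟨r, hr, α, by rwa [mem_closedBall_iff_norm] at hα1, hα2⟩
    obtain ⟨r, hr, hfr⟩ := pigeonhole h1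
    rw [eval_prod]
    exact Finset.prod_eq_zero hr (hPω r ω hω hfr)
  have hprod : (∏ r ∈ Finset.range N, P r) = 0 := by
    apply Polynomial.eq_zero_of_infinite_isRoot
    exact circle_infinite.mono fun ω hω => hroots ω hω
  exact (Finset.prod_ne_zero_iff.mpr fun r _ => hP0 r) hprod

section spectral

variable {V : Type*} [AddCommGroup V] [Module ℂ V] (T : Module.End ℂ V) (f : V →ₗ[ℂ] ℂ)

/-- The orbit functional `f (T ^ k x)` is eventually an exponential polynomial with the expected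
spectral data. -/
def Good (x : V) : Prop := ∃ p : ℂ →₀ ℂ[X], (∀ μ, p μ ≠ 0 → T.HasEigenvalue μ) ∧
  (∀ μ, 1 ≤ (p μ).natDegree →
    LinearMap.ker ((T - μ • (1 : Module.End ℂ V)) ^ 2) ≠ LinearMap.ker (T - μ • (1 : Module.End ℂ V))) ∧
  ∀ᶠ k : ℕ in atTop, f ((T ^ k) x) = p.sum fun μ q => q.eval (k : ℂ) * μ ^ k

lemma good_zero : Good T f 0 :=
  ⟨0, by simp, by simp, Eventually.of_forall fun k => by simp⟩

lemma good_add {x y : V} (hx : Good T f x) (hy : Good T f y) : Good T f (x + y) := by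
  obtain ⟨p, hp1, hp2, hp3⟩ := hx
  obtain ⟨q, hq1, hq2, hq3⟩ := hy
  refine ⟨p + q, ?_, ?_, ?_⟩
  · intro μ hμ
    by_cases h : p μ = 0
    · apply hq1
      intro h2
      apply hμ
      rw [Finsupp.add_apply, h, h2, add_zero]
    · exact hp1 μ h
  · intro μ hμ
    by_cases h : 1 ≤ (p μ).natDegree
    · exact hp2 μ h
    · apply hq2
      by_contra h2
      rw [Finsupp.add_apply] at hμ
      have := natDegree_add_le (p μ) (q μ)
      omega
  · filter_upwards [hp3, hq3] with k hk1 hk2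
    rw [map_add, map_add, hk1, hk2, Finsupp.sum_add_index']
    · intro μ; simp
    · intro μ a b; rw [eval_add, add_mul]

lemma ker_pow_succ {N : Module.End ℂ V} (h : LinearMap.ker (N ^ 2) = LinearMap.ker N) (n : ℕ)
    {x : V} (hx : (N ^ n) x = 0) : N x = 0 := by
  induction n with
  | zero => simp at hx; simp [hx]
  | succ n ih =>
    rcases n with _ | n
    · simpa using hx
    · apply ih
      have h1 : (N ^ n) x ∈ LinearMap.ker (N ^ 2) := by
        rw [LinearMap.mem_ker, ← Module.End.mul_apply, ← pow_add, add_comm]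
        exact hx
      rw [h, LinearMap.mem_ker] at h1
      rw [pow_succ', Module.End.mul_apply]
      exact h1

lemma good_of_mem (μ : ℂ) (x : V) (hx : x ∈ T.maxGenEigenspace μ) : Good T f x := by
  rw [Module.End.mem_maxGenEigenspace] at hx
  by_cases hx0 : x = 0
  · rw [hx0]; exact good_zero T f
  obtain ⟨n, hn⟩ := hx
  set N : Module.End ℂ V := T - μ • (1 : Module.End ℂ V) with hN
  have hpow : ∀ k, n ≤ k → (N ^ k) x = 0 := by
    intro k hk
    obtain ⟨e, rfl⟩ := Nat.exists_eq_add_of_le' hk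
    rw [pow_add, Module.End.mul_apply, hn, map_zero]
  have hT : T = N + μ • (1 : Module.End ℂ V) := by rw [hN]; abel
  have hexp : ∀ k, n ≤ k → (T ^ k) x = ∑ j ∈ Finset.range n, ((k.choose j : ℂ) * μ ^ (k - j)) • (N ^ j) x := by
    intro k hk
    have hcomm : Commute N (μ • (1 : Module.End ℂ V)) := (Commute.one_right N).smul_right μ
    rw [hT, hcomm.add_pow, LinearMap.sum_apply]
    have hterm : ∀ j, (N ^ j * (μ • (1 : Module.End ℂ V)) ^ (k - j) * (k.choose j : Module.End ℂ V)) x =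
        ((k.choose j : ℂ) * μ ^ (k - j)) • (N ^ j) x := by
      intro j
      rw [_root_.smul_pow, one_pow, mul_smul_comm, mul_one, smul_mul_assoc, LinearMap.smul_apply,
        Module.End.mul_apply, Module.End.natCast_apply, map_nsmul, ← Nat.cast_smul_eq_nsmul ℂ, smul_smul,
        mul_comm]
    simp only [hterm]
    symm
    apply Finset.sum_subset
    · intro j hj
      rw [Finset.mem_range] at hj ⊢
      omega
    · intro j _ hj
      rw [Finset.mem_range, not_lt] at hj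
      rw [hpow j hj, smul_zero]
  by_cases hμ : μ = 0
  · refine ⟨0, by simp, by simp, ?_⟩
    filter_upwards [eventually_ge_atTop n] with k hk
    have : T = N := by rw [hN, hμ, zero_smul, sub_zero]
    rw [this, hpow k hk]
    simp
  · have heig : T.HasEigenvalue μ := by
      have h1 : T.HasGenEigenvalue μ n := by
        rw [Module.End.hasGenEigenvalue_iff]
        intro hbot
        apply hx0
        have : x ∈ T.genEigenspace μ n := by
          rw [Module.End.mem_genEigenspace_nat]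
          exact hn
        rw [hbot] at this
        exact (Submodule.mem_bot ℂ).mp this
      exact Module.End.hasEigenvalue_of_hasGenEigenvalue h1
    set q : ℂ[X] := ∑ j ∈ Finset.range n, C (f ((N ^ j) x) * (μ ^ j)⁻¹ * (j.factorial : ℂ)⁻¹) *
      descPochhammer ℂ j with hq
    refine ⟨Finsupp.single μ q, ?_, ?_, ?_⟩
    · intro ν hν
      by_cases h : μ = ν
      · rw [← h]; exact heig
      · rw [Finsupp.single_eq_of_ne' h] at hν
        exact absurd rfl hν
    · intro ν hν hker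
      by_cases h : μ = ν
      · rw [← h] at hν hker
        rw [Finsupp.single_eq_same] at hν
        have hNx : N x = 0 := ker_pow_succ hker n hn
        have hq2 : q = C (∑ j ∈ Finset.range n, if j = 0 then f x else 0) := by
          rw [hq, map_sum]
          apply Finset.sum_congr rfl
          intro j _
          rcases j with _ | j
          · simp
          · have : (N ^ (j + 1)) x = 0 := by
              rw [pow_succ, Module.End.mul_apply, hNx, map_zero]
            rw [this]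
            simp
        rw [hq2, natDegree_C] at hν
        omega
      · rw [Finsupp.single_eq_of_ne' h] at hν
        simp at hν
    · filter_upwards [eventually_ge_atTop n] with k hk
      rw [hexp k hk, map_sum, Finsupp.sum_single_index (by simp), hq, eval_finsetSum, Finset.sum_mul]
      apply Finset.sum_congr rfl
      intro j hj
      have hjk : j ≤ k := by rw [Finset.mem_range] at hj; omega
      rw [map_smul, smul_eq_mul, eval_mul, eval_C, descPochhammer_eval_eq_descFactorial,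
        Nat.descFactorial_eq_factorial_mul_choose]
      have h1 : μ ^ k = μ ^ j * μ ^ (k - j) := by rw [← pow_add]; congr 1; omega
      have h2 : (j.factorial : ℂ) ≠ 0 := by exact_mod_cast j.factorial_ne_zero
      rw [h1]
      push_cast
      field_simp

lemma good_all [FiniteDimensional ℂ V] (x : V) : Good T f x := by
  have hx : x ∈ ⨆ μ : ℂ, T.maxGenEigenspace μ := by
    rw [Module.End.iSup_maxGenEigenspace_eq_top]
    exact Submodule.mem_top
  refine Submodule.iSup_induction (fun μ => T.maxGenEigenspace μ) (motive := Good T f) hx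
    (fun μ y hy => good_of_mem T f μ y hy) (good_zero T f) (fun y z hy hz => good_add T f hy hz)

end spectral


lemma pow_similar {X Y : Type} [NormedAddCommGroup X] [NormedSpace ℂ X] [NormedAddCommGroup Y]
    [NormedSpace ℂ Y] (T : X →L[ℂ] X) (J : X ≃L[ℂ] Y) (S : Y →L[ℂ] Y)
    (h : ∀ x, T x = J.symm (S (J x))) (k : ℕ) (x : X) : J ((T ^ k) x) = (S ^ k) (J x) := by
  induction k generalizing x with
  | zero => simp
  | succ k ih =>
    rw [pow_succ, pow_succ, mul_apply_eq_comp, mul_apply_eq_comp, ih, h x,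
      ContinuousLinearEquiv.apply_symm_apply]

/-- Every weakly numerically hypercyclic operator on a finite dimensional space satisfies one of the
four conditions. -/
theorem main {X : Type} [NormedAddCommGroup X] [NormedSpace ℂ X] [FiniteDimensional ℂ X]
    (T : X →L[ℂ] X) (hT : WeaklyNumericallyHypercyclic T) : C1 T ∨ C2 T ∨ C3 T ∨ C4 T := by
  obtain ⟨Y, _, _, _, J, S, ⟨y, g, _, _, _, hd⟩, hJ⟩ := hT
  set x : X := J.symm y with hx
  set f : X →ₗ[ℂ] ℂ := ((g.comp (J : X →L[ℂ] Y) : X →L[ℂ] ℂ) : X →ₗ[ℂ] ℂ) with hf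
  have horb : ∀ k : ℕ, f (((T : Module.End ℂ X) ^ k) x) = g ((S ^ k) y) := by
    intro k
    have h1 : ((T : Module.End ℂ X) ^ k) x = (T ^ k) x := by
      rw [← ContinuousLinearMap.toLinearMap_pow]
      rfl
    rw [h1, hf]
    change g (J ((T ^ k) x)) = _
    rw [pow_similar T J S hJ, hx, ContinuousLinearEquiv.apply_symm_apply]
  obtain ⟨p, hp1, hp2, hp3⟩ := good_all (T : Module.End ℂ X) f x
  by_contra hcon
  push Not at hcon
  obtain ⟨n1, n2, n3, n4⟩ := hcon
  refine abstract_main p 1 (fun k => f (((T : Module.End ℂ X) ^ k) x)) hp3 ?_ ?_ ?_ ?_ ?_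
  · intro a
    rw [frequently_atTop]
    intro K
    -- remove finitely many points
    have hfin : (Set.range fun k : Fin K => g ((S ^ (k : ℕ)) y)).Finite := Set.finite_range _
    have hopen : IsOpen (Metric.ball a 1 \ (Set.range fun k : Fin K => g ((S ^ (k : ℕ)) y))) :=
      Metric.isOpen_ball.sdiff hfin.isClosed
    have hne : (Metric.ball a 1 \ (Set.range fun k : Fin K => g ((S ^ (k : ℕ)) y))).Nonempty := by
      by_contra hcon
      rw [Set.not_nonempty_iff_eq_empty, Set.sdiff_eq_empty] at hcon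
      have h1 : (Metric.ball a 1).Finite := hfin.subset hcon
      have h2 : (Metric.ball a 1).Infinite := infinite_of_mem_nhds a (Metric.ball_mem_nhds a one_pos)
      exact h2 h1
    obtain ⟨z, ⟨k, hk⟩, hz1, hz2⟩ := hd.exists_mem_open hopen hne
    have hkK : K ≤ k := by
      by_contra hlt
      exact hz2 ⟨⟨k, not_le.mp hlt⟩, hk⟩
    refine ⟨k, hkK, ?_⟩
    have h3 : f (((T : Module.End ℂ X) ^ k) x) = z := (horb k).trans hk
    rw [h3, ← dist_eq_norm]
    exact (Metric.mem_ball.mp hz1).le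
  · intro μ ν h1 h2 h3 h4 h5
    exact n1 ⟨μ, ν, hp1 μ h1, hp1 ν h2, h3, h4, h5⟩
  · intro μ ν h1 h2 h3 h4 h5
    exact n2 ⟨μ, ν, h3, h4, h5, hp2 μ h1, hp2 ν h2⟩
  · intro μ ν ξ h1 h2 h3 h4 h5 h6 h7 h8
    exact n3 ⟨μ, ν, ξ, hp1 μ h1, hp1 ν h2, hp1 ξ h3, h4, h5, h6, h7, h8⟩
  · intro μ ν ξ h1 h2 h3 h4 h5 h6 h7 h8
    exact n4 ⟨μ, ν, ξ, hp1 μ h1, hp1 ν h2, h4, hp2 ξ h3, h5, h6, h7, h8⟩

end Pool.Agent.Lib_helper53.WNH
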